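import Pool.Agent.CAR.Defs

/-!
# CAR module Bk: from approximation data back to Borel maps

PAPER PROOF. Fix `i`, `w = W.l i`, `χ_j = chi w j`, `C_j = {z | 1/2 < χ_j z ∧ ∀ k ≠ j, χ_k z ≤ 1/2}`: disjoint
Borel sets. `h i z = gZ (w.g j) z` on `C_j`, `h i z = z` outside `⋃ C_j` (this depends on `W` only; Borel,
e.g. `h i z = if h : ∃ j, z ∈ C_j then ...`, finitely many Borel pieces).
Pointwise `|χ_j - 1_{C_j}| ≤ 2 χ_j (1 - χ_j) + 2 ∑_{k ≠ j} χ_j χ_k` (three cases: `χ_j ≤ 1/2`; `χ_j > 1/2` and all
other `χ_k ≤ 1/2`; `χ_j > 1/2` and some other `χ_k > 1/2`), hence `∑_j |χ_j - 1_{C_j}| ≤ 2 dfc w` and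
`∑_j ∫ |χ_j - 1_{C_j}| dm ≤ 2ε`.
The inequality `main` holds for all Borel `F` with `|F| ≤ 1`: the measure
`m₁ = ∑_j (m.withDensity χ_j).map (gZ j × τ)` is finite and `|∫ F dm - ∫ F dm₁| ≤ ε` for continuous
`F`, `|F| ≤ 1`; for Borel `F` choose continuous `F_n` with `|F_n| ≤ 1`, `∫ |F_n - F| d(m + m₁) → 0`
(density of continuous functions in `L¹` of a finite measure on a compact metrizable space; cut off at
`±1`).
With `F = 1`: `∑_j ∫ χ_j dm ≥ 1 - ε`, so `m(C) ≥ 1 - 3ε` for `C = ⋃ C_j × T2`. Therefore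
`|∫ F dm - ∫ F(h z, τx) dm| ≤ ε + ∑_j ∫ |χ_j - 1_{C_j}| dm + m(Cᶜ) ≤ 6ε`.
`psi`, `psim`, `psib`: trivial (`0 ≤ ε` by `main` with `F = 0`). `inv`: the finite measures
`(m.map fst).map (gZ j)` and `m.map fst` have the same integrals of continuous functions
(`ext_of_forall_integral_eq_of_IsFiniteMeasure`).
-/

open MeasureTheory Topology

namespace Pool.CAR

namespace BkAux

variable {ι Z : Type} [TopologicalSpace Z]

section chi

theorem chi_nonneg (w : One ι Z) (j : Fin w.n) (z : Z) : 0 ≤ chi w j z := le_max_left _ _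

theorem chi_le_one (w : One ι Z) (j : Fin w.n) (z : Z) : chi w j z ≤ 1 :=
  max_le zero_le_one (min_le_right _ _)

theorem continuous_chi (w : One ι Z) (j : Fin w.n) : Continuous (chi w j) := by
  unfold chi
  exact continuous_const.max (((w.δ j).continuous).min continuous_const)

theorem continuous_dfc (w : One ι Z) : Continuous (dfc w) := by
  unfold dfc
  refine Continuous.add ?_ ?_
  · refine continuous_finsetSum _ fun j _ => ?_
    exact (continuous_chi w j).mul (continuous_const.sub (continuous_chi w j))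
  · refine continuous_finsetSum _ fun j _ => continuous_finsetSum _ fun k _ => ?_
    split_ifs
    · exact continuous_const
    · exact (continuous_chi w j).mul (continuous_chi w k)

/-- The pieces. -/
def bkC (w : One ι Z) (j : Fin w.n) : Set Z :=
  {z | 1 / 2 < chi w j z ∧ ∀ k, k ≠ j → chi w k z ≤ 1 / 2}

theorem bkC_unique (w : One ι Z) {j k : Fin w.n} {z : Z} (hj : z ∈ bkC w j) (hk : z ∈ bkC w k) :
    j = k := by
  by_contra hne
  have h1 := hj.2 k (fun h => hne h.symm)
  have h2 := hk.1
  linarith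

open Classical in
/-- The indicator of a piece. -/
noncomputable def bkI (w : One ι Z) (j : Fin w.n) (z : Z) : ℝ := if z ∈ bkC w j then 1 else 0

theorem bkI_nonneg (w : One ι Z) (j : Fin w.n) (z : Z) : 0 ≤ bkI w j z := by
  unfold bkI; split_ifs <;> norm_num

theorem bkI_le_one (w : One ι Z) (j : Fin w.n) (z : Z) : bkI w j z ≤ 1 := by
  unfold bkI; split_ifs <;> norm_num

theorem abs_chi_sub_bkI (w : One ι Z) (j : Fin w.n) (z : Z) :
    |chi w j z - bkI w j z| ≤ 2 * (chi w j z * (1 - chi w j z)) +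
      2 * ∑ k, (if j = k then 0 else chi w j z * chi w k z) := by
  have h0 := chi_nonneg w j z
  have h1 := chi_le_one w j z
  have hs : ∀ k ∈ (Finset.univ : Finset (Fin w.n)),
      0 ≤ (if j = k then (0 : ℝ) else chi w j z * chi w k z) := by
    intro k _
    split_ifs
    · exact le_rfl
    · exact mul_nonneg h0 (chi_nonneg w k z)
  have hs0 := Finset.sum_nonneg hs
  by_cases hj : chi w j z ≤ 1 / 2
  · have hI : bkI w j z = 0 := by
      unfold bkI
      rw [if_neg]
      intro hz
      have := hz.1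
      linarith
    rw [hI, sub_zero, abs_of_nonneg h0]
    nlinarith
  · push Not at hj
    by_cases hk : ∀ k, k ≠ j → chi w k z ≤ 1 / 2
    · have hI : bkI w j z = 1 := by
        unfold bkI
        rw [if_pos]
        exact ⟨hj, hk⟩
      rw [hI, abs_of_nonpos (by linarith)]
      nlinarith
    · have hI : bkI w j z = 0 := by
        unfold bkI
        rw [if_neg]
        intro hz
        exact hk hz.2
      push Not at hk
      obtain ⟨k, hkj, hk⟩ := hk
      rw [hI, sub_zero, abs_of_nonneg h0]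
      have hle := Finset.single_le_sum hs (Finset.mem_univ k)
      rw [if_neg (fun h => hkj h.symm)] at hle
      nlinarith

theorem sum_abs_le (w : One ι Z) (z : Z) :
    ∑ j, |chi w j z - bkI w j z| ≤ 2 * dfc w z := by
  calc ∑ j, |chi w j z - bkI w j z| ≤ ∑ j, (2 * (chi w j z * (1 - chi w j z)) +
      2 * ∑ k, (if j = k then 0 else chi w j z * chi w k z)) :=
        Finset.sum_le_sum fun j _ => abs_chi_sub_bkI w j z
    _ = 2 * dfc w z := by
        unfold dfc
        rw [Finset.sum_add_distrib, ← Finset.mul_sum, ← Finset.mul_sum]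
        ring

open Classical in
/-- The Borel map. -/
noncomputable def bkh (gZ : ι → (Z ≃ₜ Z)) (w : One ι Z) (z : Z) : Z :=
  if hz : ∃ j, z ∈ bkC w j then gZ (w.g (Classical.choose hz)) z else z

theorem bkh_of_mem (gZ : ι → (Z ≃ₜ Z)) (w : One ι Z) {z : Z} {j : Fin w.n} (hz : z ∈ bkC w j) :
    bkh gZ w z = gZ (w.g j) z := by
  have hex : ∃ j, z ∈ bkC w j := ⟨j, hz⟩
  unfold bkh
  rw [dif_pos hex, bkC_unique w (Classical.choose_spec hex) hz]

theorem bkh_of_not (gZ : ι → (Z ≃ₜ Z)) (w : One ι Z) {z : Z} (hz : ¬ ∃ j, z ∈ bkC w j) :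
    bkh gZ w z = z := by
  unfold bkh
  rw [dif_neg hz]

theorem bkh_inn (gZ : ι → (Z ≃ₜ Z)) (hid : ∃ j, ∀ z, gZ j z = z) (w : One ι Z) (z : Z) :
    ∃ j, bkh gZ w z = gZ j z := by
  by_cases hz : ∃ j, z ∈ bkC w j
  · obtain ⟨j, hj⟩ := hz
    exact ⟨w.g j, bkh_of_mem gZ w hj⟩
  · obtain ⟨j, hj⟩ := hid
    exact ⟨j, by rw [bkh_of_not gZ w hz, hj]⟩

/-- Pointwise estimate. -/
theorem pointwise (gZ : ι → (Z ≃ₜ Z)) (w : One ι Z) (F : Z × T2 → ℝ) (hF : ∀ p, |F p| ≤ 1)
    (z : Z) (y : T2) :
    |∑ j, chi w j z * F (gZ (w.g j) z, y) - F (bkh gZ w z, y)| ≤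
      ∑ j, |chi w j z - bkI w j z| + (1 - ∑ j, bkI w j z) := by
  by_cases hz : ∃ j, z ∈ bkC w j
  · obtain ⟨j, hj⟩ := hz
    have hI : ∀ k, bkI w k z = if k = j then 1 else 0 := by
      intro k
      unfold bkI
      by_cases hk : k = j
      · subst hk
        rw [if_pos hj, if_pos rfl]
      · rw [if_neg hk, if_neg]
        intro h
        exact hk (bkC_unique w h hj)
    have hsum : ∑ k, bkI w k z = 1 := by
      simp [hI]
    have hF1 : F (bkh gZ w z, y) = ∑ k, bkI w k z * F (gZ (w.g k) z, y) := by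
      rw [bkh_of_mem gZ w hj]
      simp [hI]
    rw [hsum, sub_self, add_zero, hF1, ← Finset.sum_sub_distrib]
    refine (Finset.abs_sum_le_sum_abs _ _).trans (Finset.sum_le_sum fun k _ => ?_)
    rw [← sub_mul, abs_mul]
    exact mul_le_of_le_one_right (abs_nonneg _) (hF _)
  · have hI : ∀ k, bkI w k z = 0 := by
      intro k
      unfold bkI
      rw [if_neg]
      intro h
      exact hz ⟨k, h⟩
    have hsum : ∑ k, bkI w k z = 0 := by simp [hI]
    rw [hsum, sub_zero]
    refine (abs_sub _ _).trans (add_le_add ?_ (hF _))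
    refine (Finset.abs_sum_le_sum_abs _ _).trans (Finset.sum_le_sum fun k _ => ?_)
    rw [hI, sub_zero, abs_mul]
    exact mul_le_of_le_one_right (abs_nonneg _) (hF _)

end chi

section meas

variable [MeasurableSpace Z] [BorelSpace Z]

theorem measurableSet_bkC (w : One ι Z) (j : Fin w.n) : MeasurableSet (bkC w j) := by
  have : bkC w j = {z | 1 / 2 < chi w j z} ∩ ⋂ k, {z | k ≠ j → chi w k z ≤ 1 / 2} := by
    ext z
    simp [bkC]
  rw [this]
  refine MeasurableSet.inter ?_ (MeasurableSet.iInter fun k => ?_)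
  · exact measurableSet_lt measurable_const (continuous_chi w j).measurable
  · by_cases hk : k = j
    · have : {z : Z | k ≠ j → chi w k z ≤ 1 / 2} = Set.univ := by
        ext z; simp [hk]
      rw [this]
      exact MeasurableSet.univ
    · have : {z : Z | k ≠ j → chi w k z ≤ 1 / 2} = {z | chi w k z ≤ 1 / 2} := by
        ext z; simp [hk]
      rw [this]
      exact measurableSet_le (continuous_chi w k).measurable measurable_const

theorem measurable_bkI (w : One ι Z) (j : Fin w.n) : Measurable (bkI w j) := by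
  unfold bkI
  exact Measurable.ite (measurableSet_bkC w j) measurable_const measurable_const

theorem measurable_bkh (gZ : ι → (Z ≃ₜ Z)) (w : One ι Z) : Measurable (bkh gZ w) := by
  intro A hA
  have : bkh gZ w ⁻¹' A = (⋃ j, bkC w j ∩ (gZ (w.g j)) ⁻¹' A) ∪ ((⋃ j, bkC w j)ᶜ ∩ A) := by
    ext z
    by_cases hz : ∃ j, z ∈ bkC w j
    · obtain ⟨j, hj⟩ := hz
      simp only [Set.mem_preimage, Set.mem_union, Set.mem_iUnion, Set.mem_inter_iff,
        Set.mem_compl_iff]
      rw [bkh_of_mem gZ w hj]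
      constructor
      · intro h
        exact Or.inl ⟨j, hj, h⟩
      · rintro (⟨k, hk, h⟩ | ⟨h, _⟩)
        · rwa [bkC_unique w hj hk]
        · exact absurd ⟨j, hj⟩ h
    · simp only [Set.mem_preimage, Set.mem_union, Set.mem_iUnion, Set.mem_inter_iff,
        Set.mem_compl_iff]
      rw [bkh_of_not gZ w hz]
      constructor
      · intro h
        exact Or.inr ⟨hz, h⟩
      · rintro (⟨k, hk, h⟩ | ⟨_, h⟩)
        · exact absurd ⟨k, hk⟩ hz
        · exact h
  rw [this]
  refine MeasurableSet.union (MeasurableSet.iUnion fun j => ?_) ?_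
  · exact (measurableSet_bkC w j).inter ((gZ (w.g j)).continuous.measurable hA)
  · exact (MeasurableSet.iUnion fun j => measurableSet_bkC w j).compl.inter hA

end meas

variable [CompactSpace Z] [TopologicalSpace.MetrizableSpace Z]
  [MeasurableSpace Z] [BorelSpace Z]

theorem clip_le {a : ℝ} (ha : |a| ≤ 1) (b : ℝ) : |a - max (-1) (min b 1)| ≤ |a - b| := by
  obtain ⟨h1, h2⟩ := abs_le.1 ha
  rcases le_total b 1 with hb | hb
  · rw [min_eq_left hb]
    rcases le_total (-1) b with hb' | hb'
    · rw [max_eq_right hb']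
    · rw [max_eq_left hb', abs_of_nonneg (by linarith), abs_of_nonneg (by linarith)]
      linarith
  · rw [min_eq_right hb, max_eq_right (by norm_num), abs_of_nonpos (by linarith),
      abs_of_nonpos (by linarith)]
    linarith

/-- Approximation of Borel functions by continuous ones. -/
theorem exists_cont (ν : Measure (Z × T2)) [IsFiniteMeasure ν] (F : Z × T2 → ℝ)
    (hFm : Measurable F) (hF : ∀ p, |F p| ≤ 1) {δ : ℝ} (hδ : 0 < δ) :
    ∃ G : C(Z × T2, ℝ), (∀ p, |G p| ≤ 1) ∧ ∫ p, |F p - G p| ∂ν ≤ δ := by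
  have hint : Integrable F ν := by
    refine Integrable.of_bound hFm.aestronglyMeasurable 1 (Filter.Eventually.of_forall fun p => ?_)
    rw [Real.norm_eq_abs]
    exact hF p
  obtain ⟨g, hg, hgi⟩ := hint.exists_boundedContinuous_integral_sub_le hδ
  refine ⟨⟨fun p => max (-1) (min (g p) 1), ?_⟩, ?_, ?_⟩
  · exact continuous_const.max (g.continuous.min continuous_const)
  · intro p
    change |max (-1) (min (g p) 1)| ≤ 1
    rw [abs_le]
    exact ⟨le_max_left _ _, max_le (by norm_num) (min_le_right _ _)⟩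
  · refine le_trans (integral_mono_of_nonneg (Filter.Eventually.of_forall fun p => abs_nonneg _)
      ((hint.sub hgi).norm) (Filter.Eventually.of_forall fun p => ?_)) hg
    change |F p - max (-1) (min (g p) 1)| ≤ ‖F p - g p‖
    rw [Real.norm_eq_abs]
    exact clip_le (hF p) (g p)

omit [CompactSpace Z] [TopologicalSpace.MetrizableSpace Z] in
theorem measurable_phi (gZ : ι → (Z ≃ₜ Z)) (c : UnitAddCircle) (i : Fin 3) (j : ι) :
    Measurable fun p : Z × T2 => ((gZ j p.1, tau c i p.2) : Z × T2) :=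
  ((gZ j).continuous.measurable.comp measurable_fst).prodMk
    ((tau c i).continuous.measurable.comp measurable_snd)

/-- The inequality `main` for Borel functions. -/
theorem main_borel (gZ : ι → (Z ≃ₜ Z)) (W : Dat ι Z) {ε : ℝ} {c : UnitAddCircle}
    {m : Measure (Z × T2)} [IsProbabilityMeasure m] (H : Adm gZ W ε c m) (i : Fin 3)
    (F : Z × T2 → ℝ) (hFm : Measurable F) (hF : ∀ p, |F p| ≤ 1) :
    |∫ p, F p ∂m - ∑ j, ∫ p, chi (W.l i) j p.1 * F (gZ ((W.l i).g j) p.1, tau c i p.2) ∂m| ≤ ε := by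
  refine le_of_forall_pos_le_add fun δ hδ => ?_
  set w := W.l i with hw
  let Φ : Fin w.n → Z × T2 → Z × T2 := fun j p => (gZ (w.g j) p.1, tau c i p.2)
  have hΦ : ∀ j, Measurable (Φ j) := fun j => measurable_phi gZ c i (w.g j)
  obtain ⟨G, hG1, hG2⟩ := exists_cont (m + ∑ j, m.map (Φ j)) F hFm hF hδ
  have hGm : Measurable G := G.continuous.measurable
  have hFi : ∀ (ν : Measure (Z × T2)) [IsFiniteMeasure ν], Integrable F ν := fun ν _ =>
    Integrable.of_bound hFm.aestronglyMeasurable 1 (Filter.Eventually.of_forall fun p => by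
      rw [Real.norm_eq_abs]; exact hF p)
  have hGi : ∀ (ν : Measure (Z × T2)) [IsFiniteMeasure ν], Integrable G ν := fun ν _ =>
    Integrable.of_bound hGm.aestronglyMeasurable 1 (Filter.Eventually.of_forall fun p => by
      rw [Real.norm_eq_abs]; exact hG1 p)
  have hDi : ∀ (ν : Measure (Z × T2)) [IsFiniteMeasure ν], Integrable (fun p => |F p - G p|) ν :=
    fun ν _ => ((hFi ν).sub (hGi ν)).abs
  have hsplit : ∫ p, |F p - G p| ∂(m + ∑ j, m.map (Φ j)) =
      ∫ p, |F p - G p| ∂m + ∑ j, ∫ p, |F p - G p| ∂(m.map (Φ j)) := by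
    rw [integral_add_measure (hDi _) (hDi _), integral_finsetSum_measure fun j _ => hDi _]
  have hmap : ∀ j, ∫ p, |F p - G p| ∂(m.map (Φ j)) = ∫ p, |F (Φ j p) - G (Φ j p)| ∂m := by
    intro j
    rw [integral_map (hΦ j).aemeasurable]
    exact ((hFm.sub hGm).abs).aestronglyMeasurable
  have hmain := H.main i G hG1
  rw [← hw] at hmain
  have hcm : ∀ j, Measurable fun p : Z × T2 => chi w j p.1 := fun j =>
    (continuous_chi w j).measurable.comp measurable_fst
  have hFΦi : ∀ j, Integrable (fun p => chi w j p.1 * F (Φ j p)) m := fun j =>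
    Integrable.of_bound ((hcm j).mul (hFm.comp (hΦ j))).aestronglyMeasurable 1
      (Filter.Eventually.of_forall fun p => by
        rw [Real.norm_eq_abs, abs_mul, abs_of_nonneg (chi_nonneg _ _ _)]
        exact mul_le_one₀ (chi_le_one _ _ _) (abs_nonneg _) (hF _))
  have hGΦi : ∀ j, Integrable (fun p => chi w j p.1 * G (Φ j p)) m := fun j =>
    Integrable.of_bound ((hcm j).mul (hGm.comp (hΦ j))).aestronglyMeasurable 1
      (Filter.Eventually.of_forall fun p => by
        rw [Real.norm_eq_abs, abs_mul, abs_of_nonneg (chi_nonneg _ _ _)]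
        exact mul_le_one₀ (chi_le_one _ _ _) (abs_nonneg _) (hG1 _))
  have h1 : |∫ p, F p ∂m - ∫ p, G p ∂m| ≤ ∫ p, |F p - G p| ∂m := by
    rw [← integral_sub (hFi m) (hGi m)]
    exact abs_integral_le_integral_abs
  have h2 : |∑ j, ∫ p, chi w j p.1 * F (Φ j p) ∂m - ∑ j, ∫ p, chi w j p.1 * G (Φ j p) ∂m| ≤
      ∑ j, ∫ p, |F (Φ j p) - G (Φ j p)| ∂m := by
    rw [← Finset.sum_sub_distrib]
    refine (Finset.abs_sum_le_sum_abs _ _).trans (Finset.sum_le_sum fun j _ => ?_)
    rw [← integral_sub (hFΦi j) (hGΦi j)]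
    refine abs_integral_le_integral_abs.trans ?_
    refine integral_mono_of_nonneg (Filter.Eventually.of_forall fun p => abs_nonneg _) ?_
      (Filter.Eventually.of_forall fun p => ?_)
    · have h := (hDi (m.map (Φ j)))
      exact (integrable_map_measure h.aestronglyMeasurable (hΦ j).aemeasurable).1 h
    · change |chi w j p.1 * F (Φ j p) - chi w j p.1 * G (Φ j p)| ≤ |F (Φ j p) - G (Φ j p)|
      rw [← mul_sub, abs_mul, abs_of_nonneg (chi_nonneg _ _ _)]
      exact mul_le_of_le_one_left (abs_nonneg _) (chi_le_one _ _ _)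
  have h3 : ∫ p, |F p - G p| ∂m + ∑ j, ∫ p, |F (Φ j p) - G (Φ j p)| ∂m ≤ δ := by
    rw [hsplit] at hG2
    simpa only [hmap] using hG2
  change |∫ p, F p ∂m - ∑ j, ∫ p, chi w j p.1 * F (Φ j p) ∂m| ≤ ε + δ
  change |∫ p, G p ∂m - ∑ j, ∫ p, chi w j p.1 * G (Φ j p) ∂m| ≤ ε at hmain
  have e1 := abs_le.1 h1
  have e2 := abs_le.1 h2
  have e3 := abs_le.1 hmain
  rw [abs_le]
  constructor <;> linarith [e1.1, e1.2, e2.1, e2.2, e3.1, e3.2]

end BkAux

open BkAux

variable {ι Z : Type} [TopologicalSpace Z] [CompactSpace Z] [TopologicalSpace.MetrizableSpace Z]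
  [MeasurableSpace Z] [BorelSpace Z]

theorem exists_Inn (gZ : ι → (Z ≃ₜ Z)) (hid : ∃ j, ∀ z, gZ j z = z) (W : Dat ι Z) :
    ∃ h : Fin 3 → Z → Z, ∀ (ε : ℝ) (c : UnitAddCircle) (m : Measure (Z × T2)),
      IsProbabilityMeasure m → Adm gZ W ε c m →
        Inn gZ h (fun l z => W.ψ l z) (6 * ε) c m := by
  refine ⟨fun i => bkh gZ (W.l i), fun ε c m hm H => ?_⟩
  have hε : 0 ≤ ε := by
    have := H.main 0 0 (fun p => by simp)
    simpa using this
  refine ⟨fun i => measurable_bkh gZ (W.l i), fun i z => bkh_inn gZ hid (W.l i) z, ?_,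
    fun l => (W.ψ l).continuous.measurable, ?_, fun l => ?_, fun j => ?_⟩
  · intro i F hFm hF
    set w := W.l i with hw
    let Φ : Fin w.n → Z × T2 → Z × T2 := fun j p => (gZ (w.g j) p.1, tau c i p.2)
    have hΦ : ∀ j, Measurable (Φ j) := fun j => measurable_phi gZ c i (w.g j)
    have hcm : ∀ j, Measurable fun p : Z × T2 => chi w j p.1 := fun j =>
      (continuous_chi w j).measurable.comp measurable_fst
    have hIm : ∀ j, Measurable fun p : Z × T2 => bkI w j p.1 := fun j =>
      (measurable_bkI w j).comp measurable_fst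
    have hci : ∀ j, Integrable (fun p : Z × T2 => chi w j p.1) m := fun j =>
      Integrable.of_bound (hcm j).aestronglyMeasurable 1
        (Filter.Eventually.of_forall fun p => by
          rw [Real.norm_eq_abs, abs_of_nonneg (chi_nonneg _ _ _)]
          exact chi_le_one _ _ _)
    have hIi : ∀ j, Integrable (fun p : Z × T2 => bkI w j p.1) m := fun j =>
      Integrable.of_bound (hIm j).aestronglyMeasurable 1
        (Filter.Eventually.of_forall fun p => by
          rw [Real.norm_eq_abs, abs_of_nonneg (bkI_nonneg _ _ _)]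
          exact bkI_le_one _ _ _)
    have hFΦi : ∀ j, Integrable (fun p => chi w j p.1 * F (Φ j p)) m := fun j =>
      Integrable.of_bound ((hcm j).mul (hFm.comp (hΦ j))).aestronglyMeasurable 1
        (Filter.Eventually.of_forall fun p => by
          rw [Real.norm_eq_abs, abs_mul, abs_of_nonneg (chi_nonneg _ _ _)]
          exact mul_le_one₀ (chi_le_one _ _ _) (abs_nonneg _) (hF _))
    have hhm : Measurable fun p : Z × T2 => F (bkh gZ w p.1, tau c i p.2) :=
      hFm.comp (((measurable_bkh gZ w).comp measurable_fst).prodMk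
        ((tau c i).continuous.measurable.comp measurable_snd))
    have hhi : Integrable (fun p : Z × T2 => F (bkh gZ w p.1, tau c i p.2)) m :=
      Integrable.of_bound hhm.aestronglyMeasurable 1
        (Filter.Eventually.of_forall fun p => by
          rw [Real.norm_eq_abs]
          exact hF _)
    have hai1 : ∀ j, Integrable (fun p : Z × T2 => |chi w j p.1 - bkI w j p.1|) m :=
      fun j => ((hci j).sub (hIi j)).abs
    have hai : Integrable (fun p : Z × T2 => ∑ j, |chi w j p.1 - bkI w j p.1|) m :=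
      integrable_finsetSum _ fun j _ => hai1 j
    have hdi : Integrable (fun p : Z × T2 => dfc w p.1) m := by
      have hd : Continuous fun p : Z × T2 => dfc w p.1 := (continuous_dfc w).comp continuous_fst
      obtain ⟨C, hC⟩ := (isCompact_range hd).isBounded.exists_norm_le
      exact Integrable.of_bound hd.measurable.aestronglyMeasurable C
        (Filter.Eventually.of_forall fun p => hC _ ⟨p, rfl⟩)
    -- the sum of the errors
    have hA : ∫ p, ∑ j, |chi w j p.1 - bkI w j p.1| ∂m ≤ 2 * ε := by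
      calc ∫ p, ∑ j, |chi w j p.1 - bkI w j p.1| ∂m ≤ ∫ p, 2 * dfc w p.1 ∂m :=
            integral_mono hai (hdi.const_mul 2) fun p => sum_abs_le w p.1
        _ = 2 * ∫ p, dfc w p.1 ∂m := integral_const_mul _ _
        _ ≤ 2 * ε := by
            have := H.part i
            rw [← hw] at this
            linarith
    have hone : |1 - ∑ j, ∫ p, chi w j p.1 ∂m| ≤ ε := by
      have := main_borel gZ W H i (fun _ => 1) measurable_const (fun _ => by simp)
      simpa [← hw] using this
    have hB : 1 - ∑ j, ∫ p, bkI w j p.1 ∂m ≤ 3 * ε := by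
      have h1 : ∑ j, ∫ p, chi w j p.1 ∂m - ∑ j, ∫ p, bkI w j p.1 ∂m ≤
          ∫ p, ∑ j, |chi w j p.1 - bkI w j p.1| ∂m := by
        rw [integral_finsetSum _ fun j _ => hai1 j, ← Finset.sum_sub_distrib]
        refine Finset.sum_le_sum fun j _ => ?_
        rw [← integral_sub (hci j) (hIi j)]
        exact (le_abs_self _).trans abs_integral_le_integral_abs
      have h2 := (abs_le.1 hone).2
      linarith
    have hC : |∑ j, ∫ p, chi w j p.1 * F (Φ j p) ∂m - ∫ p, F (bkh gZ w p.1, tau c i p.2) ∂m| ≤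
        2 * ε + 3 * ε := by
      rw [← integral_finsetSum _ fun j _ => hFΦi j,
        ← integral_sub (integrable_finsetSum _ fun j _ => hFΦi j) hhi]
      refine abs_integral_le_integral_abs.trans ?_
      have hIs : Integrable (fun p : Z × T2 => ∑ j, bkI w j p.1) m :=
        integrable_finsetSum _ fun j _ => hIi j
      calc ∫ p, |∑ j, chi w j p.1 * F (Φ j p) - F (bkh gZ w p.1, tau c i p.2)| ∂m
          ≤ ∫ p, (∑ j, |chi w j p.1 - bkI w j p.1| + (1 - ∑ j, bkI w j p.1)) ∂m := by
            refine integral_mono ?_ ?_ fun p => ?_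
            · exact ((integrable_finsetSum _ fun j _ => hFΦi j).sub hhi).abs
            · exact hai.add ((integrable_const _).sub hIs)
            · exact pointwise gZ w F hF p.1 (tau c i p.2)
        _ = ∫ p, ∑ j, |chi w j p.1 - bkI w j p.1| ∂m + (1 - ∑ j, ∫ p, bkI w j p.1 ∂m) := by
            have hs1 : Integrable (fun p : Z × T2 => 1 - ∑ j, bkI w j p.1) m :=
              (integrable_const _).sub hIs
            rw [integral_add hai hs1, integral_sub (integrable_const _) hIs,
              integral_finsetSum _ fun j _ => hIi j]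
            simp
        _ ≤ 2 * ε + 3 * ε := add_le_add hA hB
    have hD := main_borel gZ W H i F hFm hF
    rw [← hw] at hD
    change |∫ p, F p ∂m - ∑ j, ∫ p, chi w j p.1 * F (Φ j p) ∂m| ≤ ε at hD
    have e1 := abs_le.1 hC
    have e2 := abs_le.1 hD
    change |∫ p, F p ∂m - ∫ p, F (bkh gZ w p.1, tau c i p.2) ∂m| ≤ 6 * ε
    rw [abs_le]
    constructor <;> linarith [e1.1, e1.2, e2.1, e2.2]
  · refine ⟨∑ l, ‖W.ψ l‖, fun l z => ?_⟩
    exact ((W.ψ l).norm_coe_le_norm z).trans
      (Finset.single_le_sum (f := fun l => ‖W.ψ l‖) (fun _ _ => norm_nonneg _) (Finset.mem_univ l))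
  · have := H.psi l
    linarith
  · have h1 : IsFiniteMeasure ((m.map Prod.fst).map (gZ j)) := inferInstance
    have h2 : IsFiniteMeasure (m.map (Prod.fst : Z × T2 → Z)) := inferInstance
    refine ext_of_forall_integral_eq_of_IsFiniteMeasure fun f => ?_
    have hfm : Measurable f := f.continuous.measurable
    have hgm : Measurable fun z => f (gZ j z) := hfm.comp (gZ j).continuous.measurable
    rw [integral_map (gZ j).continuous.measurable.aemeasurable hfm.aestronglyMeasurable,
      integral_map measurable_fst.aemeasurable hgm.aestronglyMeasurable,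
      integral_map measurable_fst.aemeasurable hfm.aestronglyMeasurable]
    exact H.inv j f.toContinuousMap

end Pool.CAR
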