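import Pool.Agent.CAR.Defs

/-!
# CAR module Burger: almost invariant measures on the torus concentrated near `0`

PAPER PROOF. Let `r : UnitAddCircle → ℝ` be the representative in `(-1/2, 1/2]`
(`AddCircle.equivIoc 1 (-1/2)`, measurable: `AddCircle.measurableEquivIoc`), `p = r x.1`,
`q = r x.2`. As `|exp(2πi p) - 1| = 2 |sin πp| ≥ 4|p|` for `|p| ≤ 1/2`, the condition
`‖ee l x - 1‖ < 1/2` implies `|p| < 1/8` resp. `|q| < 1/8`. Put `V' = {|p| < 1/8, |q| < 1/8}`,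
`V = {|p| < 1/4, |q| < 1/4}`; so `ν(V'ᶜ) ≤ θ`. Four disjoint sectors covering `{(p,q) ≠ 0}`:
`I: 0 ≤ q < p or p < q ≤ 0`, `II: 0 < p ≤ q or q ≤ p < 0`,
`III: 0 ≤ -p < q or q < -p ≤ 0`, `IV: 0 < q ≤ -p or -p ≤ q < 0`.
For `x ∈ V'` all the following maps act on `(p,q)` by the linear formulas and land in `V`
(no wrap around: `r (x+y) = r x + r y` if `|r x + r y| < 1/2`):
`a(p,q) = (p+q,q)` maps `I ∪ II` into `I`; `b(p,q) = (p,p+q)` maps `I ∪ II` into `II`;
`a⁻¹(p,q) = (p-q,q)` maps `III ∪ IV` into `IV`; `b⁻¹(p,q) = (p,q-p)` maps `III ∪ IV` into `III`.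
So `ν((I∪II)∩V') ≤ ν(a⁻¹(I∩V)) ≤ ν(I∩V) + η ≤ ν(I∩V') + ν(V'ᶜ) + η`, hence `ν(II∩V') ≤ η + θ`, and
similarly for the other three (for `a⁻¹`: apply `h0` to `S = a(I')`, the image/preimage under the
inverse). Therefore `ν(V' \ {0}) ≤ 4(η+θ)` and `ν({0}) ≥ 1 - θ - 4(η+θ)`.
-/

open MeasureTheory Topology

namespace Pool.CAR

namespace Burg

/-- The representative in `(-1/2, 1/2]`. -/
noncomputable def r (s : UnitAddCircle) : ℝ := (AddCircle.equivIoc (1 : ℝ) (-(1 / 2)) s : ℝ)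

lemma r_mem (s : UnitAddCircle) : -(1 / 2) < r s ∧ r s ≤ 1 / 2 := by
  have h := (AddCircle.equivIoc (1 : ℝ) (-(1 / 2)) s).2
  rw [Set.mem_Ioc] at h
  refine ⟨h.1, ?_⟩
  have h2 := h.2
  unfold r
  linarith

lemma coe_r (s : UnitAddCircle) : ((r s : ℝ) : UnitAddCircle) = s :=
  AddCircle.coe_equivIoc

lemma r_coe {t : ℝ} (h1 : -(1 / 2) < t) (h2 : t ≤ 1 / 2) : r (t : UnitAddCircle) = t := by
  unfold r
  exact AddCircle.equivIoc_coe_of_mem ⟨h1, by linarith⟩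

lemma measurable_r : Measurable r :=
  measurable_subtype_coe.comp (AddCircle.measurableEquivIoc (1 : ℝ) (-(1 / 2))).measurable

lemma r_add {x y : UnitAddCircle} (h1 : -(1 / 2) < r x + r y) (h2 : r x + r y ≤ 1 / 2) :
    r (x + y) = r x + r y := by
  have h : x + y = ((r x + r y : ℝ) : UnitAddCircle) := by
    rw [AddCircle.coe_add, coe_r, coe_r]
  rw [h]
  exact r_coe h1 h2

lemma r_sub {x y : UnitAddCircle} (h1 : -(1 / 2) < r x - r y) (h2 : r x - r y ≤ 1 / 2) :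
    r (x - y) = r x - r y := by
  have h : x - y = ((r x - r y : ℝ) : UnitAddCircle) := by
    rw [AddCircle.coe_sub, coe_r, coe_r]
  rw [h]
  exact r_coe h1 h2

lemma r_zero : r 0 = 0 := by
  have := r_coe (t := 0) (by norm_num) (by norm_num)
  rwa [AddCircle.coe_zero] at this

lemma r_eq_zero {x : UnitAddCircle} (h : r x = 0) : x = 0 := by
  rw [← coe_r x, h, AddCircle.coe_zero]

lemma abs_r_lt {x : UnitAddCircle} (h : ‖(x.toCircle : ℂ) - 1‖ < 1 / 2) : |r x| < 1 / 8 := by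
  obtain ⟨h1, h2⟩ := r_mem x
  have hx : (x.toCircle : ℂ) = Complex.exp (Complex.I * ((2 * Real.pi * r x : ℝ) : ℂ)) := by
    conv_lhs => rw [← coe_r x]
    rw [AddCircle.toCircle_apply_mk, Circle.coe_exp, div_one]
    congr 1
    push_cast
    ring
  rw [hx, Complex.norm_exp_I_mul_ofReal_sub_one] at h
  have h3 : 2 * Real.pi * r x / 2 = Real.pi * r x := by ring
  rw [h3, Real.norm_eq_abs, abs_mul, abs_of_pos (by norm_num : (0 : ℝ) < 2)] at h
  have hpi := Real.pi_pos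
  have h4 : |Real.pi * r x| ≤ Real.pi / 2 := by
    rw [abs_mul, abs_of_pos hpi]
    have : |r x| ≤ 1 / 2 := abs_le.2 ⟨h1.le, h2⟩
    nlinarith
  have h5 := Real.mul_abs_le_abs_sin h4
  rw [abs_mul, abs_of_pos hpi, ← mul_assoc, div_mul_cancel₀ _ hpi.ne'] at h5
  linarith

/-- The four sectors. -/
def I1 : Set T2 := {x | (0 ≤ r x.2 ∧ r x.2 < r x.1) ∨ (r x.1 < r x.2 ∧ r x.2 ≤ 0)}

/-- The four sectors. -/
def I2 : Set T2 := {x | (0 < r x.1 ∧ r x.1 ≤ r x.2) ∨ (r x.2 ≤ r x.1 ∧ r x.1 < 0)}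

/-- The four sectors. -/
def I3 : Set T2 := {x | (0 ≤ -r x.1 ∧ -r x.1 < r x.2) ∨ (r x.2 < -r x.1 ∧ -r x.1 ≤ 0)}

/-- The four sectors. -/
def I4 : Set T2 := {x | (0 < r x.2 ∧ r x.2 ≤ -r x.1) ∨ (-r x.1 ≤ r x.2 ∧ r x.2 < 0)}

/-- The small neighbourhood of zero. -/
def V : Set T2 := {x | |r x.1| < 1 / 8 ∧ |r x.2| < 1 / 8}

lemma mI1 : MeasurableSet I1 := by
  have h1 : Measurable fun x : T2 => r x.1 := measurable_r.comp measurable_fst
  have h2 : Measurable fun x : T2 => r x.2 := measurable_r.comp measurable_snd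
  exact ((measurableSet_le measurable_const h2).inter (measurableSet_lt h2 h1)).union
    ((measurableSet_lt h1 h2).inter (measurableSet_le h2 measurable_const))

lemma mI2 : MeasurableSet I2 := by
  have h1 : Measurable fun x : T2 => r x.1 := measurable_r.comp measurable_fst
  have h2 : Measurable fun x : T2 => r x.2 := measurable_r.comp measurable_snd
  exact ((measurableSet_lt measurable_const h1).inter (measurableSet_le h1 h2)).union
    ((measurableSet_le h2 h1).inter (measurableSet_lt h1 measurable_const))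

lemma mI3 : MeasurableSet I3 := by
  have h1 : Measurable fun x : T2 => r x.1 := measurable_r.comp measurable_fst
  have h2 : Measurable fun x : T2 => r x.2 := measurable_r.comp measurable_snd
  exact ((measurableSet_le measurable_const h1.neg).inter (measurableSet_lt h1.neg h2)).union
    ((measurableSet_lt h2 h1.neg).inter (measurableSet_le h1.neg measurable_const))

lemma mI4 : MeasurableSet I4 := by
  have h1 : Measurable fun x : T2 => r x.1 := measurable_r.comp measurable_fst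
  have h2 : Measurable fun x : T2 => r x.2 := measurable_r.comp measurable_snd
  exact ((measurableSet_lt measurable_const h2).inter (measurableSet_le h2 h1.neg)).union
    ((measurableSet_le h1.neg h2).inter (measurableSet_lt h2 measurable_const))

lemma mV : MeasurableSet V := by
  have h1 : Measurable fun x : T2 => |r x.1| := (measurable_r.comp measurable_fst).abs
  have h2 : Measurable fun x : T2 => |r x.2| := (measurable_r.comp measurable_snd).abs
  exact (measurableSet_lt h1 measurable_const).inter (measurableSet_lt h2 measurable_const)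

/-- The basic step. -/
lemma step (ν : Measure T2) [IsProbabilityMeasure ν] {η θ : ℝ} {S S' P : Set T2}
    (hS' : MeasurableSet S')
    (hd : Disjoint S S') (hsub : V ∩ (S ∪ S') ⊆ P) (hP : ν.real P ≤ ν.real S + η)
    (hV : ν.real Vᶜ ≤ θ) : ν.real (V ∩ S') ≤ η + θ := by
  have h1 : ν.real (V ∩ (S ∪ S')) = ν.real (V ∩ S) + ν.real (V ∩ S') := by
    rw [Set.inter_union_distrib_left]
    exact measureReal_union (hd.mono Set.inter_subset_right Set.inter_subset_right)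
      (mV.inter hS')
  have h2 : ν.real S ≤ ν.real (V ∩ S) + ν.real Vᶜ := by
    calc ν.real S ≤ ν.real ((V ∩ S) ∪ Vᶜ) := by
          apply measureReal_mono _ (measure_ne_top _ _)
          intro x hx
          by_cases hxV : x ∈ V
          · exact Or.inl ⟨hxV, hx⟩
          · exact Or.inr hxV
      _ ≤ ν.real (V ∩ S) + ν.real Vᶜ := measureReal_union_le _ _
  have h3 : ν.real (V ∩ (S ∪ S')) ≤ ν.real P := measureReal_mono hsub (measure_ne_top _ _)
  linarith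

lemma d12 : Disjoint I1 I2 := by
  rw [Set.disjoint_left]
  rintro x (⟨h1, h2⟩ | ⟨h1, h2⟩) (⟨h3, h4⟩ | ⟨h3, h4⟩) <;> linarith

lemma d34 : Disjoint I3 I4 := by
  rw [Set.disjoint_left]
  rintro x (⟨h1, h2⟩ | ⟨h1, h2⟩) (⟨h3, h4⟩ | ⟨h3, h4⟩) <;> linarith

lemma cases12 {x : T2} (h : x ∈ I1 ∪ I2) :
    (0 < r x.1 ∧ 0 ≤ r x.2) ∨ (r x.1 < 0 ∧ r x.2 ≤ 0) := by
  rcases h with (⟨h1, h2⟩ | ⟨h1, h2⟩) | (⟨h3, h4⟩ | ⟨h3, h4⟩)
  · left; constructor <;> linarith
  · right; constructor <;> linarith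
  · left; constructor <;> linarith
  · right; constructor <;> linarith

lemma cases34 {x : T2} (h : x ∈ I3 ∪ I4) :
    (r x.1 ≤ 0 ∧ 0 < r x.2) ∨ (0 ≤ r x.1 ∧ r x.2 < 0) := by
  rcases h with (⟨h1, h2⟩ | ⟨h1, h2⟩) | (⟨h3, h4⟩ | ⟨h3, h4⟩)
  · left; constructor <;> linarith
  · right; constructor <;> linarith
  · left; constructor <;> linarith
  · right; constructor <;> linarith

lemma subA : V ∩ (I1 ∪ I2) ⊆ hA ⁻¹' I1 := by
  rintro x ⟨hxV, hx⟩
  obtain ⟨v1, v2⟩ := hxV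
  rw [abs_lt] at v1 v2
  have hr : r (x.1 + x.2) = r x.1 + r x.2 := r_add (by linarith) (by linarith)
  show (0 ≤ r x.2 ∧ r x.2 < r (x.1 + x.2)) ∨ (r (x.1 + x.2) < r x.2 ∧ r x.2 ≤ 0)
  rw [hr]
  rcases cases12 hx with ⟨h1, h2⟩ | ⟨h1, h2⟩
  · left; constructor <;> linarith
  · right; constructor <;> linarith

lemma subB : V ∩ (I2 ∪ I1) ⊆ hB ⁻¹' I2 := by
  rintro x ⟨hxV, hx⟩
  obtain ⟨v1, v2⟩ := hxV
  rw [abs_lt] at v1 v2
  rw [Set.union_comm] at hx
  have hr : r (x.1 + x.2) = r x.1 + r x.2 := r_add (by linarith) (by linarith)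
  show (0 < r x.1 ∧ r x.1 ≤ r (x.1 + x.2)) ∨ (r (x.1 + x.2) ≤ r x.1 ∧ r x.1 < 0)
  rw [hr]
  rcases cases12 hx with ⟨h1, h2⟩ | ⟨h1, h2⟩
  · left; constructor <;> linarith
  · right; constructor <;> linarith

lemma subA' : V ∩ (I4 ∪ I3) ⊆ hA.symm ⁻¹' I4 := by
  rintro x ⟨hxV, hx⟩
  obtain ⟨v1, v2⟩ := hxV
  rw [abs_lt] at v1 v2
  rw [Set.union_comm] at hx
  have hr : r (x.1 - x.2) = r x.1 - r x.2 := r_sub (by linarith) (by linarith)
  show (0 < r x.2 ∧ r x.2 ≤ -r (x.1 - x.2)) ∨ (-r (x.1 - x.2) ≤ r x.2 ∧ r x.2 < 0)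
  rw [hr]
  rcases cases34 hx with ⟨h1, h2⟩ | ⟨h1, h2⟩
  · left; constructor <;> linarith
  · right; constructor <;> linarith

lemma subB' : V ∩ (I3 ∪ I4) ⊆ hB.symm ⁻¹' I3 := by
  rintro x ⟨hxV, hx⟩
  obtain ⟨v1, v2⟩ := hxV
  rw [abs_lt] at v1 v2
  have hr : r (x.2 - x.1) = r x.2 - r x.1 := r_sub (by linarith) (by linarith)
  show (0 ≤ -r x.1 ∧ -r x.1 < r (x.2 - x.1)) ∨ (r (x.2 - x.1) < -r x.1 ∧ -r x.1 ≤ 0)
  rw [hr]
  rcases cases34 hx with ⟨h1, h2⟩ | ⟨h1, h2⟩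
  · left; constructor <;> linarith
  · right; constructor <;> linarith

lemma cover : V ⊆ {0} ∪ ((V ∩ I1 ∪ V ∩ I2) ∪ (V ∩ I3 ∪ V ∩ I4)) := by
  intro x hx
  rcases lt_trichotomy (r x.1) 0 with h1 | h1 | h1
  · rcases lt_trichotomy (r x.2) 0 with h2 | h2 | h2
    · right; left
      rcases lt_or_ge (r x.1) (r x.2) with h3 | h3
      · exact Or.inl ⟨hx, Or.inr ⟨h3, h2.le⟩⟩
      · exact Or.inr ⟨hx, Or.inr ⟨h3, h1⟩⟩
    · right; left
      exact Or.inl ⟨hx, Or.inr ⟨by rw [h2]; exact h1, h2.le⟩⟩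
    · right; right
      rcases lt_or_ge (-r x.1) (r x.2) with h3 | h3
      · exact Or.inl ⟨hx, Or.inl ⟨by linarith, h3⟩⟩
      · exact Or.inr ⟨hx, Or.inl ⟨h2, h3⟩⟩
  · rcases lt_trichotomy (r x.2) 0 with h2 | h2 | h2
    · right; right
      exact Or.inl ⟨hx, Or.inr ⟨by rw [h1]; simpa using h2, by rw [h1]; simp⟩⟩
    · left
      rw [Set.mem_singleton_iff]
      exact Prod.ext (r_eq_zero h1) (r_eq_zero h2)
    · right; right
      exact Or.inl ⟨hx, Or.inl ⟨by rw [h1]; simp, by rw [h1]; simpa using h2⟩⟩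
  · rcases lt_trichotomy (r x.2) 0 with h2 | h2 | h2
    · right; right
      rcases lt_or_ge (r x.2) (-r x.1) with h3 | h3
      · exact Or.inl ⟨hx, Or.inr ⟨h3, by linarith⟩⟩
      · exact Or.inr ⟨hx, Or.inr ⟨h3, h2⟩⟩
    · right; left
      exact Or.inl ⟨hx, Or.inl ⟨h2.ge, by rw [h2]; exact h1⟩⟩
    · right; left
      rcases lt_or_ge (r x.2) (r x.1) with h3 | h3
      · exact Or.inl ⟨hx, Or.inl ⟨h2.le, h3⟩⟩
      · exact Or.inr ⟨hx, Or.inl ⟨h1, h3⟩⟩

lemma compl_V : Vᶜ ⊆ {x | 1 / 2 ≤ ‖ee 0 x - 1‖ ∨ 1 / 2 ≤ ‖ee 1 x - 1‖} := by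
  intro x hx
  by_contra hcon
  apply hx
  simp only [Set.mem_ofPred_eq, not_or, not_le] at hcon
  exact ⟨abs_r_lt hcon.1, abs_r_lt hcon.2⟩

end Burg

open Burg in
theorem burger (ν : Measure T2) [IsProbabilityMeasure ν] (η θ : ℝ)
    (h0 : ∀ S : Set T2, MeasurableSet S → |ν.real (hA ⁻¹' S) - ν.real S| ≤ η)
    (h1 : ∀ S : Set T2, MeasurableSet S → |ν.real (hB ⁻¹' S) - ν.real S| ≤ η)
    (hV : ν.real {x | 1 / 2 ≤ ‖ee 0 x - 1‖ ∨ 1 / 2 ≤ ‖ee 1 x - 1‖} ≤ θ) :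
    1 - (5 * θ + 4 * η) ≤ ν.real {0} := by
  have hVc : ν.real Vᶜ ≤ θ := (measureReal_mono compl_V (measure_ne_top _ _)).trans hV
  have e1 : ν.real (V ∩ I2) ≤ η + θ := by
    refine step ν mI2 d12 subA ?_ hVc
    have := (abs_le.1 (h0 I1 mI1)).2
    linarith
  have e2 : ν.real (V ∩ I1) ≤ η + θ := by
    refine step ν mI1 d12.symm subB ?_ hVc
    have := (abs_le.1 (h1 I2 mI2)).2
    linarith
  have e3 : ν.real (V ∩ I3) ≤ η + θ := by
    refine step ν mI3 d34.symm subA' ?_ hVc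
    have hm : MeasurableSet (hA.symm ⁻¹' I4) := hA.symm.measurable mI4
    have h2 := (abs_le.1 (h0 _ hm)).1
    have h3 : hA ⁻¹' (hA.symm ⁻¹' I4) = I4 := by
      ext x
      simp
    rw [h3] at h2
    linarith
  have e4 : ν.real (V ∩ I4) ≤ η + θ := by
    refine step ν mI4 d34 subB' ?_ hVc
    have hm : MeasurableSet (hB.symm ⁻¹' I3) := hB.symm.measurable mI3
    have h2 := (abs_le.1 (h1 _ hm)).1
    have h3 : hB ⁻¹' (hB.symm ⁻¹' I3) = I3 := by
      ext x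
      simp
    rw [h3] at h2
    linarith
  have e5 : ν.real V ≤ ν.real {0} + ((ν.real (V ∩ I1) + ν.real (V ∩ I2)) +
      (ν.real (V ∩ I3) + ν.real (V ∩ I4))) := by
    refine (measureReal_mono cover (measure_ne_top _ _)).trans ?_
    refine (measureReal_union_le _ _).trans ?_
    have g1 := measureReal_union_le (μ := ν) (V ∩ I1 ∪ V ∩ I2) (V ∩ I3 ∪ V ∩ I4)
    have g2 := measureReal_union_le (μ := ν) (V ∩ I1) (V ∩ I2)
    have g3 := measureReal_union_le (μ := ν) (V ∩ I3) (V ∩ I4)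
    linarith
  have e6 : ν.real V + ν.real Vᶜ = 1 := by
    rw [measureReal_add_measureReal_compl mV]
    simp
  linarith

end Pool.CAR
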