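import Pool.Agent.CAR.Defs

/-!
# CAR module Clo: closedness

PAPER PROOF. `K := Z × T2` is compact metrizable, `ProbabilityMeasure K` is compact
(`instCompactSpaceProbabilityMeasure` in Mathlib `MeasureTheory/Measure/Prokhorov`).
Basic lemma: if `G : UnitAddCircle × K → ℝ` is continuous then
`(c, m) ↦ ∫ p, G (c, p) ∂m` is continuous on `UnitAddCircle × ProbabilityMeasure K`: the map
`c ↦ G(c, ·) ∈ C(K, ℝ)` is continuous for the sup norm (`ContinuousMap.curry`), and
`|∫ G_c dm - ∫ G_{c0} dm0| ≤ ‖G_c - G_{c0}‖ + |∫ G_{c0} dm - ∫ G_{c0} dm0|`; the second term tends to `0` by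
the definition of the topology of `ProbabilityMeasure`
(`ProbabilityMeasure.continuous_iff_forall_continuous_integral` or
`ProbabilityMeasure.tendsto_iff_forall_integral_tendsto`). Hence each of the conditions of
`Adm gZ W ε c m` (for fixed `F`, `i`, `j`, `l`) is a closed condition in `(c, m)` (finite sums of
integrals of functions continuous in `(c, p)`, `continuous_tau`), so
`{(c, m) | Adm gZ W ε c m}` is closed in `UnitAddCircle × ProbabilityMeasure K`, and its projection
to the circle is closed (`IsClosedMap` of the projection along a compact space: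
`isClosedMap_fst_of_compactSpace`, or compactness of the image).
`isClosed_NW`: the same with `UnitAddCircle × UnitAddCircle × ProbabilityMeasure K`; the condition
`m.map Prod.fst = (dirac t).prod lam` is equivalent to
`∫ F(p.1) dm = ∫ F(t, v) dlam(v)` for all continuous `F : Z0 → ℝ` (finite Borel measures with the same
integrals of continuous functions are equal, `ext_of_forall_integral_eq_of_IsFiniteMeasure`), a
closed condition in `(t, m)`.
-/

open MeasureTheory Topology

namespace Pool.CAR

section joint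

variable {P K : Type} [TopologicalSpace P] [TopologicalSpace K] [CompactSpace K]
  [MeasurableSpace K] [BorelSpace K]

/-- The integral of a continuous function against a probability measure is jointly continuous. -/
theorem clo_joint : Continuous fun q : C(K, ℝ) × ProbabilityMeasure K =>
    ∫ p, q.1 p ∂(q.2 : Measure K) := by
  rw [continuous_iff_continuousAt]
  rintro ⟨f, m⟩
  have hint : ∀ (f : C(K, ℝ)) (m : ProbabilityMeasure K), Integrable f (m : Measure K) := by
    intro f m
    exact (BoundedContinuousFunction.integrable (m : Measure K)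
      (BoundedContinuousFunction.mkOfCompact f))
  have h1 : Filter.Tendsto (fun q : C(K, ℝ) × ProbabilityMeasure K =>
      ∫ p, f p ∂(q.2 : Measure K)) (𝓝 (f, m)) (𝓝 (∫ p, f p ∂(m : Measure K))) := by
    have h2 : Filter.Tendsto (fun q : C(K, ℝ) × ProbabilityMeasure K => q.2) (𝓝 (f, m)) (𝓝 m) :=
      continuous_snd.tendsto (f, m)
    have h3 := (ProbabilityMeasure.tendsto_iff_forall_integral_tendsto.1 h2)
      (BoundedContinuousFunction.mkOfCompact f)
    exact h3
  have h4 : Filter.Tendsto (fun q : C(K, ℝ) × ProbabilityMeasure K => ‖q.1 - f‖)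
      (𝓝 (f, m)) (𝓝 0) := by
    have h5 : Continuous fun q : C(K, ℝ) × ProbabilityMeasure K => ‖q.1 - f‖ := by fun_prop
    have h6 := h5.tendsto (f, m)
    simpa using h6
  have h7 : Filter.Tendsto (fun q : C(K, ℝ) × ProbabilityMeasure K =>
      ∫ p, q.1 p ∂(q.2 : Measure K) - ∫ p, f p ∂(q.2 : Measure K)) (𝓝 (f, m)) (𝓝 0) := by
    refine squeeze_zero_norm (fun q => ?_) h4
    rw [← integral_sub (hint _ _) (hint _ _)]
    have h8 : ∀ p, ‖q.1 p - f p‖ ≤ ‖q.1 - f‖ := fun p => (q.1 - f).norm_coe_le_norm p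
    have h9 := norm_integral_le_of_norm_le_const (μ := (q.2 : Measure K))
      (Filter.Eventually.of_forall h8)
    simpa using h9
  have h10 := h7.add h1
  simp only [sub_add_cancel, zero_add] at h10
  exact h10

theorem clo_param {G : P × K → ℝ} (hG : Continuous G) :
    Continuous fun q : P × ProbabilityMeasure K => ∫ p, G (q.1, p) ∂(q.2 : Measure K) := by
  have h1 : Continuous fun c : P => (ContinuousMap.curry ⟨G, hG⟩) c :=
    (ContinuousMap.curry ⟨G, hG⟩).continuous
  have h2 : Continuous fun q : P × ProbabilityMeasure K =>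
      (((ContinuousMap.curry ⟨G, hG⟩) q.1, q.2) : C(K, ℝ) × ProbabilityMeasure K) :=
    (h1.comp continuous_fst).prodMk continuous_snd
  exact clo_joint.comp h2

theorem clo_const {G : K → ℝ} (hG : Continuous G) :
    Continuous fun q : P × ProbabilityMeasure K => ∫ p, G p ∂(q.2 : Measure K) :=
  clo_param (G := fun r : P × K => G r.2) (hG.comp continuous_snd)

end joint

variable {ι Z : Type} [TopologicalSpace Z] [CompactSpace Z] [TopologicalSpace.MetrizableSpace Z]
  [MeasurableSpace Z] [BorelSpace Z]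

omit [CompactSpace Z] [TopologicalSpace.MetrizableSpace Z] [MeasurableSpace Z] [BorelSpace Z] in
theorem clo_chi (w : One ι Z) (j : Fin w.n) : Continuous (chi w j) := by
  unfold chi
  fun_prop

omit [CompactSpace Z] [TopologicalSpace.MetrizableSpace Z] [MeasurableSpace Z] [BorelSpace Z] in
theorem clo_dfc (w : One ι Z) : Continuous (dfc w) := by
  unfold dfc
  have h := fun j => clo_chi w j
  refine Continuous.add ?_ ?_
  · exact continuous_finsetSum _ (fun j _ => (h j).mul (continuous_const.sub (h j)))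
  · refine continuous_finsetSum _ (fun j _ => continuous_finsetSum _ (fun k _ => ?_))
    by_cases hjk : j = k
    · simp only [hjk, if_true]
      exact continuous_const
    · simp only [hjk, if_false]
      exact (h j).mul (h k)

theorem clo_ee (l : Fin 2) : Continuous (ee l) := by
  fin_cases l
  · change Continuous fun x : T2 => (x.1.toCircle : ℂ)
    exact continuous_subtype_val.comp (AddCircle.continuous_toCircle.comp continuous_fst)
  · change Continuous fun x : T2 => (x.2.toCircle : ℂ)
    exact continuous_subtype_val.comp (AddCircle.continuous_toCircle.comp continuous_snd)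

/-- The set of the pairs `(c, m)` is closed. -/
theorem clo_Adm (gZ : ι → (Z ≃ₜ Z)) (W : Dat ι Z) (ε : ℝ) :
    IsClosed {q : UnitAddCircle × ProbabilityMeasure (Z × T2) |
      Adm gZ W ε q.1 (q.2 : Measure (Z × T2))} := by
  have hset : {q : UnitAddCircle × ProbabilityMeasure (Z × T2) |
      Adm gZ W ε q.1 (q.2 : Measure (Z × T2))} =
      (⋂ i : Fin 3, ⋂ F : C(Z × T2, ℝ), ⋂ _ : ∀ p, |F p| ≤ 1,
        {q : UnitAddCircle × ProbabilityMeasure (Z × T2) |
          |∫ p, F p ∂(q.2 : Measure (Z × T2)) - ∑ j, ∫ p, chi (W.l i) j p.1 *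
            F (gZ ((W.l i).g j) p.1, tau q.1 i p.2) ∂(q.2 : Measure (Z × T2))| ≤ ε}) ∩
      (⋂ i : Fin 3, {q : UnitAddCircle × ProbabilityMeasure (Z × T2) |
          ∫ p, dfc (W.l i) p.1 ∂(q.2 : Measure (Z × T2)) ≤ ε}) ∩
      (⋂ l : Fin 2, {q : UnitAddCircle × ProbabilityMeasure (Z × T2) |
          ∫ p, ‖W.ψ l p.1 - ee l p.2‖ ∂(q.2 : Measure (Z × T2)) ≤ ε}) ∩
      (⋂ j : ι, ⋂ F : C(Z, ℝ), {q : UnitAddCircle × ProbabilityMeasure (Z × T2) |
          ∫ p, F (gZ j p.1) ∂(q.2 : Measure (Z × T2)) =
            ∫ p, F p.1 ∂(q.2 : Measure (Z × T2))}) := by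
    ext q
    simp only [Set.mem_ofPred_eq, Set.mem_inter_iff, Set.mem_iInter]
    constructor
    · intro h
      exact ⟨⟨⟨h.main, h.part⟩, h.psi⟩, h.inv⟩
    · rintro ⟨⟨⟨h1, h2⟩, h3⟩, h4⟩
      exact ⟨h1, h2, h3, h4⟩
  rw [hset]
  refine IsClosed.inter (IsClosed.inter (IsClosed.inter ?_ ?_) ?_) ?_
  · refine isClosed_iInter fun i => isClosed_iInter fun F => isClosed_iInter fun _ => ?_
    refine isClosed_le (Continuous.abs ?_) continuous_const
    refine (clo_const F.continuous).sub (continuous_finsetSum _ fun j _ => ?_)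
    refine clo_param (G := fun r : UnitAddCircle × (Z × T2) => chi (W.l i) j r.2.1 *
      F (gZ ((W.l i).g j) r.2.1, tau r.1 i r.2.2)) ?_
    refine ((clo_chi (W.l i) j).comp (continuous_fst.comp continuous_snd)).mul ?_
    refine F.continuous.comp (Continuous.prodMk ?_ ?_)
    · exact (gZ ((W.l i).g j)).continuous.comp (continuous_fst.comp continuous_snd)
    · exact (continuous_tau i).comp (continuous_fst.prodMk (continuous_snd.comp continuous_snd))
  · refine isClosed_iInter fun i => isClosed_le (clo_const ?_) continuous_const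
    exact (clo_dfc (W.l i)).comp continuous_fst
  · refine isClosed_iInter fun l => isClosed_le (clo_const ?_) continuous_const
    exact (((W.ψ l).continuous.comp continuous_fst).sub
      ((clo_ee l).comp continuous_snd)).norm
  · refine isClosed_iInter fun j => isClosed_iInter fun F => isClosed_eq (clo_const ?_)
      (clo_const ?_)
    · exact F.continuous.comp ((gZ j).continuous.comp continuous_fst)
    · exact F.continuous.comp continuous_fst

theorem isClosed_CW (gZ : ι → (Z ≃ₜ Z)) (W : Dat ι Z) (ε : ℝ) :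
    IsClosed {c : UnitAddCircle |
      ∃ m : Measure (Z × T2), IsProbabilityMeasure m ∧ Adm gZ W ε c m} := by
  have h : {c : UnitAddCircle |
      ∃ m : Measure (Z × T2), IsProbabilityMeasure m ∧ Adm gZ W ε c m} =
      Prod.fst '' {q : UnitAddCircle × ProbabilityMeasure (Z × T2) |
        Adm gZ W ε q.1 (q.2 : Measure (Z × T2))} := by
    ext c
    constructor
    · rintro ⟨m, hm, hA⟩
      exact ⟨(c, ⟨m, hm⟩), hA, rfl⟩
    · rintro ⟨⟨c', m⟩, hA, rfl⟩
      exact ⟨m.1, m.2, hA⟩
  rw [h]
  exact isClosedMap_fst_of_compactSpace _ (clo_Adm gZ W ε)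

local instance : BorelSpace Z0 := Prod.borelSpace

local instance : BorelSpace (Z0 × T2) := Prod.borelSpace

theorem clo_compact {E : Type*} [MeasurableSpace E] [TopologicalSpace E] [T2Space E]
    [BorelSpace E] [CompactSpace E] : CompactSpace (ProbabilityMeasure E) := inferInstance

theorem clo_map_iff (t : UnitAddCircle) (m : Measure (Z0 × T2)) [IsProbabilityMeasure m] :
    m.map Prod.fst = (Measure.dirac t).prod lam ↔
      ∀ F : C(Z0, ℝ), ∫ p, F p.1 ∂m = ∫ v, F (t, v) ∂lam := by
  have hprod : (Measure.dirac t).prod lam = lam.map (Prod.mk t) := Measure.dirac_prod t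
  have h1 : ∀ F : C(Z0, ℝ), ∫ z, F z ∂(m.map Prod.fst) = ∫ p, F p.1 ∂m := by
    intro F
    exact integral_map measurable_fst.aemeasurable F.continuous.aestronglyMeasurable
  have h2 : ∀ F : C(Z0, ℝ), ∫ z, F z ∂(lam.map (Prod.mk t)) = ∫ v, F (t, v) ∂lam := by
    intro F
    exact integral_map (measurable_prodMk_left).aemeasurable
      F.continuous.aestronglyMeasurable
  rw [hprod]
  constructor
  · intro h F
    rw [← h1, ← h2, h]
  · intro h
    have : IsProbabilityMeasure (m.map (Prod.fst : Z0 × T2 → Z0)) :=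
      Measure.isProbabilityMeasure_map measurable_fst.aemeasurable
    have : IsProbabilityMeasure (lam.map (Prod.mk t)) :=
      Measure.isProbabilityMeasure_map measurable_prodMk_left.aemeasurable
    apply ext_of_forall_integral_eq_of_IsFiniteMeasure
    intro f
    have h3 := h f.toContinuousMap
    rw [← h1, ← h2] at h3
    exact h3

theorem isClosed_NW (W : Dat (FreeGroup (Fin 3)) Z0) (ε : ℝ) : IsClosed (NW W ε) := by
  have h : NW W ε =
      Prod.fst '' {q : (UnitAddCircle × UnitAddCircle) × ProbabilityMeasure (Z0 × T2) |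
        Adm act W ε q.1.1 (q.2 : Measure (Z0 × T2)) ∧
        ∀ F : C(Z0, ℝ), ∫ p, F p.1 ∂(q.2 : Measure (Z0 × T2)) = ∫ v, F (q.1.2, v) ∂lam} := by
    ext c
    constructor
    · rintro ⟨m, hm, hA, hm2⟩
      exact ⟨(c, ⟨m, hm⟩), ⟨hA, (clo_map_iff c.2 m).1 hm2⟩, rfl⟩
    · rintro ⟨⟨c', m⟩, ⟨hA, hm2⟩, rfl⟩
      have := m.2
      exact ⟨m.1, m.2, hA, (clo_map_iff _ _).2 hm2⟩
  rw [h]
  have : CompactSpace (ProbabilityMeasure (Z0 × T2)) := clo_compact
  apply isClosedMap_fst_of_compactSpace
  refine IsClosed.inter ?_ ?_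
  · have h1 : Continuous fun q : (UnitAddCircle × UnitAddCircle) × ProbabilityMeasure (Z0 × T2) =>
        ((q.1.1, q.2) : UnitAddCircle × ProbabilityMeasure (Z0 × T2)) := by fun_prop
    exact (clo_Adm act W ε).preimage h1
  · have h2 : {q : (UnitAddCircle × UnitAddCircle) × ProbabilityMeasure (Z0 × T2) |
        ∀ F : C(Z0, ℝ), ∫ p, F p.1 ∂(q.2 : Measure (Z0 × T2)) = ∫ v, F (q.1.2, v) ∂lam} =
        ⋂ F : C(Z0, ℝ), {q : (UnitAddCircle × UnitAddCircle) × ProbabilityMeasure (Z0 × T2) |
          ∫ p, F p.1 ∂(q.2 : Measure (Z0 × T2)) = ∫ v, F (q.1.2, v) ∂lam} := by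
      ext q
      simp only [Set.mem_ofPred_eq, Set.mem_iInter]
    have h3 : IsClosed {q : (UnitAddCircle × UnitAddCircle) × ProbabilityMeasure (Z0 × T2) |
        ∀ F : C(Z0, ℝ), ∫ p, F p.1 ∂(q.2 : Measure (Z0 × T2)) = ∫ v, F (q.1.2, v) ∂lam} := by
      rw [h2]
      refine isClosed_iInter fun F => isClosed_eq (clo_const (F.continuous.comp continuous_fst)) ?_
      have h4 : Continuous fun r : UnitAddCircle × ProbabilityMeasure T2 =>
          ∫ v, F (r.1, v) ∂(r.2 : Measure T2) := clo_param (G := fun r => F r) F.continuous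
      have h5 : Continuous fun q : (UnitAddCircle × UnitAddCircle) ×
          ProbabilityMeasure (Z0 × T2) =>
          ((q.1.2, ⟨lam, inferInstance⟩) : UnitAddCircle × ProbabilityMeasure T2) := by fun_prop
      exact h4.comp h5
    exact h3

end Pool.CAR
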