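import Mathlib

/-!
# Compact action realizations (MP_dce269_lc): definitions

`S = UnitAddCircle` is the circle, `T2 = S × S` the torus, `Z0 = S × T2`. The maps
`a (x,y) = (x+y,y)`, `b (x,y) = (x,x+y)` and the translation by `(t,0)` generate, fibrewise over
`t ∈ S`, the relation `R0` on `Z0`.
-/

open MeasureTheory Topology

namespace Pool.CAR

/-- The torus. -/
abbrev T2 : Type := UnitAddCircle × UnitAddCircle

/-- The product of the circle and the torus. -/
abbrev Z0 : Type := UnitAddCircle × T2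

instance instSBZ0 : StandardBorelSpace Z0 := StandardBorelSpace.prod

instance instSBTT : StandardBorelSpace (T2 × T2) := StandardBorelSpace.prod

/-- Haar measure of the torus. -/
noncomputable def lam : Measure T2 :=
  (AddCircle.haarAddCircle (T := 1)).prod (AddCircle.haarAddCircle (T := 1))

instance : IsProbabilityMeasure lam := by unfold lam; infer_instance

instance : lam.IsAddHaarMeasure := by unfold lam; infer_instance

/-- `(x,y) ↦ (x+y,y)`. -/
def hA : T2 ≃ₜ T2 where
  toFun p := (p.1 + p.2, p.2)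
  invFun p := (p.1 - p.2, p.2)
  left_inv p := by simp
  right_inv p := by simp
  continuous_toFun := by fun_prop
  continuous_invFun := by fun_prop

/-- `(x,y) ↦ (x,x+y)`. -/
def hB : T2 ≃ₜ T2 where
  toFun p := (p.1, p.1 + p.2)
  invFun p := (p.1, p.2 - p.1)
  left_inv p := by simp
  right_inv p := by simp
  continuous_toFun := by fun_prop
  continuous_invFun := by fun_prop

/-- `(x,y) ↦ (x+c,y)`. -/
def hS (c : UnitAddCircle) : T2 ≃ₜ T2 where
  toFun p := (p.1 + c, p.2)
  invFun p := (p.1 - c, p.2)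
  left_inv p := by simp
  right_inv p := by simp
  continuous_toFun := by fun_prop
  continuous_invFun := by fun_prop

/-- The three generators at the parameter `c`. -/
def tau (c : UnitAddCircle) (i : Fin 3) : T2 ≃ₜ T2 := ![hA, hB, hS c] i

@[simp] theorem tau_zero (c : UnitAddCircle) (p : T2) : tau c 0 p = (p.1 + p.2, p.2) := rfl

@[simp] theorem tau_one (c : UnitAddCircle) (p : T2) : tau c 1 p = (p.1, p.1 + p.2) := rfl

@[simp] theorem tau_two (c : UnitAddCircle) (p : T2) : tau c 2 p = (p.1 + c, p.2) := rfl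

@[simp] theorem tau_symm_zero (c : UnitAddCircle) (p : T2) :
    (tau c 0).symm p = (p.1 - p.2, p.2) := rfl

@[simp] theorem tau_symm_one (c : UnitAddCircle) (p : T2) :
    (tau c 1).symm p = (p.1, p.2 - p.1) := rfl

@[simp] theorem tau_symm_two (c : UnitAddCircle) (p : T2) :
    (tau c 2).symm p = (p.1 - c, p.2) := rfl

theorem continuous_tau (i : Fin 3) :
    Continuous fun p : UnitAddCircle × T2 => tau p.1 i p.2 := by
  fin_cases i
  · change Continuous fun p : UnitAddCircle × T2 => (p.2.1 + p.2.2, p.2.2)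
    fun_prop
  · change Continuous fun p : UnitAddCircle × T2 => (p.2.1, p.2.1 + p.2.2)
    fun_prop
  · change Continuous fun p : UnitAddCircle × T2 => (p.2.1 + p.1, p.2.2)
    fun_prop

theorem continuous_tau_symm (i : Fin 3) :
    Continuous fun p : UnitAddCircle × T2 => (tau p.1 i).symm p.2 := by
  fin_cases i
  · change Continuous fun p : UnitAddCircle × T2 => (p.2.1 - p.2.2, p.2.2)
    fun_prop
  · change Continuous fun p : UnitAddCircle × T2 => (p.2.1, p.2.2 - p.2.1)
    fun_prop
  · change Continuous fun p : UnitAddCircle × T2 => (p.2.1 - p.1, p.2.2)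
    fun_prop

/-- The generators on `Z0`. -/
def sig (i : Fin 3) : Z0 ≃ₜ Z0 where
  toFun z := (z.1, tau z.1 i z.2)
  invFun z := (z.1, (tau z.1 i).symm z.2)
  left_inv z := by simp
  right_inv z := by simp
  continuous_toFun := continuous_fst.prodMk (continuous_tau i)
  continuous_invFun := continuous_fst.prodMk (continuous_tau_symm i)

/-- The action of the free group on `Z0`. -/
noncomputable def act : FreeGroup (Fin 3) →* (Z0 ≃ₜ Z0) := FreeGroup.lift sig

/-- The orbit equivalence relation on `Z0`. -/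
def R0 (z z' : Z0) : Prop := ∃ g : FreeGroup (Fin 3), act g z = z'

/-- The coordinate characters of the torus. -/
noncomputable def ee (l : Fin 2) (x : T2) : ℂ := ![(x.1.toCircle : ℂ), (x.2.toCircle : ℂ)] l

/-- Finite approximation data for one map: finitely many members of the family and continuous
functions. -/
structure One (ι Z : Type) [TopologicalSpace Z] where
  n : ℕ
  g : Fin n → ι
  δ : Fin n → C(Z, ℝ)

/-- Finite approximation data. -/
structure Dat (ι Z : Type) [TopologicalSpace Z] where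
  l : Fin 3 → One ι Z
  ψ : Fin 2 → C(Z, ℂ)

section
variable {ι Z : Type} [TopologicalSpace Z]

/-- The functions `δ` cut off to `[0,1]`. -/
noncomputable def chi (w : One ι Z) (j : Fin w.n) (z : Z) : ℝ := max 0 (min (w.δ j z) 1)

/-- The defect of the `chi w j` from being the indicator functions of disjoint sets. -/
noncomputable def dfc (w : One ι Z) (z : Z) : ℝ :=
  ∑ j, chi w j z * (1 - chi w j z) + ∑ j, ∑ k, if j = k then 0 else chi w j z * chi w k z

variable [MeasurableSpace Z]

/-- `m` is an almost invariant joining of the data `W` on `Z` with the action `tau c` on the torus;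
all conditions are closed conditions in `(c, m)`. -/
structure Adm (gZ : ι → (Z ≃ₜ Z)) (W : Dat ι Z) (ε : ℝ) (c : UnitAddCircle)
    (m : Measure (Z × T2)) : Prop where
  main : ∀ i : Fin 3, ∀ F : C(Z × T2, ℝ), (∀ p, |F p| ≤ 1) →
    |∫ p, F p ∂m - ∑ j, ∫ p, chi (W.l i) j p.1 * F (gZ ((W.l i).g j) p.1, tau c i p.2) ∂m| ≤ ε
  part : ∀ i : Fin 3, ∫ p, dfc (W.l i) p.1 ∂m ≤ ε
  psi : ∀ l : Fin 2, ∫ p, ‖W.ψ l p.1 - ee l p.2‖ ∂m ≤ ε
  inv : ∀ j : ι, ∀ F : C(Z, ℝ), ∫ p, F (gZ j p.1) ∂m = ∫ p, F p.1 ∂m

/-- `m` is an almost invariant joining of the Borel maps `h i` on `Z`, whose graphs are contained in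
the union of the graphs of the `gZ j`, with the action `tau c` on the torus. -/
structure Inn (gZ : ι → (Z ≃ₜ Z)) (h : Fin 3 → Z → Z) (ψ : Fin 2 → Z → ℂ) (ε : ℝ)
    (c : UnitAddCircle) (m : Measure (Z × T2)) : Prop where
  meas : ∀ i, Measurable (h i)
  inn : ∀ i z, ∃ j, h i z = gZ j z
  main : ∀ i, ∀ F : Z × T2 → ℝ, Measurable F → (∀ p, |F p| ≤ 1) →
    |∫ p, F p ∂m - ∫ p, F (h i p.1, tau c i p.2) ∂m| ≤ ε
  psim : ∀ l, Measurable (ψ l)
  psib : ∃ C : ℝ, ∀ l z, ‖ψ l z‖ ≤ C
  psi : ∀ l, ∫ p, ‖ψ l p.1 - ee l p.2‖ ∂m ≤ ε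
  inv : ∀ j, (m.map Prod.fst).map (gZ j) = m.map Prod.fst

end

/-- The pairs `(c, t)` such that the action at `c` has an approximate copy in the relation at `t`,
described by the data `W`. -/
def NW (W : Dat (FreeGroup (Fin 3)) Z0) (ε : ℝ) : Set (UnitAddCircle × UnitAddCircle) :=
  {p | ∃ m : Measure (Z0 × T2), IsProbabilityMeasure m ∧ Adm act W ε p.1 m ∧
    m.map Prod.fst = (Measure.dirac p.2).prod lam}

/-- A countable dense set of data. -/
def dats (ι Z : Type) [TopologicalSpace Z] [CompactSpace Z] [TopologicalSpace.MetrizableSpace Z] :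
    Set (Dat ι Z) :=
  {W | (∀ i j, (W.l i).δ j ∈ Set.range (TopologicalSpace.denseSeq C(Z, ℝ))) ∧
    ∀ l, W.ψ l ∈ Set.range (TopologicalSpace.denseSeq C(Z, ℂ))}

example : CompactSpace Z0 := inferInstance

example : TopologicalSpace.MetrizableSpace Z0 := inferInstance

/-- The equivalence relation of the counterexample. -/
def EE (T : Set UnitAddCircle) (U : Type) (RU : U → U → Prop) :
    ({z : Z0 // z.1 ∈ T} ⊕ (U × ℕ)) → ({z : Z0 // z.1 ∈ T} ⊕ (U × ℕ)) → Prop
  | Sum.inl z, Sum.inl z' => R0 z.1 z'.1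
  | Sum.inr p, Sum.inr q => RU p.1 q.1
  | Sum.inl _, Sum.inr _ => False
  | Sum.inr _, Sum.inl _ => False

end Pool.CAR
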