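import Pool.Agent.CAR.Haar

/-!
# CAR module Dis: disintegration over the circle

PAPER PROOF. Let `m₁` be the image of `m` under `((t,v),x) ↦ (t,(v,x))`, `κ = m₁.fst` (a probability
measure on the circle, `κ(Tᶜ) = 0`), `K = m₁.condKernel` (probability measures on `T2 × T2`),
`m₁ = κ ⊗ₘ K`. Put `m'_t = (K t).map ((v,x) ↦ ((t,v),x))`. We show that `κ`-almost all `t` satisfy (A) and
the set of `t ∈ T` satisfying (B), (C) has `κ`-measure `≥ 1/2`; any such `t` does it.
(A) `ρ_t := (K t).fst = lam` for almost all `t ∈ T`. Let `F_n` be dense in `C(T2, ℝ)`. By `H.inv` for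
`g = of 2` (`act_s`) and `g = of 1 * of 2 * (of 1)⁻¹ * (of 2)⁻¹` (`act_comm`) the first marginal of `m` on
`Z0` is invariant under `(t,v) ↦ (t, v + (t,0))` and `(t,v) ↦ (t, v + (0,t))`; so for each `n` and bounded
Borel `g(t)`: `∫ g(t) (∫ F_n(v + (t,0)) dρ_t - ∫ F_n dρ_t) dκ = 0`, hence the bracket vanishes a.e.
(take `g` = sign or indicator functions of the level sets; `ae_eq_zero`-type lemma). A countable
intersection, density of the `F_n` and `inv_eq_lam` give (A).
(B) For each `i`: the set `S_i` of all `t ∈ T` such that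
`∫ F dm'_t - ∫ F(h i z, tau c i x) dm'_t > 10 ε` for some continuous `F : Z0 × T2 → ℝ`, `|F| ≤ 1`, has
`κ(S_i) ≤ 1/10`: let `F_n` be dense in the unit ball of `C(Z0 × T2, ℝ)` (a countable family, e.g. the
`x ↦ max (-1) (min 1 (denseSeq n x))`), `f_n(t)` the above difference for `F_n` (Borel in `t`), `n(t)`
the first `n` with `f_n(t) > 10ε` (`t ∈ S_i`). Then `F((t,v),x) = 1_{S_i}(t) F_{n(t)}((t,v),x)` is Borel,
`|F| ≤ 1`, and by `H.main` (note `(h i (t,v)).1 = t` by `H.inn`, `act_fst`)
`10 ε κ(S_i) ≤ ∫_{S_i} f_{n(t)}(t) dκ = ∫ F dm - ∫ F(h i z, τx) dm ≤ ε`.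
Outside `S_i`: `|∫ F dm'_t - ∫ F(h i z, τ x) dm'_t| ≤ 10 ε` for all continuous `|F| ≤ 1` (apply it to `±F`),
hence for all Borel `|F| ≤ 1` (density in `L¹` of the sum of `m'_t` and its image under
`(z,x) ↦ (h i z, τ x)`).
(C) For each `l`: `κ{t : ∫ ‖ψ l z - ee l x‖ dm'_t > 10 ε} ≤ 1/10` (Markov).
`3/10 + 2/10 = 1/2 < 1`. The other conditions of `Inn`: `meas, inn, psim, psib` do not involve the
measure; `inv`: `m'_t.map Prod.fst = (dirac t).prod lam` is invariant by `act_measure`.
-/

open MeasureTheory Topology ProbabilityTheory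

namespace Pool.CAR

namespace DisAux

/-- A disintegration of `m` over `π`. -/
structure Fib {Ω β : Type} [MeasurableSpace Ω] [MeasurableSpace β] (π : Ω → β) (m : Measure Ω)
    (κ : Measure β) (M : β → Measure Ω) : Prop where
  prob : IsProbabilityMeasure κ
  probM : ∀ t, IsProbabilityMeasure (M t)
  conc : ∀ᵐ t ∂κ, ∀ᵐ p ∂(M t), π p = t
  meas : ∀ F : Ω → ℝ, Measurable F → Measurable (fun t => ∫ p, F p ∂(M t))
  int : ∀ F : Ω → ℝ, Measurable F → ∀ C : ℝ, (∀ p, |F p| ≤ C) →
    ∫ p, F p ∂m = ∫ t, ∫ p, F p ∂(M t) ∂κ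

theorem integrable_of_bdd {Ω : Type} [MeasurableSpace Ω] (m : Measure Ω) [IsFiniteMeasure m]
    (F : Ω → ℝ) (hF : Measurable F) (C : ℝ) (hC : ∀ p, |F p| ≤ C) : Integrable F m :=
  Integrable.of_bound hF.aestronglyMeasurable C (Filter.Eventually.of_forall hC)

theorem abs_integral_le {Ω : Type} [MeasurableSpace Ω] (m : Measure Ω) [IsProbabilityMeasure m]
    (F : Ω → ℝ) (C : ℝ) (hC : ∀ p, |F p| ≤ C) : |∫ p, F p ∂m| ≤ C := by
  have h := norm_integral_le_of_norm_le_const (μ := m) (f := F) (C := C)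
    (Filter.Eventually.of_forall hC)
  simpa using h

theorem exists_fib {Ω β : Type} [MeasurableSpace Ω] [StandardBorelSpace Ω] [Nonempty Ω]
    [MeasurableSpace β] [MeasurableEq β] (π : Ω → β) (hπ : Measurable π) (m : Measure Ω)
    [IsProbabilityMeasure m] : ∃ M : β → Measure Ω, Fib π m (m.map π) M := by
  have hk : (m.map π) ⊗ₘ ProbabilityTheory.condDistrib (id : Ω → Ω) π m =
      m.map fun a => (π a, id a) := ProbabilityTheory.compProd_map_condDistrib aemeasurable_id
  have hprob : IsProbabilityMeasure (m.map π) := Measure.isProbabilityMeasure_map hπ.aemeasurable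
  have hpm : Measurable (fun a : Ω => (π a, id a)) := hπ.prodMk measurable_id
  refine ⟨fun t => ProbabilityTheory.condDistrib id π m t, hprob, fun t => inferInstance,
    ?_, ?_, ?_⟩
  · have h1 : ∀ᵐ x ∂((m.map π) ⊗ₘ ProbabilityTheory.condDistrib id π m), π x.2 = x.1 := by
      rw [hk]
      have hms : MeasurableSet {x : β × Ω | π x.2 = x.1} :=
        measurableSet_eq_fun (hπ.comp measurable_snd) measurable_fst
      refine (ae_map_iff hpm.aemeasurable hms).2 ?_
      exact Filter.Eventually.of_forall (fun p => rfl)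
    exact Measure.ae_ae_of_ae_compProd h1
  · intro F hF
    exact (StronglyMeasurable.integral_kernel hF.stronglyMeasurable).measurable
  · intro F hF C hC
    have h2 : Integrable (fun x : β × Ω => F x.2)
        ((m.map π) ⊗ₘ ProbabilityTheory.condDistrib id π m) :=
      integrable_of_bdd _ _ (hF.comp measurable_snd) C (fun p => hC p.2)
    have h3 := Measure.integral_compProd h2
    have h4 : ∫ x : β × Ω, F x.2 ∂(m.map fun a => (π a, id a)) = ∫ p, F p ∂m :=
      integral_map (f := fun x : β × Ω => F x.2) hpm.aemeasurable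
        (hF.comp measurable_snd).aestronglyMeasurable
    rw [← h4, ← hk]
    exact h3

variable {Ω β : Type} [MeasurableSpace Ω] [MeasurableSpace β] {π : Ω → β} {m : Measure Ω}
    {κ : Measure β} {M : β → Measure Ω}

theorem Fib.ae_eq (H : Fib π m κ M) (hπ : Measurable π) (F : Ω → ℝ) (hF : Measurable F) (C : ℝ)
    (hC : ∀ p, |F p| ≤ C) (A : Set β) (hA : MeasurableSet A) :
    ∫ p, (π ⁻¹' A).indicator F p ∂m = ∫ t in A, ∫ p, F p ∂(M t) ∂κ := by
  have hC0 : ∀ p, |(π ⁻¹' A).indicator F p| ≤ C := by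
    intro p
    by_cases hp : p ∈ π ⁻¹' A
    · rw [Set.indicator_of_mem hp]
      exact hC p
    · rw [Set.indicator_of_notMem hp, abs_zero]
      exact le_trans (abs_nonneg _) (hC p)
  rw [H.int _ (hF.indicator (hπ hA)) C hC0, ← integral_indicator hA]
  refine integral_congr_ae ?_
  filter_upwards [H.conc] with t ht
  by_cases htA : t ∈ A
  · rw [Set.indicator_of_mem htA]
    refine integral_congr_ae ?_
    filter_upwards [ht] with p hp
    rw [Set.indicator_of_mem]
    rw [Set.mem_preimage, hp]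
    exact htA
  · rw [Set.indicator_of_notMem htA]
    refine integral_eq_zero_of_ae ?_
    filter_upwards [ht] with p hp
    rw [Set.indicator_of_notMem]
    · rfl
    · rw [Set.mem_preimage, hp]
      exact htA

theorem Fib.eq_of_forall (H : Fib π m κ M) (hπ : Measurable π) (F G : Ω → ℝ) (hF : Measurable F)
    (hG : Measurable G) (C : ℝ) (hC : ∀ p, |F p| ≤ C) (hD : ∀ p, |G p| ≤ C)
    (hFG : ∀ A : Set β, MeasurableSet A →
      ∫ p, (π ⁻¹' A).indicator F p ∂m = ∫ p, (π ⁻¹' A).indicator G p ∂m) :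
    ∀ᵐ t ∂κ, ∫ p, F p ∂(M t) = ∫ p, G p ∂(M t) := by
  have := H.prob
  have := H.probM
  refine Integrable.ae_eq_of_forall_setIntegral_eq (fun t => ∫ p, F p ∂(M t))
    (fun t => ∫ p, G p ∂(M t)) ?_ ?_ ?_
  · exact integrable_of_bdd κ _ (H.meas F hF) C (fun t => abs_integral_le _ F C hC)
  · exact integrable_of_bdd κ _ (H.meas G hG) C (fun t => abs_integral_le _ G C hD)
  · intro A hA _
    rw [← H.ae_eq hπ F hF C hC A hA, ← H.ae_eq hπ G hG C hD A hA]
    exact hFG A hA

/-- Markov. -/
theorem Fib.markov (H : Fib π m κ M) (F : Ω → ℝ) (hF : Measurable F) (C : ℝ)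
    (hC : ∀ p, |F p| ≤ C) (h0 : ∀ p, 0 ≤ F p) {ε : ℝ} (hε : 0 < ε) (h1 : ∫ p, F p ∂m ≤ ε) :
    κ.real {t | 10 * ε < ∫ p, F p ∂(M t)} ≤ 1 / 10 := by
  have := H.prob
  have := H.probM
  have h2 := mul_meas_ge_le_integral_of_nonneg (μ := κ) (f := fun t => ∫ p, F p ∂(M t))
    (Filter.Eventually.of_forall (fun t => integral_nonneg h0))
    (integrable_of_bdd κ _ (H.meas F hF) C (fun t => abs_integral_le _ F C hC)) (10 * ε)
  rw [← H.int F hF C hC] at h2
  have h3 : κ.real {t | 10 * ε < ∫ p, F p ∂(M t)} ≤ κ.real {t | 10 * ε ≤ ∫ p, F p ∂(M t)} := by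
    refine measureReal_mono ?_
    intro t ht
    exact le_of_lt (show 10 * ε < ∫ p, F p ∂(M t) from ht)
  have h4 : (10 * ε) * κ.real {t | 10 * ε ≤ ∫ p, F p ∂(M t)} ≤ (10 * ε) * (1 / 10) := by
    linarith
  have h5 := le_of_mul_le_mul_left h4 (by positivity)
  linarith

/-- The cut off to `[-1,1]`. -/
noncomputable def clip (x : ℝ) : ℝ := max (-1) (min 1 x)

theorem clip_abs (x : ℝ) : |clip x| ≤ 1 := by
  unfold clip
  rw [abs_le]
  constructor
  · exact le_max_left _ _
  · exact max_le (by norm_num) (min_le_left _ _)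

theorem clip_dist (a x : ℝ) (ha : |a| ≤ 1) : |a - clip x| ≤ |a - x| := by
  unfold clip
  have h1 := abs_le.1 ha
  rcases le_total 1 x with h2 | h2
  · rw [min_eq_left h2, max_eq_right (by norm_num : (-1 : ℝ) ≤ 1)]
    rw [abs_sub_comm a 1, abs_sub_comm a x, abs_of_nonneg (by linarith),
      abs_of_nonneg (by linarith)]
    linarith
  · rw [min_eq_right h2]
    rcases le_total (-1) x with h3 | h3
    · rw [max_eq_right h3]
    · rw [max_eq_left h3, abs_of_nonneg (by linarith), abs_of_nonneg (by linarith)]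
      linarith

theorem continuous_clip : Continuous clip := by
  unfold clip
  fun_prop

/-- Two finite measures that almost agree on continuous functions almost agree on Borel ones. -/
theorem borel_of_cont {X : Type} [TopologicalSpace X] [CompactSpace X]
    [TopologicalSpace.MetrizableSpace X] [MeasurableSpace X] [BorelSpace X]
    (μ ν : Measure X) [IsFiniteMeasure μ] [IsFiniteMeasure ν] (δ : ℝ)
    (h : ∀ F : C(X, ℝ), (∀ x, |F x| ≤ 1) → |∫ x, F x ∂μ - ∫ x, F x ∂ν| ≤ δ)
    (F : X → ℝ) (hF : Measurable F) (hF1 : ∀ x, |F x| ≤ 1) :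
    |∫ x, F x ∂μ - ∫ x, F x ∂ν| ≤ δ := by
  refine le_of_forall_pos_le_add ?_
  intro η hη
  have hint : Integrable F (μ + ν) := integrable_of_bdd _ F hF 1 hF1
  obtain ⟨g, hg, hgi⟩ := hint.exists_boundedContinuous_integral_sub_le hη
  let G : C(X, ℝ) := ⟨fun x => clip (g x), continuous_clip.comp g.continuous⟩
  have hG1 : ∀ x, |G x| ≤ 1 := fun x => clip_abs _
  have hFG : ∀ x, |F x - G x| ≤ |F x - g x| := fun x => clip_dist _ _ (hF1 x)
  have hGm : Measurable G := G.continuous.measurable
  have iF : Integrable F μ := integrable_of_bdd _ F hF 1 hF1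
  have iF' : Integrable F ν := integrable_of_bdd _ F hF 1 hF1
  have iG : Integrable G μ := integrable_of_bdd _ G hGm 1 hG1
  have iG' : Integrable G ν := integrable_of_bdd _ G hGm 1 hG1
  have ig : Integrable g μ := hgi.left_of_add_measure
  have ig' : Integrable g ν := hgi.right_of_add_measure
  have e1 : |∫ x, F x ∂μ - ∫ x, G x ∂μ| ≤ ∫ x, |F x - g x| ∂μ := by
    rw [← integral_sub iF iG]
    refine (abs_integral_le_integral_abs).trans ?_
    exact integral_mono (iF.sub iG).abs (iF.sub ig).abs hFG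
  have e2 : |∫ x, F x ∂ν - ∫ x, G x ∂ν| ≤ ∫ x, |F x - g x| ∂ν := by
    rw [← integral_sub iF' iG']
    refine (abs_integral_le_integral_abs).trans ?_
    exact integral_mono (iF'.sub iG').abs (iF'.sub ig').abs hFG
  have e3 : ∫ x, |F x - g x| ∂μ + ∫ x, |F x - g x| ∂ν ≤ η := by
    have e8 := integral_add_measure (iF.sub ig).abs (iF'.sub ig').abs
    have e9 : ∫ x, |(F - ⇑g) x| ∂(μ + ν) ≤ η := hg
    rw [e8] at e9
    exact e9
  have e4 := h G hG1
  have e5 : ∫ x, F x ∂μ - ∫ x, F x ∂ν = (∫ x, F x ∂μ - ∫ x, G x ∂μ) +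
      (∫ x, G x ∂μ - ∫ x, G x ∂ν) - (∫ x, F x ∂ν - ∫ x, G x ∂ν) := by ring
  rw [e5]
  have e6 := abs_sub ((∫ x, F x ∂μ - ∫ x, G x ∂μ) +
      (∫ x, G x ∂μ - ∫ x, G x ∂ν)) (∫ x, F x ∂ν - ∫ x, G x ∂ν)
  have e7 := abs_add_le (∫ x, F x ∂μ - ∫ x, G x ∂μ) (∫ x, G x ∂μ - ∫ x, G x ∂ν)
  linarith

/-- The measurable choice of a bad function. -/
theorem Fib.selection {Ω β : Type} [TopologicalSpace Ω] [CompactSpace Ω]
    [TopologicalSpace.MetrizableSpace Ω] [Nonempty Ω] [MeasurableSpace Ω] [BorelSpace Ω]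
    [MeasurableSpace β]
    {π : Ω → β} {m : Measure Ω} [IsProbabilityMeasure m]
    {κ : Measure β} {M : β → Measure Ω} (H : Fib π m κ M) (hπ : Measurable π) (φ : Ω → Ω)
    (hφ : Measurable φ) (hπφ : ∀ p, π (φ p) = π p) {ε : ℝ} (hε : 0 < ε)
    (h : ∀ F : Ω → ℝ, Measurable F → (∀ p, |F p| ≤ 1) →
      |∫ p, F p ∂m - ∫ p, F (φ p) ∂m| ≤ ε) :
    ∃ S : Set β, MeasurableSet S ∧ κ.real S ≤ 1 / 10 ∧ ∀ t, t ∉ S → ∀ F : Ω → ℝ, Measurable F →
      (∀ p, |F p| ≤ 1) → |∫ p, F p ∂(M t) - ∫ p, F (φ p) ∂(M t)| ≤ 10 * ε := by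
  classical
  have := H.prob
  have := H.probM
  let D : ℕ → C(Ω, ℝ) := TopologicalSpace.denseSeq C(Ω, ℝ)
  let Fn : ℕ → Ω → ℝ := fun n p => clip (D n p)
  have hFm : ∀ n, Measurable (Fn n) := fun n =>
    (continuous_clip.comp (D n).continuous).measurable
  have hFb : ∀ n p, |Fn n p| ≤ 1 := fun n p => clip_abs _
  let f : ℕ → β → ℝ := fun n t => ∫ p, Fn n p ∂(M t) - ∫ p, Fn n (φ p) ∂(M t)
  have hfm : ∀ n, Measurable (f n) := fun n =>
    (H.meas _ (hFm n)).sub (H.meas _ ((hFm n).comp hφ))
  let S : Set β := ⋃ n, {t | 10 * ε < f n t}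
  have hS : MeasurableSet S :=
    MeasurableSet.iUnion (fun n => measurableSet_lt measurable_const (hfm n))
  refine ⟨S, hS, ?_, ?_⟩
  · have hex : ∀ t, ∃ n, t ∉ S ∨ 10 * ε < f n t := by
      intro t
      by_cases ht : t ∈ S
      · obtain ⟨n, hn⟩ := Set.mem_iUnion.1 ht
        exact ⟨n, Or.inr hn⟩
      · exact ⟨0, Or.inl ht⟩
    let N : β → ℕ := fun t => Nat.find (hex t)
    have hN : Measurable N := by
      refine measurable_find hex ?_
      intro k
      exact hS.compl.union (measurableSet_lt measurable_const (hfm k))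
    have hNS : ∀ t ∈ S, 10 * ε < f (N t) t := by
      intro t ht
      rcases Nat.find_spec (hex t) with h1 | h1
      · exact absurd ht h1
      · exact h1
    let G : Ω → ℝ := (π ⁻¹' S).indicator (fun p => Fn (N (π p)) p)
    have hGm : Measurable G := by
      refine Measurable.indicator ?_ (hπ hS)
      have h2 : Measurable (fun x : ℕ × Ω => Fn x.1 x.2) :=
        measurable_from_prod_countable_right (fun n => hFm n)
      exact h2.comp ((hN.comp hπ).prodMk measurable_id)
    have hGb : ∀ p, |G p| ≤ 1 := by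
      intro p
      change |(π ⁻¹' S).indicator (fun p => Fn (N (π p)) p) p| ≤ 1
      by_cases hp : p ∈ π ⁻¹' S
      · rw [Set.indicator_of_mem hp]
        exact hFb _ _
      · rw [Set.indicator_of_notMem hp, abs_zero]
        exact zero_le_one
    have h3 := h G hGm hGb
    have iG : Integrable (fun t => ∫ p, G p ∂(M t)) κ :=
      integrable_of_bdd κ _ (H.meas G hGm) 1 (fun t => abs_integral_le _ G 1 hGb)
    have iG' : Integrable (fun t => ∫ p, G (φ p) ∂(M t)) κ :=
      integrable_of_bdd κ _ (H.meas _ (hGm.comp hφ)) 1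
        (fun t => abs_integral_le _ (fun p => G (φ p)) 1 (fun p => hGb _))
    rw [H.int G hGm 1 hGb, H.int (fun p => G (φ p)) (hGm.comp hφ) 1 (fun p => hGb _),
      ← integral_sub iG iG'] at h3
    have h4 : ∫ t, S.indicator (fun _ => 10 * ε) t ∂κ ≤
        ∫ t, (∫ p, G p ∂(M t) - ∫ p, G (φ p) ∂(M t)) ∂κ := by
      refine integral_mono_ae ((integrable_const _).indicator hS) (iG.sub iG') ?_
      filter_upwards [H.conc] with t ht
      by_cases hts : t ∈ S
      · rw [Set.indicator_of_mem hts]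
        have e1 : ∫ p, G p ∂(M t) = ∫ p, Fn (N t) p ∂(M t) := by
          refine integral_congr_ae ?_
          filter_upwards [ht] with p hp
          change (π ⁻¹' S).indicator (fun p => Fn (N (π p)) p) p = Fn (N t) p
          rw [Set.indicator_of_mem (by rw [Set.mem_preimage, hp]; exact hts), hp]
        have e2 : ∫ p, G (φ p) ∂(M t) = ∫ p, Fn (N t) (φ p) ∂(M t) := by
          refine integral_congr_ae ?_
          filter_upwards [ht] with p hp
          change (π ⁻¹' S).indicator (fun p => Fn (N (π p)) p) (φ p) = Fn (N t) (φ p)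
          rw [Set.indicator_of_mem (by rw [Set.mem_preimage, hπφ, hp]; exact hts), hπφ, hp]
        rw [e1, e2]
        exact (hNS t hts).le
      · rw [Set.indicator_of_notMem hts]
        have e1 : ∫ p, G p ∂(M t) = 0 := by
          refine integral_eq_zero_of_ae ?_
          filter_upwards [ht] with p hp
          change (π ⁻¹' S).indicator (fun p => Fn (N (π p)) p) p = 0
          rw [Set.indicator_of_notMem (by rw [Set.mem_preimage, hp]; exact hts)]
        have e2 : ∫ p, G (φ p) ∂(M t) = 0 := by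
          refine integral_eq_zero_of_ae ?_
          filter_upwards [ht] with p hp
          change (π ⁻¹' S).indicator (fun p => Fn (N (π p)) p) (φ p) = 0
          rw [Set.indicator_of_notMem (by rw [Set.mem_preimage, hπφ, hp]; exact hts)]
        rw [e1, e2, sub_zero]
    rw [integral_indicator hS, setIntegral_const, smul_eq_mul] at h4
    have h5 := le_trans h4 (le_trans (le_abs_self _) h3)
    have h6 : (10 * ε) * κ.real S ≤ (10 * ε) * (1 / 10) := by linarith
    exact le_of_mul_le_mul_left h6 (by positivity)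
  · intro t ht F hF hF1
    have hf : ∀ n, f n t ≤ 10 * ε := by
      intro n
      by_contra hn
      exact ht (Set.mem_iUnion.2 ⟨n, not_le.1 hn⟩)
    have hone : ∀ F : C(Ω, ℝ), (∀ x, |F x| ≤ 1) →
        ∫ p, F p ∂(M t) - ∫ p, F (φ p) ∂(M t) ≤ 10 * ε := by
      intro F hF1
      refine le_of_forall_pos_le_add ?_
      intro η hη
      obtain ⟨n, hn⟩ := (TopologicalSpace.denseRange_denseSeq C(Ω, ℝ)).exists_dist_lt F
        (half_pos hη)
      have hd : ∀ p, |F p - Fn n p| ≤ η / 2 := by
        intro p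
        refine le_trans (clip_dist _ _ (hF1 p)) ?_
        have h7 := ContinuousMap.dist_apply_le_dist (f := F) (g := D n) p
        rw [Real.dist_eq] at h7
        exact le_trans h7 hn.le
      have i1 : Integrable F (M t) := integrable_of_bdd _ F F.continuous.measurable 1 hF1
      have i2 : Integrable (fun p => F (φ p)) (M t) :=
        integrable_of_bdd _ _ (F.continuous.measurable.comp hφ) 1 (fun p => hF1 _)
      have i3 : Integrable (Fn n) (M t) := integrable_of_bdd _ _ (hFm n) 1 (hFb n)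
      have i4 : Integrable (fun p => Fn n (φ p)) (M t) :=
        integrable_of_bdd _ _ ((hFm n).comp hφ) 1 (fun p => hFb n _)
      have a1 := abs_integral_le (M t) (fun p => F p - Fn n p) (η / 2) hd
      have a2 := abs_integral_le (M t) (fun p => F (φ p) - Fn n (φ p)) (η / 2)
        (fun p => hd _)
      rw [integral_sub i1 i3] at a1
      rw [integral_sub i2 i4] at a2
      have a3 := hf n
      have a4 : f n t = ∫ p, Fn n p ∂(M t) - ∫ p, Fn n (φ p) ∂(M t) := rfl
      have a5 := (abs_le.1 a1).2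
      have a6 := (abs_le.1 a2).1
      linarith
    have habs : ∀ F : C(Ω, ℝ), (∀ x, |F x| ≤ 1) →
        |∫ p, F p ∂(M t) - ∫ p, F p ∂((M t).map φ)| ≤ 10 * ε := by
      intro F hF1
      rw [integral_map hφ.aemeasurable F.continuous.measurable.aestronglyMeasurable, abs_le]
      constructor
      · have h8 := hone (-F) (by
          intro x
          rw [ContinuousMap.neg_apply, abs_neg]
          exact hF1 x)
        simp only [ContinuousMap.neg_apply, integral_neg] at h8
        linarith
      · exact hone F hF1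
    have hfin : IsFiniteMeasure ((M t).map φ) := inferInstance
    have h9 := borel_of_cont (M t) ((M t).map φ) (10 * ε) habs F hF hF1
    rw [integral_map hφ.aemeasurable hF.aestronglyMeasurable] at h9
    exact h9

theorem lipschitz_integral {Ω X : Type} [MeasurableSpace Ω] [TopologicalSpace X] [CompactSpace X]
    [MeasurableSpace X] [BorelSpace X] (μ : Measure Ω) [IsProbabilityMeasure μ] (a : Ω → X)
    (ha : Measurable a) : Continuous (fun F : C(X, ℝ) => ∫ p, F (a p) ∂μ) := by
  refine (LipschitzWith.of_dist_le_mul (K := 1) ?_).continuous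
  intro F G
  have iF : ∀ F : C(X, ℝ), Integrable (fun p => F (a p)) μ := fun F =>
    integrable_of_bdd _ _ (F.continuous.measurable.comp ha) ‖F‖
      (fun p => ContinuousMap.norm_coe_le_norm F _)
  rw [Real.dist_eq, ← integral_sub (iF F) (iF G), NNReal.coe_one, one_mul]
  refine abs_integral_le μ _ _ ?_
  intro p
  have h := ContinuousMap.dist_apply_le_dist (f := F) (g := G) (a p)
  rw [Real.dist_eq] at h
  exact h

/-- The measurable maps of the fibrewise translations. -/
theorem Fib.translate {m : Measure (Z0 × T2)} [IsProbabilityMeasure m]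
    {κ : Measure UnitAddCircle} {M : UnitAddCircle → Measure (Z0 × T2)}
    (H : Fib (fun p : Z0 × T2 => p.1.1) m κ M) (g : FreeGroup (Fin 3)) (w : UnitAddCircle → T2)
    (hw : ∀ z, act g z = (z.1, z.2 + w z.1))
    (hinv : (m.map Prod.fst).map (act g) = m.map Prod.fst) :
    ∀ᵐ t ∂κ, ∀ F : C(T2, ℝ), ∫ p, F (p.1.2 + w t) ∂(M t) = ∫ p, F p.1.2 ∂(M t) := by
  have := H.probM
  have hπ : Measurable (fun p : Z0 × T2 => p.1.1) := measurable_fst.comp measurable_fst
  have hact : Measurable (act g) := (act g).continuous.measurable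
  have hone : ∀ F : C(T2, ℝ), ∀ᵐ t ∂κ,
      ∫ p, F (p.1.2 + w t) ∂(M t) = ∫ p, F p.1.2 ∂(M t) := by
    intro F
    have hFm : Measurable F := F.continuous.measurable
    have h1 := H.eq_of_forall hπ (fun p => F (act g p.1).2) (fun p => F p.1.2)
      (hFm.comp (measurable_snd.comp (hact.comp measurable_fst)))
      (hFm.comp (measurable_snd.comp measurable_fst)) ‖F‖
      (fun p => ContinuousMap.norm_coe_le_norm F _)
      (fun p => ContinuousMap.norm_coe_le_norm F _) (by
        intro A hA
        have hG : Measurable ((Prod.fst ⁻¹' A).indicator (fun z : Z0 => F z.2)) :=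
          (hFm.comp measurable_snd).indicator (measurable_fst hA)
        have e1 : ∀ p : Z0 × T2, ((fun p : Z0 × T2 => p.1.1) ⁻¹' A).indicator
            (fun p => F (act g p.1).2) p =
            (Prod.fst ⁻¹' A).indicator (fun z : Z0 => F z.2) (act g p.1) := by
          intro p
          by_cases hp : p.1.1 ∈ A
          · rw [Set.indicator_of_mem, Set.indicator_of_mem]
            · rw [Set.mem_preimage, act_fst]
              exact hp
            · exact hp
          · rw [Set.indicator_of_notMem, Set.indicator_of_notMem]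
            · rw [Set.mem_preimage, act_fst]
              exact hp
            · exact hp
        have e2 : ∀ p : Z0 × T2, ((fun p : Z0 × T2 => p.1.1) ⁻¹' A).indicator
            (fun p => F p.1.2) p =
            (Prod.fst ⁻¹' A).indicator (fun z : Z0 => F z.2) p.1 := fun p => rfl
        rw [integral_congr_ae (Filter.Eventually.of_forall e1),
          integral_congr_ae (Filter.Eventually.of_forall e2)]
        have e3 := integral_map (μ := m) (φ := (Prod.fst : Z0 × T2 → Z0))
          (f := (Prod.fst ⁻¹' A).indicator (fun z : Z0 => F z.2)) measurable_fst.aemeasurable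
          hG.aestronglyMeasurable
        have e4 := integral_map (μ := m) (φ := (Prod.fst : Z0 × T2 → Z0))
          (f := fun z => (Prod.fst ⁻¹' A).indicator (fun z : Z0 => F z.2) (act g z))
          measurable_fst.aemeasurable (hG.comp hact).aestronglyMeasurable
        have e5 := integral_map (μ := m.map Prod.fst) (φ := act g)
          (f := (Prod.fst ⁻¹' A).indicator (fun z : Z0 => F z.2)) hact.aemeasurable
          hG.aestronglyMeasurable
        rw [← e3, ← e4, ← e5, hinv])
    filter_upwards [h1, H.conc] with t ht1 ht2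
    rw [← ht1]
    refine integral_congr_ae ?_
    filter_upwards [ht2] with p hp
    rw [hw, hp]
  have h2 : ∀ᵐ t ∂κ, ∀ n : ℕ, ∫ p, TopologicalSpace.denseSeq C(T2, ℝ) n (p.1.2 + w t) ∂(M t) =
      ∫ p, TopologicalSpace.denseSeq C(T2, ℝ) n p.1.2 ∂(M t) := ae_all_iff.2 (fun n => hone _)
  filter_upwards [h2] with t ht
  have c1 := lipschitz_integral (X := T2) (M t) (fun p : Z0 × T2 => p.1.2 + w t)
    ((measurable_snd.comp measurable_fst).add_const _)
  have c2 := lipschitz_integral (X := T2) (M t) (fun p : Z0 × T2 => p.1.2)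
    (measurable_snd.comp measurable_fst)
  have h3 := Continuous.ext_on (TopologicalSpace.denseRange_denseSeq C(T2, ℝ)) c1 c2 (by
    rintro _ ⟨n, rfl⟩
    exact ht n)
  intro F
  exact congrFun h3 F

end DisAux

open DisAux

theorem disint (T : Set UnitAddCircle) (hT : MeasurableSet T) (hT' : ∀ t ∈ T, addOrderOf t = 0)
    {h : Fin 3 → Z0 → Z0} {ψ : Fin 2 → Z0 → ℂ} {ε : ℝ} (hε : 0 < ε) {c : UnitAddCircle}
    {m : Measure (Z0 × T2)} [IsProbabilityMeasure m] (hm : m {p | p.1.1 ∉ T} = 0)
    (H : Inn act h ψ ε c m) :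
    ∃ t ∈ T, ∃ m' : Measure (Z0 × T2), IsProbabilityMeasure m' ∧ Inn act h ψ (10 * ε) c m' ∧
      m'.map Prod.fst = (Measure.dirac t).prod lam := by
  have hBorel : BorelSpace (Z0 × T2) := Prod.borelSpace
  have hS1 : StandardBorelSpace T2 := inferInstance
  have hS2 : StandardBorelSpace Z0 := inferInstance
  have hS3 : StandardBorelSpace (Z0 × T2) := StandardBorelSpace.prod
  have hπ : Measurable (fun p : Z0 × T2 => p.1.1) := measurable_fst.comp measurable_fst
  obtain ⟨M, HM⟩ := exists_fib (fun p : Z0 × T2 => p.1.1) hπ m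
  have := HM.prob
  have := HM.probM
  set κ : Measure UnitAddCircle := m.map (fun p : Z0 × T2 => p.1.1) with hκ
  -- (T)
  have hTae : ∀ᵐ t ∂κ, t ∈ T := by
    rw [hκ]
    exact (ae_map_iff hπ.aemeasurable hT).2 hm
  -- (A)
  have hA1 := HM.translate (FreeGroup.of 2) (fun t => (t, 0)) act_s (H.inv _)
  have hA2 := HM.translate (FreeGroup.of 1 * FreeGroup.of 2 * (FreeGroup.of 1)⁻¹ *
    (FreeGroup.of 2)⁻¹) (fun t => (0, t)) act_comm (H.inv _)
  have hA : ∀ᵐ t ∂κ, t ∈ T ∧ (M t).map Prod.fst = (Measure.dirac t).prod lam := by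
    filter_upwards [hTae, hA1, hA2, HM.conc] with t htT ht1 ht2 ht3
    refine ⟨htT, ?_⟩
    have hmeas : Measurable (fun p : Z0 × T2 => p.1.2) := measurable_snd.comp measurable_fst
    have hρ : IsProbabilityMeasure ((M t).map (fun p : Z0 × T2 => p.1.2)) :=
      Measure.isProbabilityMeasure_map hmeas.aemeasurable
    have hlam : (M t).map (fun p : Z0 × T2 => p.1.2) = lam := by
      refine inv_eq_lam _ t (hT' t htT) ?_ ?_
      · intro F
        have hFm : Measurable F := F.continuous.measurable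
        have hF2 : Measurable (fun v : T2 => F (v + (t, 0))) := hFm.comp (measurable_add_const _)
        have a1 := integral_map (μ := M t) (f := fun v : T2 => F (v + (t, 0))) hmeas.aemeasurable
          hF2.aestronglyMeasurable
        have a2 := integral_map (μ := M t) (f := fun v : T2 => F v) hmeas.aemeasurable
          hFm.aestronglyMeasurable
        rw [a1, a2]
        exact ht1 F
      · intro F
        have hFm : Measurable F := F.continuous.measurable
        have hF2 : Measurable (fun v : T2 => F (v + (0, t))) := hFm.comp (measurable_add_const _)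
        have a1 := integral_map (μ := M t) (f := fun v : T2 => F (v + (0, t))) hmeas.aemeasurable
          hF2.aestronglyMeasurable
        have a2 := integral_map (μ := M t) (f := fun v : T2 => F v) hmeas.aemeasurable
          hFm.aestronglyMeasurable
        rw [a1, a2]
        exact ht2 F
    have h1 : (M t).map Prod.fst = (M t).map (fun p : Z0 × T2 => (t, p.1.2)) := by
      refine Measure.map_congr ?_
      filter_upwards [ht3] with p hp
      exact Prod.ext hp rfl
    rw [h1, Measure.dirac_prod, ← hlam, Measure.map_map measurable_prodMk_left hmeas]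
    rfl
  -- (B)
  have hhfst : ∀ i z, (h i z).1 = z.1 := by
    intro i z
    obtain ⟨j, hj⟩ := H.inn i z
    rw [hj, act_fst]
  have hB : ∀ i : Fin 3, ∃ S : Set UnitAddCircle, MeasurableSet S ∧ κ.real S ≤ 1 / 10 ∧
      ∀ t, t ∉ S → ∀ F : Z0 × T2 → ℝ, Measurable F → (∀ p, |F p| ≤ 1) →
      |∫ p, F p ∂(M t) - ∫ p, F (h i p.1, tau c i p.2) ∂(M t)| ≤ 10 * ε := by
    intro i
    refine HM.selection hπ (fun p => (h i p.1, tau c i p.2)) ?_ ?_ hε (H.main i)
    · exact ((H.meas i).comp measurable_fst).prodMk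
        ((tau c i).continuous.measurable.comp measurable_snd)
    · intro p
      exact hhfst i p.1
  choose S hS1 hS2 hS3 using hB
  -- (C)
  obtain ⟨C, hC⟩ := H.psib
  have hee : ∀ l x, ‖ee l x‖ ≤ 1 := by
    intro l x
    fin_cases l
    · exact (Circle.norm_coe _).le
    · exact (Circle.norm_coe _).le
  have heem : ∀ l, Measurable (ee l) := by
    intro l
    fin_cases l
    · exact (continuous_subtype_val.comp
        (AddCircle.continuous_toCircle.comp continuous_fst)).measurable
    · exact (continuous_subtype_val.comp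
        (AddCircle.continuous_toCircle.comp continuous_snd)).measurable
  have hCl : ∀ l : Fin 2, κ.real {t | 10 * ε < ∫ p, ‖ψ l p.1 - ee l p.2‖ ∂(M t)} ≤ 1 / 10 := by
    intro l
    refine HM.markov (fun p => ‖ψ l p.1 - ee l p.2‖) ?_ (C + 1) ?_ (fun p => norm_nonneg _) hε
      (H.psi l)
    · exact (((H.psim l).comp measurable_fst).sub ((heem l).comp measurable_snd)).norm
    · intro p
      rw [abs_of_nonneg (norm_nonneg _)]
      exact le_trans (norm_sub_le _ _) (add_le_add (hC l p.1) (hee l p.2))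
  -- the good point
  by_contra hcon
  push Not at hcon
  have hcover : (Set.univ : Set UnitAddCircle) ⊆
      {t | ¬ (t ∈ T ∧ (M t).map Prod.fst = (Measure.dirac t).prod lam)} ∪
      ((⋃ i, S i) ∪ ⋃ l : Fin 2, {t | 10 * ε < ∫ p, ‖ψ l p.1 - ee l p.2‖ ∂(M t)}) := by
    intro t _
    by_contra ht
    rw [Set.mem_union, not_or, Set.mem_union, not_or] at ht
    obtain ⟨ht1, ht2, ht3⟩ := ht
    have ht1' : t ∈ T ∧ (M t).map Prod.fst = (Measure.dirac t).prod lam := by
      by_contra hh
      exact ht1 hh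
    refine hcon t ht1'.1 (M t) inferInstance ?_ ht1'.2
    refine ⟨H.meas, H.inn, ?_, H.psim, H.psib, ?_, ?_⟩
    · intro i F hF hF1
      exact hS3 i t (fun hh => ht2 (Set.mem_iUnion.2 ⟨i, hh⟩)) F hF hF1
    · intro l
      by_contra hh
      exact ht3 (Set.mem_iUnion.2 ⟨l, not_le.1 hh⟩)
    · intro g
      rw [ht1'.2, act_measure]
  have h0 : κ.real {t | ¬ (t ∈ T ∧ (M t).map Prod.fst = (Measure.dirac t).prod lam)} = 0 := by
    rw [measureReal_def, show κ {t | ¬ (t ∈ T ∧
      (M t).map Prod.fst = (Measure.dirac t).prod lam)} = 0 from hA]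
    rfl
  have h1 : κ.real (Set.univ : Set UnitAddCircle) = 1 := by simp
  have h2 := measureReal_mono (μ := κ) hcover
  have h3 := measureReal_union_le (μ := κ)
    {t | ¬ (t ∈ T ∧ (M t).map Prod.fst = (Measure.dirac t).prod lam)}
    ((⋃ i, S i) ∪ ⋃ l : Fin 2, {t | 10 * ε < ∫ p, ‖ψ l p.1 - ee l p.2‖ ∂(M t)})
  have h4 := measureReal_union_le (μ := κ) (⋃ i, S i)
    (⋃ l : Fin 2, {t | 10 * ε < ∫ p, ‖ψ l p.1 - ee l p.2‖ ∂(M t)})
  have h5 := measureReal_iUnion_fintype_le (μ := κ) S
  have h6 := measureReal_iUnion_fintype_le (μ := κ)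
    (fun l : Fin 2 => {t | 10 * ε < ∫ p, ‖ψ l p.1 - ee l p.2‖ ∂(M t)})
  rw [Fin.sum_univ_three] at h5
  rw [Fin.sum_univ_two] at h6
  have := hS2 0
  have := hS2 1
  have := hS2 2
  have := hCl 0
  have := hCl 1
  linarith

end Pool.CAR
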