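import Pool.Agent.CAR.Defs

/-!
# CAR module Ex: existence of approximation data

PAPER PROOF. `countable_dats`: a member of `dats ι Z` is determined by finitely many natural numbers,
members of `ι` and members of the two countable sets `range denseSeq` (`Dat ≃ ...`; e.g. the set is the
range/image of a countable type).
`exists_Adm`. Let `μ = m.map Prod.fst`, `η = ε - ε₀ > 0`, fix `i`. Enumerate `ι`;
`C_j = {z | h i z = gZ j z, j first such index}` is a Borel partition of `Z` (countable); choose finitely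
many indices `j_1, ..., j_n` with `μ(Z \ ⋃_{k ≤ n} C_{j_k}) ≤ η/4`. For each `k` there is a continuous
`f : Z → ℝ` with `∫ |f - 1_{C_{j_k}}| dμ ≤ η'` (`Integrable.exists_boundedContinuous_integral_sub_le` or
`MemLp.exists_boundedContinuous_...`; finite Borel measures on metrizable spaces are regular), and then a
`δ_k` in `range (denseSeq C(Z, ℝ))` with `‖f - δ_k‖ ≤ η'`. As `x ↦ max 0 (min x 1)` is `1`-Lipschitz and
fixes `0` and `1`, `∫ |χ_k - 1_{C_{j_k}}| dμ ≤ 2η'` for `χ_k = chi w k`. Take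
`η' = min(η/(8(n+1)²), ...)`, `w = W.l i = ⟨n, j, δ⟩`. Then:
`main`: `|∫ F dm - ∑_k ∫ χ_k(z) F(gZ j_k z, τx) dm| ≤ |∫ F dm - ∫ F(h z, τ x) dm| +
μ(Z \ ⋃ C_{j_k}) + ∑_k ∫ |χ_k - 1_{C_{j_k}}| dμ ≤ ε₀ + η`, since
`F(h z, τx) = F(gZ j_k z, τx)` on `C_{j_k}`.
`part`: `χ(1-χ) ≤ |χ - 1_C|` and for `k ≠ k'`: `χ_k χ_k' ≤ |χ_k - 1_{C_k}| + |χ_k' - 1_{C_k'}|` (the `C`'s are
disjoint, `0 ≤ χ ≤ 1`); so `∫ dfc ≤ (2n+1) n · 2η' ≤ η ≤ ε` (note `ε₀ ≥ 0`, take `F = 0`).
`psi`: `W.ψ l` in `range (denseSeq C(Z, ℂ))` with `∫ ‖W.ψ l z - ψ l z‖ dμ ≤ η` (approximate the bounded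
Borel function `ψ l` in `L¹(μ)` by a continuous one, real and imaginary part or directly).
`inv`: from `H.inv j`: `∫ F(gZ j z) dμ = ∫ F dμ` (`integral_map`).
-/

open MeasureTheory Topology

namespace Pool.CAR

open TopologicalSpace (denseSeq denseRange_denseSeq)

variable {ι Z : Type} [TopologicalSpace Z] [CompactSpace Z] [TopologicalSpace.MetrizableSpace Z]

theorem countable_dats (ι Z : Type) [TopologicalSpace Z] [CompactSpace Z]
    [TopologicalSpace.MetrizableSpace Z] [Countable ι] : (dats ι Z).Countable := by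
  let Φ : (Fin 3 → Σ n : ℕ, (Fin n → ι) × (Fin n → ℕ)) × (Fin 2 → ℕ) → Dat ι Z := fun a =>
    ⟨fun i => ⟨(a.1 i).1, (a.1 i).2.1, fun j => denseSeq C(Z, ℝ) ((a.1 i).2.2 j)⟩,
      fun l => denseSeq C(Z, ℂ) (a.2 l)⟩
  refine (Set.countable_range Φ).mono ?_
  rintro W ⟨h1, h2⟩
  choose a ha using h1
  choose b hb using h2
  refine ⟨(fun i => ⟨(W.l i).n, (W.l i).g, a i⟩, b), ?_⟩
  have e1 : ∀ i, (⟨(W.l i).n, (W.l i).g, fun j => denseSeq C(Z, ℝ) (a i j)⟩ : One ι Z) = W.l i := by
    intro i
    have : (fun j => denseSeq C(Z, ℝ) (a i j)) = (W.l i).δ := funext (ha i)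
    rw [this]
  have e2 : (fun l => denseSeq C(Z, ℂ) (b l)) = W.ψ := funext hb
  change (⟨fun i => ⟨(W.l i).n, (W.l i).g, fun j => denseSeq C(Z, ℝ) (a i j)⟩,
      fun l => denseSeq C(Z, ℂ) (b l)⟩ : Dat ι Z) = W
  rw [funext e1, e2]

variable [MeasurableSpace Z] [BorelSpace Z]

private theorem ex_trunc (a c : ℝ) (hc : c = 0 ∨ c = 1) : |max 0 (min a 1) - c| ≤ |a - c| := by
  rcases hc with rfl | rfl
  · rw [sub_zero, sub_zero, abs_of_nonneg (le_max_left _ _)]
    exact max_le (abs_nonneg a) ((min_le_left _ _).trans (le_abs_self a))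
  · have h1 : max 0 (min a 1) ≤ 1 := max_le zero_le_one (min_le_right _ _)
    rw [abs_of_nonpos (by linarith)]
    rcases le_or_gt a 1 with h | h
    · rw [abs_of_nonpos (by linarith)]
      have : a ≤ max 0 (min a 1) := by
        rw [min_eq_left h]
        exact le_max_right _ _
      linarith
    · rw [min_eq_right h.le, max_eq_right zero_le_one]
      simp

private theorem ex_fun {E : Type} [NormedAddCommGroup E] [NormedSpace ℝ E] [MeasurableSpace E]
    [BorelSpace E] [SecondCountableTopology E] (μ : Measure Z)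
    [IsProbabilityMeasure μ] (ψ : Z → E) (hψ : Measurable ψ) (C : ℝ) (hb : ∀ z, ‖ψ z‖ ≤ C) {η : ℝ}
    (hη : 0 < η) : ∃ k : ℕ, ∫ z, ‖denseSeq C(Z, E) k z - ψ z‖ ∂μ ≤ η := by
  have hi : Integrable ψ μ := Integrable.of_bound hψ.aestronglyMeasurable C
    (Filter.Eventually.of_forall hb)
  obtain ⟨g, hg, hgi⟩ := hi.exists_boundedContinuous_integral_sub_le (half_pos hη)
  obtain ⟨k, hk⟩ := (denseRange_denseSeq C(Z, E)).exists_dist_lt g.toContinuousMap (half_pos hη)
  refine ⟨k, ?_⟩
  have h1 : ∀ z, ‖denseSeq C(Z, E) k z - ψ z‖ ≤ η / 2 + ‖ψ z - g z‖ := by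
    intro z
    have h2 : ‖denseSeq C(Z, E) k z - g z‖ ≤ η / 2 := by
      have h3 := ContinuousMap.dist_apply_le_dist (f := g.toContinuousMap)
        (g := denseSeq C(Z, E) k) z
      rw [dist_comm, dist_eq_norm] at h3
      exact h3.trans hk.le
    calc ‖denseSeq C(Z, E) k z - ψ z‖ = ‖(denseSeq C(Z, E) k z - g z) - (ψ z - g z)‖ := by
          congr 1
          abel
      _ ≤ ‖denseSeq C(Z, E) k z - g z‖ + ‖ψ z - g z‖ := norm_sub_le _ _
      _ ≤ _ := by gcongr
  have hint2 : Integrable (fun z => ‖ψ z - g z‖) μ := (hi.sub hgi).norm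
  have hd : Integrable (fun z => denseSeq C(Z, E) k z) μ :=
    (denseSeq C(Z, E) k).continuous.integrable_of_hasCompactSupport
      (HasCompactSupport.of_compactSpace _)
  calc ∫ z, ‖denseSeq C(Z, E) k z - ψ z‖ ∂μ ≤ ∫ z, (η / 2 + ‖ψ z - g z‖) ∂μ :=
        integral_mono (hd.sub hi).norm ((integrable_const _).add hint2) h1
    _ = η / 2 + ∫ z, ‖ψ z - g z‖ ∂μ := by
        rw [integral_add (integrable_const _) hint2]
        simp
    _ ≤ η / 2 + η / 2 := by gcongr
    _ = η := add_halves η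

private theorem ex_ind (μ : Measure Z) [IsProbabilityMeasure μ] (C : Set Z) (hC : MeasurableSet C)
    {η : ℝ} (hη : 0 < η) :
    ∃ k : ℕ, ∫ z, |max 0 (min (denseSeq C(Z, ℝ) k z) 1) - C.indicator 1 z| ∂μ ≤ η := by
  have hm : Measurable (C.indicator (1 : Z → ℝ)) := measurable_one.indicator hC
  have hb : ∀ z, ‖C.indicator (1 : Z → ℝ) z‖ ≤ 1 := by
    intro z
    by_cases hz : z ∈ C <;> simp [hz]
  obtain ⟨k, hk⟩ := ex_fun μ (C.indicator (1 : Z → ℝ)) hm 1 hb hη
  refine ⟨k, le_trans ?_ hk⟩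
  have hcont : Continuous fun z => max 0 (min (denseSeq C(Z, ℝ) k z) 1) :=
    continuous_const.max ((denseSeq C(Z, ℝ) k).continuous.min continuous_const)
  have hd : Integrable (fun z => denseSeq C(Z, ℝ) k z) μ :=
    (denseSeq C(Z, ℝ) k).continuous.integrable_of_hasCompactSupport
      (HasCompactSupport.of_compactSpace _)
  have hd2 : Integrable (fun z => max 0 (min (denseSeq C(Z, ℝ) k z) 1)) μ :=
    hcont.integrable_of_hasCompactSupport (HasCompactSupport.of_compactSpace _)
  have hi : Integrable (C.indicator (1 : Z → ℝ)) μ :=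
    Integrable.of_bound hm.aestronglyMeasurable 1 (Filter.Eventually.of_forall hb)
  refine integral_mono (hd2.sub hi).norm (hd.sub hi).norm fun z => ?_
  rw [Real.norm_eq_abs]
  apply ex_trunc
  by_cases hz : z ∈ C <;> simp [hz]

omit [CompactSpace Z] [TopologicalSpace.MetrizableSpace Z] in
private theorem ex_chi_meas (w : One ι Z) (k : Fin w.n) : Measurable (chi w k) := by
  unfold chi
  exact measurable_const.max ((w.δ k).continuous.measurable.min measurable_const)

omit [CompactSpace Z] [TopologicalSpace.MetrizableSpace Z] [MeasurableSpace Z] [BorelSpace Z] in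
private theorem ex_chi_nonneg (w : One ι Z) (k : Fin w.n) (z : Z) : 0 ≤ chi w k z :=
  le_max_left _ _

omit [CompactSpace Z] [TopologicalSpace.MetrizableSpace Z] [MeasurableSpace Z] [BorelSpace Z] in
private theorem ex_chi_le (w : One ι Z) (k : Fin w.n) (z : Z) : chi w k z ≤ 1 :=
  max_le zero_le_one (min_le_right _ _)

/-- One map. -/
private theorem ex_one [Countable ι] (μ : Measure Z) [IsProbabilityMeasure μ]
    (gZ : ι → (Z ≃ₜ Z)) (h : Z → Z) (hm : Measurable h) (hh : ∀ z, ∃ j, h z = gZ j z) {η : ℝ}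
    (hη : 0 < η) : ∃ w : One ι Z, (∀ j, w.δ j ∈ Set.range (denseSeq C(Z, ℝ))) ∧
      ∃ D : Fin w.n → Set Z, (∀ k, MeasurableSet (D k)) ∧ (∀ k l, k ≠ l → Disjoint (D k) (D l)) ∧
        (∀ k, ∀ z ∈ D k, h z = gZ (w.g k) z) ∧ μ.real (⋃ k, D k)ᶜ ≤ η / 2 ∧
        (∑ k, ∫ z, |chi w k z - (D k).indicator 1 z| ∂μ) * (2 * w.n + 1) ≤ η / 2 := by
  have hZ : Nonempty Z := by
    by_contra hcon
    rw [not_nonempty_iff] at hcon
    have h1 : μ Set.univ = 1 := measure_univ
    have h2 : (Set.univ : Set Z) = ∅ := Set.univ_eq_empty_iff.2 hcon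
    rw [h2, measure_empty] at h1
    exact zero_ne_one h1
  have hι : Nonempty ι := ⟨(hh hZ.some).choose⟩
  obtain ⟨e, he⟩ := exists_surjective_nat ι
  let A : ℕ → Set Z := fun k => {z | h z = gZ (e k) z}
  have hA : ∀ k, MeasurableSet (A k) := fun k =>
    measurableSet_eq_fun hm (gZ (e k)).continuous.measurable
  have hAu : ⋃ k, disjointed A k = Set.univ := by
    rw [iUnion_disjointed, Set.eq_univ_iff_forall]
    intro z
    obtain ⟨j, hj⟩ := hh z
    obtain ⟨k, rfl⟩ := he j
    exact Set.mem_iUnion.2 ⟨k, hj⟩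
  have hDm : ∀ k, MeasurableSet (disjointed A k) := fun k => MeasurableSet.disjointed hA k
  -- choice of the number of sets
  obtain ⟨N, hN⟩ : ∃ N, μ.real (Set.accumulate (disjointed A) N)ᶜ ≤ η / 2 := by
    have h1 := tendsto_measure_iUnion_accumulate (μ := μ) (f := disjointed A)
    rw [hAu, measure_univ] at h1
    have h2 : Filter.Tendsto (fun N => μ.real (Set.accumulate (disjointed A) N)) Filter.atTop (𝓝 1) := by
      have := (ENNReal.tendsto_toReal (by norm_num : (1 : ENNReal) ≠ ⊤)).comp h1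
      simpa [Measure.real, Function.comp_def] using this
    have h3 : ∀ᶠ N in Filter.atTop, 1 - η / 2 < μ.real (Set.accumulate (disjointed A) N) :=
      h2.eventually (lt_mem_nhds (by linarith))
    obtain ⟨N, hN⟩ := h3.exists
    refine ⟨N, ?_⟩
    have h4 : MeasurableSet (Set.accumulate (disjointed A) N) := by
      rw [Set.accumulate_def]
      exact MeasurableSet.biUnion (Set.to_countable _) fun k _ => hDm k
    rw [probReal_compl_eq_one_sub h4]
    linarith
  set n := N + 1 with hn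
  set η' : ℝ := η / (2 * (n + 1) * (2 * n + 1)) with hη'
  have hη'0 : 0 < η' := by positivity
  have h5 : ∀ k : Fin n, ∃ l : ℕ, ∫ z, |max 0 (min (denseSeq C(Z, ℝ) l z) 1) -
      (disjointed A k).indicator 1 z| ∂μ ≤ η' := fun k => ex_ind μ _ (hDm k) hη'0
  choose l hl using h5
  refine ⟨⟨n, fun k => e k, fun k => denseSeq C(Z, ℝ) (l k)⟩, fun j => ⟨l j, rfl⟩,
    fun k => disjointed A k, fun k => hDm k, ?_, ?_, ?_, ?_⟩
  · intro k k' hkk
    exact disjoint_disjointed A (fun h => hkk (Fin.ext h))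
  · intro k z hz
    exact disjointed_subset A k hz
  · have h6 : (⋃ k : Fin n, disjointed A k) = Set.accumulate (disjointed A) N := by
      ext z
      rw [Set.accumulate_def]
      simp only [Set.mem_iUnion, exists_prop]
      constructor
      · rintro ⟨k, hk⟩
        exact ⟨k, by have := k.2; omega, hk⟩
      · rintro ⟨k, hk1, hk⟩
        exact ⟨⟨k, by omega⟩, hk⟩
    change μ.real (⋃ k : Fin n, disjointed A k)ᶜ ≤ η / 2
    rw [h6]
    exact hN
  · change (∑ k : Fin n, ∫ z, |max 0 (min (denseSeq C(Z, ℝ) (l k) z) 1) -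
      (disjointed A k).indicator 1 z| ∂μ) * (2 * (n : ℝ) + 1) ≤ η / 2
    have h7 : (∑ k : Fin n, ∫ z, |max 0 (min (denseSeq C(Z, ℝ) (l k) z) 1) -
      (disjointed A k).indicator 1 z| ∂μ) ≤ n * η' := by
      calc _ ≤ ∑ _k : Fin n, η' := Finset.sum_le_sum fun k _ => hl k
        _ = n * η' := by simp
    have h8 : (n : ℝ) * η' * (2 * n + 1) ≤ η / 2 := by
      rw [hη']
      have hn0 : (0 : ℝ) ≤ n := Nat.cast_nonneg n
      have h9 : (n : ℝ) * (η / (2 * (n + 1) * (2 * n + 1))) * (2 * n + 1) = η / 2 * (n / (n + 1)) := by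
        field_simp
      rw [h9]
      have h10 : (n : ℝ) / (n + 1) ≤ 1 := by
        rw [div_le_one (by positivity)]
        linarith
      nlinarith
    calc _ ≤ (n * η') * (2 * n + 1) := by gcongr
      _ ≤ _ := h8

omit [CompactSpace Z] [TopologicalSpace.MetrizableSpace Z] [MeasurableSpace Z] [BorelSpace Z] in
/-- pointwise bound for the defect -/
private theorem ex_dfc (w : One ι Z) (D : Fin w.n → Set Z)
    (hD : ∀ k l, k ≠ l → Disjoint (D k) (D l)) (z : Z) :
    dfc w z ≤ (∑ k, |chi w k z - (D k).indicator 1 z|) * (2 * w.n + 1) := by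
  classical
  set a : Fin w.n → ℝ := fun k => |chi w k z - (D k).indicator 1 z| with ha
  have h0 : ∀ k, 0 ≤ a k := fun k => abs_nonneg _
  have hin : ∀ k, z ∉ D k → chi w k z ≤ a k := by
    intro k hk
    rw [ha]
    simp only
    rw [Set.indicator_of_notMem hk, sub_zero]
    exact le_abs_self _
  have hin2 : ∀ k, z ∈ D k → 1 - chi w k z ≤ a k := by
    intro k hk
    rw [ha]
    simp only
    rw [Set.indicator_of_mem hk, Pi.one_apply, abs_sub_comm]
    exact le_abs_self _
  have h1 : ∀ k, chi w k z * (1 - chi w k z) ≤ a k := by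
    intro k
    have c0 := ex_chi_nonneg w k z
    have c1 := ex_chi_le w k z
    by_cases hk : z ∈ D k
    · have := hin2 k hk
      nlinarith
    · have := hin k hk
      nlinarith
  have h2 : ∀ j k, (if j = k then 0 else chi w j z * chi w k z) ≤ a j + a k := by
    intro j k
    by_cases hjk : j = k
    · rw [if_pos hjk]
      exact add_nonneg (h0 _) (h0 _)
    · rw [if_neg hjk]
      have c0 := ex_chi_nonneg w k z
      have c1 := ex_chi_le w k z
      have d0 := ex_chi_nonneg w j z
      have d1 := ex_chi_le w j z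
      by_cases hk : z ∈ D k
      · have hj : z ∉ D j := fun hj => Set.disjoint_left.1 (hD j k hjk) hj hk
        have := hin j hj
        have := h0 k
        nlinarith
      · have := hin k hk
        have := h0 j
        nlinarith
  unfold dfc
  calc _ ≤ ∑ k, a k + ∑ j, ∑ k, (a j + a k) := by
        refine add_le_add (Finset.sum_le_sum fun k _ => h1 k)
          (Finset.sum_le_sum fun j _ => Finset.sum_le_sum fun k _ => ?_)
        convert h2 j k
    _ = (∑ k, a k) * (2 * w.n + 1) := by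
        simp only [Finset.sum_add_distrib, Finset.sum_const, Finset.card_univ, Fintype.card_fin,
          nsmul_eq_mul, ← Finset.mul_sum]
        ring

omit [CompactSpace Z] [TopologicalSpace.MetrizableSpace Z] [MeasurableSpace Z] [BorelSpace Z] in
/-- pointwise bound for the main condition -/
private theorem ex_pt (w : One ι Z) (D : Fin w.n → Set Z)
    (hD : ∀ k l, k ≠ l → Disjoint (D k) (D l)) (z : Z) (a : ℝ) (b : Fin w.n → ℝ) (ha : |a| ≤ 1)
    (hb : ∀ k, |b k| ≤ 1) (hab : ∀ k, z ∈ D k → a = b k) :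
    |a - ∑ k, chi w k z * b k| ≤
      (⋃ k, D k)ᶜ.indicator 1 z + ∑ k, |chi w k z - (D k).indicator 1 z| := by
  have h1 : a = (⋃ k, D k)ᶜ.indicator 1 z * a + ∑ k, (D k).indicator 1 z * b k := by
    by_cases hz : z ∈ ⋃ k, D k
    · obtain ⟨k, hk⟩ := Set.mem_iUnion.1 hz
      have h2 : z ∉ (⋃ k, D k)ᶜ := fun h => h hz
      rw [Set.indicator_of_notMem h2, zero_mul, zero_add, Finset.sum_eq_single k]
      · rw [Set.indicator_of_mem hk, Pi.one_apply, one_mul]
        exact hab k hk
      · intro l _ hl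
        have h3 : z ∉ D l := fun h => Set.disjoint_left.1 (hD l k hl) h hk
        rw [Set.indicator_of_notMem h3, zero_mul]
      · intro h
        exact absurd (Finset.mem_univ k) h
    · have h2 : z ∈ (⋃ k, D k)ᶜ := hz
      rw [Set.indicator_of_mem h2, Pi.one_apply, one_mul, Finset.sum_eq_zero, add_zero]
      intro k _
      have h3 : z ∉ D k := fun h => hz (Set.mem_iUnion.2 ⟨k, h⟩)
      rw [Set.indicator_of_notMem h3, zero_mul]
  have h2 : a - ∑ k, chi w k z * b k =
      (⋃ k, D k)ᶜ.indicator 1 z * a - ∑ k, (chi w k z - (D k).indicator 1 z) * b k := by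
    conv_lhs => rw [h1]
    rw [add_sub_assoc, sub_eq_add_neg _ (∑ k, (chi w k z - (D k).indicator 1 z) * b k),
      ← Finset.sum_sub_distrib, ← Finset.sum_neg_distrib]
    congr 1
    refine Finset.sum_congr rfl fun k _ => ?_
    ring
  rw [h2]
  have h0 : (0 : ℝ) ≤ (⋃ k, D k)ᶜ.indicator 1 z := Set.indicator_nonneg (fun _ _ => zero_le_one) _
  calc |(⋃ k, D k)ᶜ.indicator 1 z * a - ∑ k, (chi w k z - (D k).indicator 1 z) * b k|
      ≤ |(⋃ k, D k)ᶜ.indicator 1 z * a| + |∑ k, (chi w k z - (D k).indicator 1 z) * b k| :=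
        abs_sub _ _
    _ ≤ (⋃ k, D k)ᶜ.indicator 1 z + ∑ k, |chi w k z - (D k).indicator 1 z| := by
        gcongr
        · rw [abs_mul, abs_of_nonneg h0]
          exact mul_le_of_le_one_right h0 ha
        · refine (Finset.abs_sum_le_sum_abs _ _).trans (Finset.sum_le_sum fun k _ => ?_)
          rw [abs_mul]
          exact mul_le_of_le_one_right (abs_nonneg _) (hb k)

theorem exists_Adm [Countable ι] (gZ : ι → (Z ≃ₜ Z)) {h : Fin 3 → Z → Z}
    {ψ : Fin 2 → Z → ℂ} {ε₀ ε : ℝ} (hε : ε₀ < ε) {c : UnitAddCircle} {m : Measure (Z × T2)}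
    [IsProbabilityMeasure m] (H : Inn gZ h ψ ε₀ c m) : ∃ W ∈ dats ι Z, Adm gZ W ε c m := by
  classical
  set μ : Measure Z := m.map Prod.fst with hμ
  have hμp : IsProbabilityMeasure μ := Measure.isProbabilityMeasure_map measurable_fst.aemeasurable
  have hη : 0 < ε - ε₀ := by linarith
  set η := ε - ε₀ with hηd
  have hε0 : 0 ≤ ε₀ := by
    have := H.main 0 (fun _ => 0) measurable_const (fun _ => by simp)
    simpa using this
  have h1 := fun i => ex_one μ gZ (h i) (H.meas i) (H.inn i) hη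
  choose w hw D hDm hDd hDh hDc hDs using h1
  obtain ⟨C, hC⟩ := H.psib
  have h2 := fun l => ex_fun μ (ψ l) (H.psim l) C (hC l) hη
  choose kψ hkψ using h2
  have hfst : ∀ f : Z → ℝ, Measurable f → ∫ p, f p.1 ∂m = ∫ z, f z ∂μ := by
    intro f hf
    rw [hμ, integral_map measurable_fst.aemeasurable hf.aestronglyMeasurable]
  have hbi : ∀ {α : Type} [MeasurableSpace α] (ν : Measure α) [IsProbabilityMeasure ν] (f : α → ℝ)
      (C : ℝ), Measurable f → (∀ p, |f p| ≤ C) → Integrable f ν := fun ν _ f C hf hb =>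
    Integrable.of_bound hf.aestronglyMeasurable C (Filter.Eventually.of_forall hb)
  -- the error functions
  have hem : ∀ i k, Measurable fun z => |chi (w i) k z - (D i k).indicator 1 z| := fun i k =>
    ((ex_chi_meas (w i) k).sub (measurable_one.indicator (hDm i k))).abs
  have heb : ∀ i k z, |(|chi (w i) k z - (D i k).indicator 1 z|)| ≤ 1 := by
    intro i k z
    rw [abs_abs]
    have c0 := ex_chi_nonneg (w i) k z
    have c1 := ex_chi_le (w i) k z
    by_cases hz : z ∈ D i k
    · rw [Set.indicator_of_mem hz, Pi.one_apply, abs_le]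
      constructor <;> linarith
    · rw [Set.indicator_of_notMem hz, abs_le]
      constructor <;> linarith
  have hei : ∀ i k, Integrable (fun z => |chi (w i) k z - (D i k).indicator 1 z|) μ := fun i k =>
    hbi μ _ 1 (hem i k) (heb i k)
  refine ⟨⟨w, fun l => denseSeq C(Z, ℂ) (kψ l)⟩, ⟨fun i j => hw i j, fun l => ⟨kψ l, rfl⟩⟩, ?_, ?_, ?_, ?_⟩
  · -- main
    intro i F hF
    change |∫ p, F p ∂m - ∑ j, ∫ p, chi (w i) j p.1 * F (gZ ((w i).g j) p.1, tau c i p.2) ∂m| ≤ ε
    have hFm : Measurable F := F.continuous.measurable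
    have hτ : Measurable fun p : Z × T2 => tau c i p.2 := (tau c i).continuous.measurable.comp measurable_snd
    have hm1 : Measurable fun p : Z × T2 => F (h i p.1, tau c i p.2) :=
      hFm.comp (((H.meas i).comp measurable_fst).prodMk hτ)
    have hi1 : Integrable (fun p : Z × T2 => F (h i p.1, tau c i p.2)) m :=
      hbi m _ 1 hm1 (fun p => hF _)
    have hm2 : ∀ j, Measurable fun p : Z × T2 =>
        chi (w i) j p.1 * F (gZ ((w i).g j) p.1, tau c i p.2) := fun j =>
      ((ex_chi_meas (w i) j).comp measurable_fst).mul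
        (hFm.comp (((gZ ((w i).g j)).continuous.measurable.comp measurable_fst).prodMk hτ))
    have hi2 : ∀ j, Integrable (fun p : Z × T2 =>
        chi (w i) j p.1 * F (gZ ((w i).g j) p.1, tau c i p.2)) m := by
      intro j
      refine hbi m _ 1 (hm2 j) fun p => ?_
      rw [abs_mul, abs_of_nonneg (ex_chi_nonneg _ _ _)]
      exact mul_le_one₀ (ex_chi_le _ _ _) (abs_nonneg _) (hF _)
    have e1 := H.main i F hFm hF
    set Er : Z → ℝ := fun z => (⋃ k, D i k)ᶜ.indicator 1 z +
      ∑ k, |chi (w i) k z - (D i k).indicator 1 z| with hEr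
    have hUm : MeasurableSet (⋃ k, D i k)ᶜ := (MeasurableSet.iUnion fun k => hDm i k).compl
    have hErm : Measurable Er :=
      (measurable_one.indicator hUm).add (Finset.measurable_sum _ fun k _ => hem i k)
    have hUi : Integrable (fun z => (⋃ k, D i k)ᶜ.indicator (1 : Z → ℝ) z) μ := by
      refine hbi μ _ 1 (measurable_one.indicator hUm) fun z => ?_
      by_cases hz : z ∈ (⋃ k, D i k)ᶜ
      · rw [Set.indicator_of_mem hz]; simp
      · rw [Set.indicator_of_notMem hz]; simp
    have hEri : Integrable Er μ := hUi.add (integrable_finsetSum _ fun k _ => hei i k)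
    have hErI : ∫ z, Er z ∂μ ≤ η := by
      rw [hEr, integral_add hUi (integrable_finsetSum _ fun k _ => hei i k),
        integral_finsetSum _ fun k _ => hei i k, integral_indicator_one hUm]
      have s0 : 0 ≤ ∑ k, ∫ z, |chi (w i) k z - (D i k).indicator 1 z| ∂μ :=
        Finset.sum_nonneg fun k _ => integral_nonneg fun z => abs_nonneg _
      have s1 := hDs i
      have s2 := hDc i
      have s3 : (0 : ℝ) ≤ (w i).n := Nat.cast_nonneg _
      nlinarith
    have hErm2 : Integrable (fun p : Z × T2 => Er p.1) m := by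
      have := (integrable_map_measure (μ := m) (f := Prod.fst) (g := Er)
        (by exact hErm.aestronglyMeasurable) measurable_fst.aemeasurable).1 hEri
      exact this
    have e2 : |∫ p, F (h i p.1, tau c i p.2) ∂m -
        ∑ j, ∫ p, chi (w i) j p.1 * F (gZ ((w i).g j) p.1, tau c i p.2) ∂m| ≤ η := by
      rw [← integral_finsetSum _ fun j _ => hi2 j, ← integral_sub hi1 (integrable_finsetSum _ fun j _ => hi2 j)]
      refine (abs_integral_le_integral_abs).trans ?_
      calc ∫ p, |F (h i p.1, tau c i p.2) -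
            ∑ j, chi (w i) j p.1 * F (gZ ((w i).g j) p.1, tau c i p.2)| ∂m
          ≤ ∫ p, Er p.1 ∂m := by
            refine integral_mono (hi1.sub (integrable_finsetSum _ fun j _ => hi2 j)).abs hErm2
              fun p => ?_
            refine ex_pt (w i) (D i) (hDd i) p.1 _ _ (hF _) (fun k => hF _) fun k hk => ?_
            rw [hDh i k p.1 hk]
        _ = ∫ z, Er z ∂μ := hfst Er hErm
        _ ≤ η := hErI
    calc _ ≤ |∫ p, F p ∂m - ∫ p, F (h i p.1, tau c i p.2) ∂m| +
          |∫ p, F (h i p.1, tau c i p.2) ∂m -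
          ∑ j, ∫ p, chi (w i) j p.1 * F (gZ ((w i).g j) p.1, tau c i p.2) ∂m| := abs_sub_le _ _ _
      _ ≤ ε₀ + η := add_le_add e1 e2
      _ = ε := by rw [hηd]; ring
  · -- part
    intro i
    change ∫ p, dfc (w i) p.1 ∂m ≤ ε
    have hdm : Measurable (dfc (w i)) := by
      unfold dfc
      refine (Finset.measurable_sum _ fun k _ => (ex_chi_meas _ k).mul
        (measurable_const.sub (ex_chi_meas _ k))).add
        (Finset.measurable_sum _ fun j _ => Finset.measurable_sum _ fun k _ => ?_)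
      by_cases hjk : j = k
      · simp only [hjk, if_true]
        exact measurable_const
      · simp only [hjk, if_false]
        exact (ex_chi_meas _ j).mul (ex_chi_meas _ k)
    rw [hfst _ hdm]
    have hsi : Integrable (fun z => (∑ k, |chi (w i) k z - (D i k).indicator 1 z|) *
        (2 * (w i).n + 1)) μ := (integrable_finsetSum _ fun k _ => hei i k).mul_const _
    have hd0 : ∀ z, 0 ≤ dfc (w i) z := by
      intro z
      unfold dfc
      refine add_nonneg (Finset.sum_nonneg fun k _ => mul_nonneg (ex_chi_nonneg _ _ _)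
        (sub_nonneg.2 (ex_chi_le _ _ _))) (Finset.sum_nonneg fun j _ => Finset.sum_nonneg fun k _ => ?_)
      split_ifs
      · exact le_rfl
      · exact mul_nonneg (ex_chi_nonneg _ _ _) (ex_chi_nonneg _ _ _)
    have hdi : Integrable (dfc (w i)) μ := by
      refine hsi.mono' hdm.aestronglyMeasurable (Filter.Eventually.of_forall fun z => ?_)
      rw [Real.norm_eq_abs, abs_of_nonneg (hd0 z)]
      exact ex_dfc (w i) (D i) (hDd i) z
    calc ∫ z, dfc (w i) z ∂μ ≤ ∫ z, (∑ k, |chi (w i) k z - (D i k).indicator 1 z|) *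
          (2 * (w i).n + 1) ∂μ := integral_mono hdi hsi fun z => ex_dfc (w i) (D i) (hDd i) z
      _ = (∑ k, ∫ z, |chi (w i) k z - (D i k).indicator 1 z| ∂μ) * (2 * (w i).n + 1) := by
          rw [integral_mul_const, integral_finsetSum _ fun k _ => hei i k]
      _ ≤ η / 2 := hDs i
      _ ≤ ε := by rw [hηd]; linarith
  · -- psi
    intro l
    change ∫ p, ‖denseSeq C(Z, ℂ) (kψ l) p.1 - ee l p.2‖ ∂m ≤ ε
    have hψm := H.psim l
    have hem : Measurable fun p : Z × T2 => ee l p.2 := by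
      have h3 : Continuous (ee l) := by
        unfold ee
        fin_cases l
        · change Continuous fun x : T2 => (x.1.toCircle : ℂ)
          exact continuous_subtype_val.comp (AddCircle.continuous_toCircle.comp continuous_fst)
        · change Continuous fun x : T2 => (x.2.toCircle : ℂ)
          exact continuous_subtype_val.comp (AddCircle.continuous_toCircle.comp continuous_snd)
      exact h3.measurable.comp measurable_snd
    have heb : ∀ p : Z × T2, ‖ee l p.2‖ ≤ 1 := by
      intro p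
      unfold ee
      fin_cases l
      · exact (Circle.norm_coe _).le
      · exact (Circle.norm_coe _).le
    have hdc : Measurable (fun z => denseSeq C(Z, ℂ) (kψ l) z) :=
      (denseSeq C(Z, ℂ) (kψ l)).continuous.measurable
    have hm1 : Measurable fun z => ‖denseSeq C(Z, ℂ) (kψ l) z - ψ l z‖ := (hdc.sub hψm).norm
    have hdb : ∃ C' : ℝ, ∀ z, ‖denseSeq C(Z, ℂ) (kψ l) z‖ ≤ C' :=
      ⟨‖denseSeq C(Z, ℂ) (kψ l)‖, fun z => ContinuousMap.norm_coe_le_norm _ z⟩
    obtain ⟨C', hC'⟩ := hdb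
    have i1 : Integrable (fun p : Z × T2 => ‖denseSeq C(Z, ℂ) (kψ l) p.1 - ψ l p.1‖) m := by
      refine hbi m _ (C' + C) (hm1.comp measurable_fst) fun p => ?_
      rw [abs_of_nonneg (norm_nonneg _)]
      exact (norm_sub_le _ _).trans (add_le_add (hC' _) (hC l _))
    have i2 : Integrable (fun p : Z × T2 => ‖ψ l p.1 - ee l p.2‖) m := by
      refine hbi m _ (C + 1) (((hψm.comp measurable_fst).sub hem).norm) fun p => ?_
      rw [abs_of_nonneg (norm_nonneg _)]
      exact (norm_sub_le _ _).trans (add_le_add (hC l _) (heb p))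
    have i3 : Integrable (fun p : Z × T2 => ‖denseSeq C(Z, ℂ) (kψ l) p.1 - ee l p.2‖) m := by
      refine hbi m _ (C' + 1) (((hdc.comp measurable_fst).sub hem).norm) fun p => ?_
      rw [abs_of_nonneg (norm_nonneg _)]
      exact (norm_sub_le _ _).trans (add_le_add (hC' _) (heb p))
    calc ∫ p, ‖denseSeq C(Z, ℂ) (kψ l) p.1 - ee l p.2‖ ∂m
        ≤ ∫ p, (‖denseSeq C(Z, ℂ) (kψ l) p.1 - ψ l p.1‖ + ‖ψ l p.1 - ee l p.2‖) ∂m :=
          integral_mono i3 (i1.add i2) fun p => norm_sub_le_norm_sub_add_norm_sub _ _ _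
      _ = ∫ p, ‖denseSeq C(Z, ℂ) (kψ l) p.1 - ψ l p.1‖ ∂m + ∫ p, ‖ψ l p.1 - ee l p.2‖ ∂m :=
          integral_add i1 i2
      _ ≤ η + ε₀ := by
          rw [hfst (fun z => ‖denseSeq C(Z, ℂ) (kψ l) z - ψ l z‖) hm1]
          exact add_le_add (hkψ l) (H.psi l)
      _ = ε := by rw [hηd]; ring
  · -- inv
    intro j F
    have h3 := H.inv j
    have e1 : ∫ p, F (gZ j p.1) ∂m = ∫ z, F (gZ j z) ∂μ :=
      hfst (fun z => F (gZ j z)) (F.continuous.comp (gZ j).continuous).measurable
    have e2 : ∫ p, F p.1 ∂m = ∫ z, F z ∂μ := hfst F F.continuous.measurable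
    rw [e1, e2]
    conv_rhs => rw [hμ, ← h3, integral_map (gZ j).continuous.measurable.aemeasurable
      F.continuous.measurable.aestronglyMeasurable]

end Pool.CAR
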