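import Pool.Agent.CAR.Burger

/-!
# CAR module Rig: rigidity

PAPER PROOF. `exists_left_inv`. Enumerate `ι` (`Encodable`), `C_j = {z | h z = gZ j z and j is the
first such index}`: a Borel partition of `Z`. `D_j = gZ j (C_j)`, `μ(D_j) = μ(C_j)`. For `w ∈ ⋃ D_j` let
`j(w)` be the first index with `w ∈ D_j` and `l(w) = (gZ j(w))⁻¹ w`; `l(w) = w` otherwise; `l` is Borel.
Let `B = {z | l (h z) ≠ z}`. If `z ∈ B ∩ C_j` then `h z = gZ j z ∈ D_j` and `j(h z) < j`, so
`gZ j (B ∩ C_j) ⊆ D_j \ D*_j`, `D*_j = D_j \ ⋃_{i<j} D_i`. Therefore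
`μ(B) = ∑ μ(B∩C_j) = ∑ μ(gZ j (B∩C_j)) ≤ ∑ (μ(D_j) - μ(D*_j)) = 1 - μ(⋃ D_j)`, and with
`S = ⋃ D_j = h(Z)`: `h⁻¹ S = Z`, so `1 - μ(S) ≤ ε`.

`rigidity`. Let `μ` be the common first marginal, `k = m.condKernel`, `k' = m'.condKernel`
(kernels from `Z` to `T2`; `m = μ ⊗ₘ k`, `m' = μ ⊗ₘ k'`), `M = μ ⊗ₘ (k ×ₖ k')` the relatively independent
joining (a probability measure on `Z × (T2 × T2)`), and `ν` the law of `x - x'` under `M`.
`hinv` for `h i` follows from `Inn.main` with `F` an indicator function depending on `z` only; take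
`l = l_i` from `exists_left_inv` (`ε`), `B = {z | l (h z) ≠ z}`, `μ(B) ≤ ε`.
Claim: for Borel `f : T2 → ℝ`, `|f| ≤ 1`, and `τ = tau c i`, `τ' = tau c' i`:
`|∫ f(τ x - τ' x') dM - ∫ f(x - x') dM| ≤ 7ε`. Proof:
1. `g(w,x) = ∫ f(x - x') k'_w(dx')` is Borel, `|g| ≤ 1`, `∫ f(x-x') dM = ∫ g dm`, and by `H.main`
   `|∫ g dm - ∫ g(h z, τ x) dm| ≤ ε`; `Q := ∫ g(h z, τ x) dm = ∫∫∫ f(τx - x') k'_{hz}(dx') k_z(dx) dμ`.
2. `G(w,x') = ∫ f(τ x - x') k_{l(w)}(dx)`, `Ξ(w) = ∫ G(w,x') k'_w(dx')`. For `z ∉ B`: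
   `Ξ(h z) = ∫∫ f(τx - x') k_z(dx) k'_{hz}(dx')`. So `|Q - ∫ Ξ(h z) dμ| ≤ 2ε`.
3. `|∫ Ξ(h z) dμ - ∫ Ξ dμ| ≤ ε` (`H.main` for a function of `z`).
4. `∫ Ξ dμ = ∫ G dm'` and by `H'.main` `|∫ G dm' - ∫ G(h z, τ' x') dm'| ≤ ε`.
5. `∫ G(h z, τ' x') dm' = ∫∫∫ f(τx - τ'x') k_{l(hz)}(dx) k'_z(dx') dμ`, and this differs by at most
   `2ε` from `∫ f(τx - τ'x') dM`.
For `i = 0, 1`: `τ x - τ' x' = hA (x - x')` resp. `hB (x - x')`: `ν` satisfies the hypotheses `h0`, `h1`
of `burger` with `η = 7ε`. By `psi`, `∫ ‖ee l x - ee l x'‖ dM ≤ 2ε`, and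
`‖ee l x - ee l x'‖ = ‖ee l (x - x') - 1‖`, so by Markov `ν{‖ee l - 1‖ ≥ 1/2} ≤ 4ε`, `θ = 8ε`.
So `ν{0} ≥ 1 - 40ε - 28ε = 1 - 68ε`. For `i = 2`: `τ x - τ' x' = (x - x') + (c - c', 0)`; with `f` the
indicator function of `{0}`: `ν{(c'-c, 0)} ≥ ν{0} - 7ε`. If `c ≠ c'` the two points are different and
`1 ≥ 2 - 143ε`, a contradiction to `ε ≤ 1/200`.
-/

open MeasureTheory Topology

namespace Pool.CAR

open ProbabilityTheory

variable {ι Z : Type} [TopologicalSpace Z] [CompactSpace Z] [TopologicalSpace.MetrizableSpace Z]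
  [MeasurableSpace Z] [BorelSpace Z]

theorem exists_left_inv [Countable ι] (gZ : ι → (Z ≃ₜ Z)) (μ : Measure Z)
    [IsProbabilityMeasure μ] (hinv : ∀ j, μ.map (gZ j) = μ) (h : Z → Z) (hm : Measurable h)
    (hh : ∀ z, ∃ j, h z = gZ j z) (ε : ℝ)
    (hε : ∀ S, MeasurableSet S → |μ.real (h ⁻¹' S) - μ.real S| ≤ ε) :
    ∃ l : Z → Z, Measurable l ∧ μ.real {z | l (h z) ≠ z} ≤ ε := by
  classical
  obtain ⟨z₀⟩ := nonempty_of_isProbabilityMeasure μ
  have : Nonempty ι := ⟨(hh z₀).choose⟩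
  obtain ⟨e, he⟩ := exists_surjective_nat ι
  have hgm : ∀ j, Measurable (gZ j) := fun j => (gZ j).continuous.measurable
  have hgm' : ∀ j, Measurable (gZ j).symm := fun j => (gZ j).symm.continuous.measurable
  have hp : ∀ z, ∃ n, h z = gZ (e n) z := by
    intro z
    obtain ⟨j, hj⟩ := hh z
    obtain ⟨n, rfl⟩ := he j
    exact ⟨n, hj⟩
  obtain ⟨J, hJm, hJ⟩ : ∃ J : Z → ℕ, Measurable J ∧ ∀ z, h z = gZ (e (J z)) z :=
    ⟨fun z => Nat.find (hp z), measurable_find hp fun n => measurableSet_eq_fun hm (hgm _),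
      fun z => Nat.find_spec (hp z)⟩
  obtain ⟨D, hDdef⟩ : ∃ D : ℕ → Set Z, ∀ n, D n = (gZ (e n)).symm ⁻¹' (J ⁻¹' {n}) :=
    ⟨_, fun _ => rfl⟩
  have hC : ∀ n, MeasurableSet (J ⁻¹' {n}) := fun n => hJm (measurableSet_singleton n)
  have hD : ∀ n, MeasurableSet (D n) := fun n => by
    rw [hDdef]
    exact hgm' _ (hC n)
  obtain ⟨S, hSdef⟩ : ∃ S : Set Z, S = ⋃ n, D n := ⟨_, rfl⟩
  have hS : MeasurableSet S := by
    rw [hSdef]
    exact MeasurableSet.iUnion hD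
  have hq : ∀ w, ∃ n, w ∈ D n ∨ w ∉ S := by
    intro w
    by_cases hw : w ∈ S
    · rw [hSdef] at hw
      obtain ⟨n, hn⟩ := Set.mem_iUnion.1 hw
      exact ⟨n, Or.inl hn⟩
    · exact ⟨0, Or.inr hw⟩
  obtain ⟨N, hNm, hN⟩ : ∃ N : Z → ℕ, Measurable N ∧ ∀ w ∈ S, w ∈ D (N w) :=
    ⟨fun w => Nat.find (hq w), measurable_find hq fun n => (hD n).union hS.compl,
      fun w hw => (Nat.find_spec (hq w)).resolve_right (fun h => h hw)⟩
  have hl : Measurable fun w => (gZ (e (N w))).symm w := by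
    have h1 : Measurable fun p : ℕ × Z => (gZ (e p.1)).symm p.2 :=
      measurable_from_prod_countable_right fun n => hgm' (e n)
    exact h1.comp (hNm.prodMk measurable_id)
  refine ⟨fun w => (gZ (e (N w))).symm w, hl, ?_⟩
  obtain ⟨B, hBdef⟩ : ∃ B : Set Z, B = {z | (gZ (e (N (h z)))).symm (h z) ≠ z} := ⟨_, rfl⟩
  rw [← hBdef]
  have hB : MeasurableSet B := by
    rw [hBdef]
    exact (measurableSet_eq_fun (hl.comp hm) measurable_id).compl
  have hSu : h ⁻¹' S = Set.univ := by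
    ext z
    simp only [Set.mem_preimage, Set.mem_univ, iff_true]
    rw [hSdef]
    refine Set.mem_iUnion.2 ⟨J z, ?_⟩
    rw [hDdef]
    have h1 : (gZ (e (J z))).symm (h z) = z := by
      rw [hJ z, Homeomorph.symm_apply_apply]
    change J ((gZ (e (J z))).symm (h z)) = J z
    rw [h1]
  have hmap : ∀ j (A : Set Z), MeasurableSet A → μ ((gZ j).symm ⁻¹' A) = μ A := by
    intro j A hA
    have h1 : μ.map (gZ j) ((gZ j).symm ⁻¹' A) = μ A := by
      rw [Measure.map_apply (hgm j) (hgm' j hA)]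
      congr 1
      ext z
      simp
    rw [hinv] at h1
    exact h1
  have key : ∀ n, μ (B ∩ J ⁻¹' {n}) + μ (S ∩ N ⁻¹' {n}) ≤ μ (J ⁻¹' {n}) := by
    intro n
    rw [← hmap (e n) _ (hB.inter (hC n)), ← hmap (e n) _ (hC n), ← hDdef, ← measure_union]
    · refine measure_mono ?_
      rintro w (hw | hw)
      · rw [hDdef]
        exact hw.2
      · have h1 := hN w hw.1
        have h2 : N w = n := hw.2
        rwa [h2] at h1
    · rw [Set.disjoint_left]
      rintro w ⟨hw1, hw2⟩ ⟨hw3, hw4⟩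
      have e1 : J ((gZ (e n)).symm w) = n := hw2
      have e2 : N w = n := hw4
      have e3 : h ((gZ (e n)).symm w) = w := by
        rw [hJ, e1, Homeomorph.apply_symm_apply]
      rw [hBdef] at hw1
      have e4 : (gZ (e (N (h ((gZ (e n)).symm w))))).symm (h ((gZ (e n)).symm w)) ≠
        (gZ (e n)).symm w := hw1
      rw [e3, e2] at e4
      exact e4 rfl
    · exact hS.inter (hNm (measurableSet_singleton n))
  have h1 : μ B ≤ ∑' n, μ (B ∩ J ⁻¹' {n}) := by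
    refine le_trans (measure_mono ?_) (measure_iUnion_le _)
    intro z hz
    exact Set.mem_iUnion.2 ⟨J z, hz, rfl⟩
  have h2 : μ S ≤ ∑' n, μ (S ∩ N ⁻¹' {n}) := by
    refine le_trans (measure_mono ?_) (measure_iUnion_le _)
    intro z hz
    exact Set.mem_iUnion.2 ⟨N z, hz, rfl⟩
  have h3 : ∑' n, μ (J ⁻¹' {n}) = 1 := by
    rw [← measure_iUnion _ hC]
    · rw [show (⋃ n, J ⁻¹' {n}) = Set.univ from ?_, measure_univ]
      ext z
      simp
    · intro a b hab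
      refine Set.disjoint_left.2 fun z hz hz' => hab ?_
      have e1 : J z = a := hz
      have e2 : J z = b := hz'
      rw [← e1, e2]
  have h4 : μ B + μ S ≤ 1 := by
    calc μ B + μ S ≤ ∑' n, μ (B ∩ J ⁻¹' {n}) + ∑' n, μ (S ∩ N ⁻¹' {n}) := add_le_add h1 h2
      _ = ∑' n, (μ (B ∩ J ⁻¹' {n}) + μ (S ∩ N ⁻¹' {n})) := ENNReal.tsum_add.symm
      _ ≤ ∑' n, μ (J ⁻¹' {n}) := ENNReal.tsum_le_tsum key
      _ = 1 := h3
  have h5 : μ.real B + μ.real S ≤ 1 := by
    have h6 := ENNReal.toReal_mono ENNReal.one_ne_top h4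
    rw [ENNReal.toReal_add (measure_ne_top _ _) (measure_ne_top _ _), ENNReal.toReal_one] at h6
    exact h6
  have h7 := hε S hS
  rw [hSu, probReal_univ] at h7
  have h8 := (abs_le.1 h7).2
  linarith

section est

variable {Z : Type} [MeasurableSpace Z]

theorem rig_int {α : Type*} [MeasurableSpace α] (μ : Measure α) [IsFiniteMeasure μ] {f : α → ℝ}
    (hf : Measurable f) (h0 : ∀ x, 0 ≤ f x) (h1 : ∀ x, f x ≤ 1) : Integrable f μ :=
  Integrable.of_bound hf.aestronglyMeasurable 1 (Filter.Eventually.of_forall fun x => by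
    rw [Real.norm_eq_abs, abs_of_nonneg (h0 x)]
    exact h1 x)

theorem rig_int01 {α : Type*} [MeasurableSpace α] (μ : Measure α) [IsProbabilityMeasure μ]
    {f : α → ℝ} (hf : Measurable f) (h0 : ∀ x, 0 ≤ f x) (h1 : ∀ x, f x ≤ 1) :
    0 ≤ ∫ x, f x ∂μ ∧ ∫ x, f x ∂μ ≤ 1 := by
  refine ⟨integral_nonneg h0, ?_⟩
  have h2 := integral_mono (rig_int μ hf h0 h1) (integrable_const (1 : ℝ)) h1
  simpa using h2

theorem rig_diff (μ : Measure Z) [IsProbabilityMeasure μ] {u v : Z → ℝ} (hu : Measurable u)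
    (hv : Measurable v) (hu0 : ∀ z, 0 ≤ u z) (hu1 : ∀ z, u z ≤ 1) (hv0 : ∀ z, 0 ≤ v z)
    (hv1 : ∀ z, v z ≤ 1) {B : Set Z} (hB : MeasurableSet B) (h : ∀ z, z ∉ B → u z = v z) :
    |∫ z, u z ∂μ - ∫ z, v z ∂μ| ≤ μ.real B := by
  have iu := rig_int μ hu hu0 hu1
  have iv := rig_int μ hv hv0 hv1
  rw [← integral_sub iu iv]
  refine (abs_integral_le_integral_abs).trans ?_
  have h2 : ∫ z, B.indicator (fun _ => (1 : ℝ)) z ∂μ = μ.real B := by
    rw [integral_indicator_const _ hB, smul_eq_mul, mul_one]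
  rw [← h2]
  refine integral_mono (iu.sub iv).abs ((integrable_const (1 : ℝ)).indicator hB) fun z => ?_
  by_cases hz : z ∈ B
  · rw [Set.indicator_of_mem hz]
    change |u z - v z| ≤ 1
    rw [abs_le]
    constructor <;> linarith [hu0 z, hu1 z, hv0 z, hv1 z]
  · rw [Set.indicator_of_notMem hz]
    change |u z - v z| ≤ 0
    rw [h z hz]
    simp

variable (μ : Measure Z) [IsProbabilityMeasure μ] (k k' : Kernel Z T2) [IsMarkovKernel k]
  [IsMarkovKernel k']

theorem rig_meas {φ : T2 × T2 → ℝ} (hφ : Measurable φ) {a b : Z → Z} (ha : Measurable a)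
    (hb : Measurable b) : Measurable fun z => ∫ q, φ q ∂((k (a z)).prod (k' (b z))) := by
  have h1 : StronglyMeasurable fun z => ∫ q, φ q ∂(((k.comap a ha) ×ₖ (k'.comap b hb)) z) :=
    hφ.stronglyMeasurable.integral_kernel
  have h2 : (fun z => ∫ q, φ q ∂(((k.comap a ha) ×ₖ (k'.comap b hb)) z)) =
      fun z => ∫ q, φ q ∂((k (a z)).prod (k' (b z))) := by
    funext z
    rw [Kernel.prod_apply, Kernel.comap_apply, Kernel.comap_apply]
  rw [h2] at h1
  exact h1.measurable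

theorem rig_g {φ : T2 × T2 → ℝ} (hφ : Measurable φ) {s : Z → Z} (hs : Measurable s) :
    Measurable fun p : Z × T2 => ∫ x', φ (p.2, x') ∂(k' (s p.1)) := by
  have h0 : Measurable fun p : Z × T2 => s p.1 := hs.comp measurable_fst
  have h1 : StronglyMeasurable fun p : Z × T2 =>
      ∫ x', φ (p.2, x') ∂((k'.comap _ h0) p) := by
    refine StronglyMeasurable.integral_kernel_prod_right (f := fun (p : Z × T2) x' => φ (p.2, x'))
      (Measurable.stronglyMeasurable ?_)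
    exact hφ.comp ((measurable_snd.comp measurable_fst).prodMk measurable_snd)
  exact h1.measurable

theorem rig_I1 {φ : T2 × T2 → ℝ} (hφ : Measurable φ) (h0 : ∀ q, 0 ≤ φ q) (h1 : ∀ q, φ q ≤ 1)
    {s : Z → Z} (hs : Measurable s) :
    ∫ p, (∫ x', φ (p.2, x') ∂(k' (s p.1))) ∂(μ ⊗ₘ k) =
      ∫ z, ∫ q, φ q ∂((k z).prod (k' (s z))) ∂μ := by
  have hb : ∀ p : Z × T2, 0 ≤ ∫ x', φ (p.2, x') ∂(k' (s p.1)) ∧
      ∫ x', φ (p.2, x') ∂(k' (s p.1)) ≤ 1 := fun p =>
    rig_int01 _ (hφ.comp (measurable_const.prodMk measurable_id)) (fun _ => h0 _) (fun _ => h1 _)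
  rw [Measure.integral_compProd (rig_int _ (rig_g k' hφ hs) (fun p => (hb p).1)
    (fun p => (hb p).2))]
  refine integral_congr_ae (Filter.Eventually.of_forall fun z => ?_)
  exact (integral_prod (μ := k z) (ν := k' (s z)) φ (rig_int _ hφ h0 h1)).symm

theorem rig_I2 {φ : T2 × T2 → ℝ} (hφ : Measurable φ) (h0 : ∀ q, 0 ≤ φ q) (h1 : ∀ q, φ q ≤ 1)
    {a : Z → Z} (ha : Measurable a) :
    ∫ p, (∫ x, φ (x, p.2) ∂(k (a p.1))) ∂(μ ⊗ₘ k') =
      ∫ z, ∫ q, φ q ∂((k (a z)).prod (k' z)) ∂μ := by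
  have hb : ∀ p : Z × T2, 0 ≤ ∫ x, φ (x, p.2) ∂(k (a p.1)) ∧
      ∫ x, φ (x, p.2) ∂(k (a p.1)) ≤ 1 := fun p =>
    rig_int01 _ (hφ.comp (measurable_id.prodMk measurable_const)) (fun _ => h0 _) (fun _ => h1 _)
  have hm : Measurable fun p : Z × T2 => ∫ x, φ (x, p.2) ∂(k (a p.1)) :=
    rig_g k (φ := fun q => φ q.swap) (hφ.comp measurable_swap) ha
  rw [Measure.integral_compProd (rig_int _ hm (fun p => (hb p).1) (fun p => (hb p).2))]
  refine integral_congr_ae (Filter.Eventually.of_forall fun z => ?_)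
  exact (integral_prod_symm (μ := k (a z)) (ν := k' z) φ (rig_int _ hφ h0 h1)).symm

/-- One generator: the law of `x - x'` is almost invariant. -/
theorem rig_one {h l : Z → Z} (hh : Measurable h) (hl : Measurable l) {τ τ' : T2 → T2}
    (hτ : Measurable τ) (hτ' : Measurable τ') {ε : ℝ}
    (hB : μ.real {z | l (h z) ≠ z} ≤ ε) (hBm : MeasurableSet {z | l (h z) ≠ z})
    (H : ∀ F : Z × T2 → ℝ, Measurable F → (∀ p, |F p| ≤ 1) →
      |∫ p, F p ∂(μ ⊗ₘ k) - ∫ p, F (h p.1, τ p.2) ∂(μ ⊗ₘ k)| ≤ ε)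
    (H' : ∀ F : Z × T2 → ℝ, Measurable F → (∀ p, |F p| ≤ 1) →
      |∫ p, F p ∂(μ ⊗ₘ k') - ∫ p, F (h p.1, τ' p.2) ∂(μ ⊗ₘ k')| ≤ ε)
    {f : T2 → ℝ} (hf : Measurable f) (h0 : ∀ x, 0 ≤ f x) (h1 : ∀ x, f x ≤ 1) :
    |∫ z, ∫ q, f (τ q.1 - τ' q.2) ∂((k z).prod (k' z)) ∂μ -
      ∫ z, ∫ q, f (q.1 - q.2) ∂((k z).prod (k' z)) ∂μ| ≤ 5 * ε := by
  have hφ1 : Measurable fun q : T2 × T2 => f (q.1 - q.2) :=
    hf.comp (measurable_fst.sub measurable_snd)
  have hφ2 : Measurable fun q : T2 × T2 => f (τ q.1 - q.2) :=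
    hf.comp ((hτ.comp measurable_fst).sub measurable_snd)
  have hφ3 : Measurable fun q : T2 × T2 => f (τ q.1 - τ' q.2) :=
    hf.comp ((hτ.comp measurable_fst).sub (hτ'.comp measurable_snd))
  have habs : ∀ r : ℝ, 0 ≤ r → r ≤ 1 → |r| ≤ 1 := fun r h h' => by rwa [abs_of_nonneg h]
  -- step 1
  have s1 := H (fun p => ∫ x', f (p.2 - x') ∂(k' p.1)) (rig_g k' hφ1 measurable_id) (fun p => by
    have := rig_int01 (k' p.1) (f := fun x' => f (p.2 - x'))
      (hf.comp (measurable_const.sub measurable_id)) (fun _ => h0 _) (fun _ => h1 _)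
    exact habs _ this.1 this.2)
  have e1 : ∫ p, (∫ x', f (p.2 - x') ∂(k' p.1)) ∂(μ ⊗ₘ k) =
      ∫ z, ∫ q, f (q.1 - q.2) ∂((k z).prod (k' z)) ∂μ :=
    rig_I1 μ k k' hφ1 (fun _ => h0 _) (fun _ => h1 _) measurable_id
  have e2 : ∫ p, (∫ x', f (τ p.2 - x') ∂(k' (h p.1))) ∂(μ ⊗ₘ k) =
      ∫ z, ∫ q, f (τ q.1 - q.2) ∂((k z).prod (k' (h z))) ∂μ :=
    rig_I1 μ k k' hφ2 (fun _ => h0 _) (fun _ => h1 _) hh
  -- the function `Ξ`
  have hΞ : Measurable fun w => ∫ q, f (τ q.1 - q.2) ∂((k (l w)).prod (k' w)) :=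
    rig_meas k k' hφ2 hl measurable_id
  have hΞb : ∀ w, 0 ≤ ∫ q, f (τ q.1 - q.2) ∂((k (l w)).prod (k' w)) ∧
      ∫ q, f (τ q.1 - q.2) ∂((k (l w)).prod (k' w)) ≤ 1 := fun w =>
    rig_int01 _ hφ2 (fun _ => h0 _) (fun _ => h1 _)
  -- step 2
  have s2 := rig_diff μ (u := fun z => ∫ q, f (τ q.1 - q.2) ∂((k z).prod (k' (h z))))
    (v := fun z => ∫ q, f (τ q.1 - q.2) ∂((k (l (h z))).prod (k' (h z))))
    (rig_meas k k' hφ2 measurable_id hh) (rig_meas k k' hφ2 (hl.comp hh) hh)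
    (fun z => (rig_int01 _ hφ2 (fun _ => h0 _) (fun _ => h1 _)).1)
    (fun z => (rig_int01 _ hφ2 (fun _ => h0 _) (fun _ => h1 _)).2)
    (fun z => (rig_int01 _ hφ2 (fun _ => h0 _) (fun _ => h1 _)).1)
    (fun z => (rig_int01 _ hφ2 (fun _ => h0 _) (fun _ => h1 _)).2) hBm (fun z hz => by
      have h3 : l (h z) = z := by
        by_contra h4
        exact hz h4
      simp only [h3])
  -- step 3
  have s3 := H (fun p => ∫ q, f (τ q.1 - q.2) ∂((k (l p.1)).prod (k' p.1)))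
    (hΞ.comp measurable_fst) (fun p => habs _ (hΞb p.1).1 (hΞb p.1).2)
  have e3 : ∀ u : Z → ℝ, Measurable u → (∀ z, 0 ≤ u z) → (∀ z, u z ≤ 1) → ∀ κ : Kernel Z T2,
      IsMarkovKernel κ → ∫ p, u p.1 ∂(μ ⊗ₘ κ) = ∫ z, u z ∂μ := by
    intro u hu hu0 hu1 κ hκ
    have hm : Measurable fun p : Z × T2 => u p.1 := hu.comp measurable_fst
    rw [Measure.integral_compProd (rig_int _ hm (fun _ => hu0 _) (fun _ => hu1 _))]
    simp
  have e4 := e3 _ hΞ (fun w => (hΞb w).1) (fun w => (hΞb w).2) k inferInstance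
  have e5 := e3 _ (hΞ.comp hh) (fun w => (hΞb (h w)).1) (fun w => (hΞb (h w)).2) k inferInstance
  simp only [Function.comp_apply] at e5
  -- step 4
  have s4 := H' (fun p => ∫ x, f (τ x - p.2) ∂(k (l p.1)))
    (rig_g k (φ := fun q => f (τ q.2 - q.1)) (hφ2.comp measurable_swap) hl) (fun p => by
      have := rig_int01 (k (l p.1)) (f := fun x => f (τ x - p.2))
        (hf.comp (hτ.sub measurable_const)) (fun _ => h0 _) (fun _ => h1 _)
      exact habs _ this.1 this.2)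
  have e6 : ∫ p, (∫ x, f (τ x - p.2) ∂(k (l p.1))) ∂(μ ⊗ₘ k') =
      ∫ z, ∫ q, f (τ q.1 - q.2) ∂((k (l z)).prod (k' z)) ∂μ :=
    rig_I2 μ k k' hφ2 (fun _ => h0 _) (fun _ => h1 _) hl
  have e7 : ∫ p, (∫ x, f (τ x - τ' p.2) ∂(k (l (h p.1)))) ∂(μ ⊗ₘ k') =
      ∫ z, ∫ q, f (τ q.1 - τ' q.2) ∂((k (l (h z))).prod (k' z)) ∂μ :=
    rig_I2 μ k k' hφ3 (fun _ => h0 _) (fun _ => h1 _) (hl.comp hh)
  -- step 5
  have s5 := rig_diff μ (u := fun z => ∫ q, f (τ q.1 - τ' q.2) ∂((k (l (h z))).prod (k' z)))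
    (v := fun z => ∫ q, f (τ q.1 - τ' q.2) ∂((k z).prod (k' z)))
    (rig_meas k k' hφ3 (hl.comp hh) measurable_id) (rig_meas k k' hφ3 measurable_id measurable_id)
    (fun z => (rig_int01 _ hφ3 (fun _ => h0 _) (fun _ => h1 _)).1)
    (fun z => (rig_int01 _ hφ3 (fun _ => h0 _) (fun _ => h1 _)).2)
    (fun z => (rig_int01 _ hφ3 (fun _ => h0 _) (fun _ => h1 _)).1)
    (fun z => (rig_int01 _ hφ3 (fun _ => h0 _) (fun _ => h1 _)).2) hBm (fun z hz => by
      have h3 : l (h z) = z := by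
        by_contra h4
        exact hz h4
      simp only [h3])
  simp only at s1 s2 s3 s4 s5
  rw [e1, e2] at s1
  rw [e4, e5] at s3
  rw [e6, e7] at s4
  have t1 := abs_le.1 s1
  have t2 := abs_le.1 (s2.trans hB)
  have t3 := abs_le.1 s3
  have t4 := abs_le.1 s4
  have t5 := abs_le.1 (s5.trans hB)
  rw [abs_le]
  constructor <;> linarith [t1.1, t1.2, t2.1, t2.2, t3.1, t3.2, t4.1, t4.2, t5.1, t5.2]


/-- Integrals over the relatively independent joining. -/
theorem rig_joint {φ : T2 × T2 → ℝ} (hφ : Measurable φ) (h0 : ∀ q, 0 ≤ φ q) (h1 : ∀ q, φ q ≤ 1) :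
    ∫ p, φ p.2 ∂(μ ⊗ₘ (k ×ₖ k')) = ∫ z, ∫ q, φ q ∂((k z).prod (k' z)) ∂μ := by
  have hm : Measurable fun p : Z × (T2 × T2) => φ p.2 := hφ.comp measurable_snd
  rw [Measure.integral_compProd (rig_int _ hm (fun _ => h0 _) (fun _ => h1 _))]
  refine integral_congr_ae (Filter.Eventually.of_forall fun z => ?_)
  simp only [Kernel.prod_apply]

/-- The law of `d (x, x')`. -/
theorem rig_nu {S : Set T2} (hS : MeasurableSet S) {d : T2 × T2 → T2} (hd : Measurable d) :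
    ((μ ⊗ₘ (k ×ₖ k')).map (fun p => d p.2)).real S =
      ∫ z, ∫ q, S.indicator (fun _ => (1 : ℝ)) (d q) ∂((k z).prod (k' z)) ∂μ := by
  have hd' : Measurable fun p : Z × (T2 × T2) => d p.2 := hd.comp measurable_snd
  have hφ : Measurable fun q : T2 × T2 => S.indicator (fun _ => (1 : ℝ)) (d q) :=
    (measurable_const.indicator hS).comp hd
  rw [← rig_joint μ k k' hφ (fun q => Set.indicator_nonneg (fun _ _ => zero_le_one) _)
    (fun q => Set.indicator_le_self' (fun _ _ => zero_le_one) _)]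
  have h1 : ∫ x, S.indicator (fun _ => (1 : ℝ)) x ∂((μ ⊗ₘ (k ×ₖ k')).map (fun p => d p.2)) =
      ((μ ⊗ₘ (k ×ₖ k')).map (fun p => d p.2)).real S := by
    rw [integral_indicator_const _ hS, smul_eq_mul, mul_one]
  rw [← h1, integral_map hd'.aemeasurable
    (measurable_const.indicator hS).aestronglyMeasurable]

theorem rig_bd {α : Type*} [MeasurableSpace α] (μ : Measure α) [IsFiniteMeasure μ] {f : α → ℝ}
    (hf : Measurable f) {C : ℝ} (hb : ∀ x, |f x| ≤ C) : Integrable f μ :=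
  Integrable.of_bound hf.aestronglyMeasurable C (Filter.Eventually.of_forall hb)

theorem rig_fst {F : Z × T2 → ℝ} (hF : Measurable F) {C : ℝ} (hb : ∀ p, |F p| ≤ C) :
    ∫ p, F (p.1, p.2.1) ∂(μ ⊗ₘ (k ×ₖ k')) = ∫ p, F p ∂(μ ⊗ₘ k) := by
  have hm : Measurable fun p : Z × (T2 × T2) => F (p.1, p.2.1) :=
    hF.comp (measurable_fst.prodMk (measurable_fst.comp measurable_snd))
  rw [Measure.integral_compProd (rig_bd _ hm (fun _ => hb _)),
    Measure.integral_compProd (rig_bd _ hF hb)]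
  refine integral_congr_ae (Filter.Eventually.of_forall fun z => ?_)
  simp only [Kernel.prod_apply]
  rw [integral_fun_fst (fun x => F (z, x))]
  simp

theorem rig_snd {F : Z × T2 → ℝ} (hF : Measurable F) {C : ℝ} (hb : ∀ p, |F p| ≤ C) :
    ∫ p, F (p.1, p.2.2) ∂(μ ⊗ₘ (k ×ₖ k')) = ∫ p, F p ∂(μ ⊗ₘ k') := by
  have hm : Measurable fun p : Z × (T2 × T2) => F (p.1, p.2.2) :=
    hF.comp (measurable_fst.prodMk (measurable_snd.comp measurable_snd))
  rw [Measure.integral_compProd (rig_bd _ hm (fun _ => hb _)),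
    Measure.integral_compProd (rig_bd _ hF hb)]
  refine integral_congr_ae (Filter.Eventually.of_forall fun z => ?_)
  simp only [Kernel.prod_apply]
  rw [integral_fun_snd (fun x => F (z, x))]
  simp

end est

theorem rig_continuous_ee (l : Fin 2) : Continuous (ee l) := by
  fin_cases l
  · exact continuous_subtype_val.comp (AddCircle.continuous_toCircle.comp continuous_fst)
  · exact continuous_subtype_val.comp (AddCircle.continuous_toCircle.comp continuous_snd)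

theorem rig_norm_ee (l : Fin 2) (x : T2) : ‖ee l x‖ = 1 := by
  fin_cases l
  · exact Circle.norm_coe _
  · exact Circle.norm_coe _

theorem rig_ee_mul (l : Fin 2) (x y : T2) : ee l (x + y) = ee l x * ee l y := by
  fin_cases l
  · change (((x + y).1.toCircle : Circle) : ℂ) = (x.1.toCircle : ℂ) * (y.1.toCircle : ℂ)
    rw [Prod.fst_add, AddCircle.toCircle_add, Circle.coe_mul]
  · change (((x + y).2.toCircle : Circle) : ℂ) = (x.2.toCircle : ℂ) * (y.2.toCircle : ℂ)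
    rw [Prod.snd_add, AddCircle.toCircle_add, Circle.coe_mul]

theorem rig_ee_diff (l : Fin 2) (x y : T2) : ‖ee l (x - y) - 1‖ = ‖ee l x - ee l y‖ := by
  have h1 := rig_ee_mul l (x - y) y
  rw [sub_add_cancel] at h1
  calc ‖ee l (x - y) - 1‖ = ‖ee l (x - y) - 1‖ * ‖ee l y‖ := by rw [rig_norm_ee, mul_one]
    _ = ‖ee l x - ee l y‖ := by rw [← norm_mul, sub_mul, one_mul, ← h1]

theorem rigidity [Countable ι] (gZ : ι → (Z ≃ₜ Z)) {h : Fin 3 → Z → Z} {ψ : Fin 2 → Z → ℂ}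
    {ε : ℝ} (hε : ε ≤ 1 / 200) {c c' : UnitAddCircle} {m m' : Measure (Z × T2)}
    [IsProbabilityMeasure m] [IsProbabilityMeasure m'] (H : Inn gZ h ψ ε c m)
    (H' : Inn gZ h ψ ε c' m') (he : m.map Prod.fst = m'.map Prod.fst) : c = c' := by
  obtain ⟨μ, hμ⟩ : ∃ μ : Measure Z, μ = m.map Prod.fst := ⟨_, rfl⟩
  have hμp : IsProbabilityMeasure μ := by
    rw [hμ]
    exact Measure.isProbabilityMeasure_map measurable_fst.aemeasurable
  obtain ⟨k, hk, hkm⟩ : ∃ k : Kernel Z T2, IsMarkovKernel k ∧ μ ⊗ₘ k = m :=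
    ⟨m.condKernel, inferInstance, by rw [hμ]; exact m.disintegrate m.condKernel⟩
  obtain ⟨k', hk', hkm'⟩ : ∃ k' : Kernel Z T2, IsMarkovKernel k' ∧ μ ⊗ₘ k' = m' :=
    ⟨m'.condKernel, inferInstance, by rw [hμ, he]; exact m'.disintegrate m'.condKernel⟩
  have hε0 : 0 ≤ ε := by
    have := H.main 0 (fun _ => 0) measurable_const (fun _ => by simp)
    simpa using this
  have hτm : ∀ (c : UnitAddCircle) i, Measurable (tau c i) := fun c i =>
    (tau c i).continuous.measurable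
  -- the main estimate
  have claim : ∀ i (S : Set T2), MeasurableSet S →
      |∫ z, ∫ q, S.indicator (fun _ => (1 : ℝ)) (tau c i q.1 - tau c' i q.2)
          ∂((k z).prod (k' z)) ∂μ -
        ∫ z, ∫ q, S.indicator (fun _ => (1 : ℝ)) (q.1 - q.2) ∂((k z).prod (k' z)) ∂μ| ≤
        5 * ε := by
    intro i S hS
    obtain ⟨l, hl, hlB⟩ := exists_left_inv gZ μ (fun j => by rw [hμ]; exact H.inv j) (h i)
      (H.meas i) (H.inn i) ε (by
        intro S hS
        have h1 := H.main i (fun p => S.indicator (fun _ => (1 : ℝ)) p.1)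
          ((measurable_const.indicator hS).comp measurable_fst) (fun p => by
            rw [abs_of_nonneg (Set.indicator_nonneg (fun _ _ => zero_le_one) _)]
            exact Set.indicator_le_self' (fun _ _ => zero_le_one) _)
        have h2 : ∫ p : Z × T2, S.indicator (fun _ => (1 : ℝ)) p.1 ∂m = μ.real S := by
          rw [← integral_map (φ := Prod.fst) (f := S.indicator (fun _ => (1 : ℝ)))
            measurable_fst.aemeasurable (measurable_const.indicator hS).aestronglyMeasurable, ← hμ,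
            integral_indicator_const _ hS, smul_eq_mul, mul_one]
        have h3 : ∫ p : Z × T2, S.indicator (fun _ => (1 : ℝ)) (h i p.1) ∂m =
            μ.real (h i ⁻¹' S) := by
          have hS' : MeasurableSet (h i ⁻¹' S) := H.meas i hS
          have h4 : ∀ z, S.indicator (fun _ => (1 : ℝ)) (h i z) =
              (h i ⁻¹' S).indicator (fun _ => (1 : ℝ)) z := fun z => rfl
          simp only [h4]
          rw [← integral_map (φ := Prod.fst) (f := (h i ⁻¹' S).indicator (fun _ => (1 : ℝ)))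
            measurable_fst.aemeasurable (measurable_const.indicator hS').aestronglyMeasurable,
            ← hμ, integral_indicator_const _ hS', smul_eq_mul, mul_one]
        rw [h2, h3, abs_sub_comm] at h1
        exact h1)
    have hBm : MeasurableSet {z | l (h i z) ≠ z} :=
      (measurableSet_eq_fun (hl.comp (H.meas i)) measurable_id).compl
    exact rig_one μ k k' (H.meas i) hl (hτm c i) (hτm c' i) hlB hBm
      (fun F hF hb => by rw [hkm]; exact H.main i F hF hb)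
      (fun F hF hb => by rw [hkm']; exact H'.main i F hF hb)
      (measurable_const.indicator hS) (Set.indicator_nonneg fun _ _ => zero_le_one)
      (Set.indicator_le_self' fun _ _ => zero_le_one)
  -- the law of the difference
  have hdm : Measurable fun q : T2 × T2 => q.1 - q.2 := measurable_fst.sub measurable_snd
  have hdm' : Measurable fun p : Z × (T2 × T2) => p.2.1 - p.2.2 := hdm.comp measurable_snd
  obtain ⟨ν, hν⟩ : ∃ ν : Measure T2,
      ν = (μ ⊗ₘ (k ×ₖ k')).map (fun p => p.2.1 - p.2.2) := ⟨_, rfl⟩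
  have hνp : IsProbabilityMeasure ν := by
    rw [hν]
    exact Measure.isProbabilityMeasure_map hdm'.aemeasurable
  have hνS : ∀ S : Set T2, MeasurableSet S → ν.real S =
      ∫ z, ∫ q, S.indicator (fun _ => (1 : ℝ)) (q.1 - q.2) ∂((k z).prod (k' z)) ∂μ := by
    intro S hS
    rw [hν]
    exact rig_nu μ k k' hS hdm
  have hA0 : ∀ S : Set T2, MeasurableSet S → |ν.real (hA ⁻¹' S) - ν.real S| ≤ 5 * ε := by
    intro S hS
    rw [hνS _ (hA.continuous.measurable hS), hνS S hS]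
    have h1 : ∀ q : T2 × T2, (hA ⁻¹' S).indicator (fun _ => (1 : ℝ)) (q.1 - q.2) =
        S.indicator (fun _ => (1 : ℝ)) (tau c 0 q.1 - tau c' 0 q.2) := by
      intro q
      have h2 : hA (q.1 - q.2) = tau c 0 q.1 - tau c' 0 q.2 := by
        change (((q.1 - q.2).1 + (q.1 - q.2).2, (q.1 - q.2).2) : T2) =
          (q.1.1 + q.1.2, q.1.2) - (q.2.1 + q.2.2, q.2.2)
        ext1
        · simp only [Prod.fst_sub, Prod.snd_sub]
          abel
        · simp
      rw [← h2]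
      rfl
    simp only [h1]
    exact claim 0 S hS
  have hB0 : ∀ S : Set T2, MeasurableSet S → |ν.real (hB ⁻¹' S) - ν.real S| ≤ 5 * ε := by
    intro S hS
    rw [hνS _ (hB.continuous.measurable hS), hνS S hS]
    have h1 : ∀ q : T2 × T2, (hB ⁻¹' S).indicator (fun _ => (1 : ℝ)) (q.1 - q.2) =
        S.indicator (fun _ => (1 : ℝ)) (tau c 1 q.1 - tau c' 1 q.2) := by
      intro q
      have h2 : hB (q.1 - q.2) = tau c 1 q.1 - tau c' 1 q.2 := by
        change (((q.1 - q.2).1, (q.1 - q.2).1 + (q.1 - q.2).2) : T2) =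
          (q.1.1, q.1.1 + q.1.2) - (q.2.1, q.2.1 + q.2.2)
        ext1
        · simp
        · simp only [Prod.fst_sub, Prod.snd_sub]
          abel
      rw [← h2]
      rfl
    simp only [h1]
    exact claim 1 S hS
  -- concentration near zero
  have hpsi : ∀ l, ν.real {x | 1 / 2 ≤ ‖ee l x - 1‖} ≤ 4 * ε := by
    intro l
    obtain ⟨C, hC⟩ := H.psib
    have hem := (rig_continuous_ee l).measurable
    have hF : Measurable fun p : Z × T2 => ‖ψ l p.1 - ee l p.2‖ :=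
      (((H.psim l).comp measurable_fst).sub (hem.comp measurable_snd)).norm
    have hFb : ∀ p : Z × T2, |‖ψ l p.1 - ee l p.2‖| ≤ C + 1 := by
      intro p
      rw [abs_norm]
      refine (norm_sub_le _ _).trans ?_
      rw [rig_norm_ee]
      linarith [hC l p.1]
    have i1 := rig_fst μ k k' hF hFb
    have i2 := rig_snd μ k k' hF hFb
    rw [hkm] at i1
    rw [hkm'] at i2
    have hm1 : Measurable fun p : Z × (T2 × T2) => ‖ψ l p.1 - ee l p.2.1‖ :=
      hF.comp (measurable_fst.prodMk (measurable_fst.comp measurable_snd))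
    have hm2 : Measurable fun p : Z × (T2 × T2) => ‖ψ l p.1 - ee l p.2.2‖ :=
      hF.comp (measurable_fst.prodMk (measurable_snd.comp measurable_snd))
    have j1 := rig_bd (μ ⊗ₘ (k ×ₖ k')) hm1 (C := C + 1) (fun p => hFb (p.1, p.2.1))
    have j2 := rig_bd (μ ⊗ₘ (k ×ₖ k')) hm2 (C := C + 1) (fun p => hFb (p.1, p.2.2))
    have hg : Measurable fun p : Z × (T2 × T2) => ‖ee l (p.2.1 - p.2.2) - 1‖ :=
      ((hem.comp hdm').sub measurable_const).norm
    have hgi := rig_bd (μ ⊗ₘ (k ×ₖ k')) hg (C := 2) (fun p => by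
      rw [abs_norm]
      refine (norm_sub_le _ _).trans ?_
      rw [rig_norm_ee, norm_one]
      norm_num)
    have h1 : ∫ p, ‖ee l (p.2.1 - p.2.2) - 1‖ ∂(μ ⊗ₘ (k ×ₖ k')) ≤ 2 * ε := by
      have h2 : ∫ p, ‖ee l (p.2.1 - p.2.2) - 1‖ ∂(μ ⊗ₘ (k ×ₖ k')) ≤
          ∫ p, (‖ψ l p.1 - ee l p.2.1‖ + ‖ψ l p.1 - ee l p.2.2‖) ∂(μ ⊗ₘ (k ×ₖ k')) := by
        refine integral_mono hgi (j1.add j2) fun p => ?_
        change ‖ee l (p.2.1 - p.2.2) - 1‖ ≤ ‖ψ l p.1 - ee l p.2.1‖ + ‖ψ l p.1 - ee l p.2.2‖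
        rw [rig_ee_diff]
        have h3 : ee l p.2.1 - ee l p.2.2 =
            -(ψ l p.1 - ee l p.2.1) + (ψ l p.1 - ee l p.2.2) := by ring
        rw [h3]
        refine (norm_add_le _ _).trans ?_
        rw [norm_neg]
      rw [integral_add j1 j2] at h2
      have h4 := H.psi l
      have h5 := H'.psi l
      simp only at i1 i2
      rw [i1, i2] at h2
      linarith
    have h6 := mul_meas_ge_le_integral_of_nonneg (μ := μ ⊗ₘ (k ×ₖ k'))
      (f := fun p => ‖ee l (p.2.1 - p.2.2) - 1‖)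
      (Filter.Eventually.of_forall fun p => norm_nonneg _) hgi (1 / 2)
    have h7 : ν.real {x | 1 / 2 ≤ ‖ee l x - 1‖} =
        (μ ⊗ₘ (k ×ₖ k')).real {p | 1 / 2 ≤ ‖ee l (p.2.1 - p.2.2) - 1‖} := by
      have hnm : Measurable fun x : T2 => ‖ee l x - 1‖ := (hem.sub measurable_const).norm
      have hms : MeasurableSet {x : T2 | 1 / 2 ≤ ‖ee l x - 1‖} :=
        measurableSet_le measurable_const hnm
      rw [hν, map_measureReal_apply hdm' hms]
      rfl
    rw [h7]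
    linarith
  have hV : ν.real {x | 1 / 2 ≤ ‖ee 0 x - 1‖ ∨ 1 / 2 ≤ ‖ee 1 x - 1‖} ≤ 8 * ε := by
    have h1 : {x : T2 | 1 / 2 ≤ ‖ee 0 x - 1‖ ∨ 1 / 2 ≤ ‖ee 1 x - 1‖} =
        {x | 1 / 2 ≤ ‖ee 0 x - 1‖} ∪ {x | 1 / 2 ≤ ‖ee 1 x - 1‖} := rfl
    rw [h1]
    refine (measureReal_union_le _ _).trans ?_
    linarith [hpsi 0, hpsi 1]
  have hb := burger ν (5 * ε) (8 * ε) hA0 hB0 hV
  -- the translation
  by_contra hcc
  have h2 := claim 2 {0} (measurableSet_singleton _)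
  rw [← hνS _ (measurableSet_singleton _)] at h2
  have h3 : ∀ q : T2 × T2, ({0} : Set T2).indicator (fun _ => (1 : ℝ))
      (tau c 2 q.1 - tau c' 2 q.2) =
      ({(c' - c, 0)} : Set T2).indicator (fun _ => (1 : ℝ)) (q.1 - q.2) := by
    intro q
    have h4 : tau c 2 q.1 - tau c' 2 q.2 ∈ ({0} : Set T2) ↔
        q.1 - q.2 ∈ ({(c' - c, 0)} : Set T2) := by
      rw [Set.mem_singleton_iff, Set.mem_singleton_iff, Prod.ext_iff, Prod.ext_iff]
      simp only [tau_two, Prod.fst_sub, Prod.snd_sub, Prod.fst_zero, Prod.snd_zero]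
      refine and_congr_left fun _ => ?_
      constructor
      · intro h5
        have h6 : q.1.1 - q.2.1 = (q.1.1 + c - (q.2.1 + c')) + (c' - c) := by abel
        rw [h6, h5, zero_add]
      · intro h5
        have h6 : q.1.1 + c - (q.2.1 + c') = (q.1.1 - q.2.1) - (c' - c) := by abel
        rw [h6, h5, sub_self]
    by_cases h5 : tau c 2 q.1 - tau c' 2 q.2 ∈ ({0} : Set T2)
    · rw [Set.indicator_of_mem h5, Set.indicator_of_mem (h4.1 h5)]
    · rw [Set.indicator_of_notMem h5, Set.indicator_of_notMem (fun h6 => h5 (h4.2 h6))]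
  simp only [h3] at h2
  rw [← hνS _ (measurableSet_singleton _)] at h2
  have h6 : ν.real {((c' - c, 0) : T2)} + ν.real {(0 : T2)} ≤ 1 := by
    rw [← measureReal_union _ (measurableSet_singleton _)]
    · exact measureReal_le_one
    · rw [Set.disjoint_singleton]
      intro h7
      have h8 := congrArg Prod.fst h7
      simp only [Prod.fst_zero] at h8
      exact hcc (sub_eq_zero.1 h8).symm
  have h7 := (abs_le.1 h2).1
  linarith

end Pool.CAR
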