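import Pool.Agent.CAR.Haar

/-!
# CAR module Trans: transport between a compact realization and `Z0`

SETTING. `X = {z : Z0 // z.1 ∈ T} ⊕ (U × ℕ)` with the relation `EE T U RU`; `φ : X ≃ᵐ Y` an isomorphism with
the orbit relation of `Γ` on the compact space `Y`.

PAPER PROOF. `piecewise`: enumerate the family; `A_j = {z ∈ A | θ z = g_j z, j first}`; a Borel
partition of `A`; `θ '' A = ⋃ g_j '' A_j`, disjoint since `θ` is injective on `A`, so
`μ(θ''A) = ∑ μ(g_j '' A_j) = ∑ μ(A_j) = μ(A)`.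

`start`. `q(v) = φ(inl (t,v))`, `m = lam.map (v ↦ (q v, v))`. `h i y = φ(inl (sig i z))` if
`y = φ(inl z)`, `h i y = y` if `y = φ(inr _)`; Borel; `h i y ∈ Γ y` as `R0 z (sig i z)` (`act_of`). `ψ l y = ee l z.2`
if `y = φ(inl z)`, `0` otherwise. `main` with `ε = 0`:
`∫ F(h i (q v), tau t i v) dlam = ∫ F(q(tau t i v), tau t i v) dlam = ∫ F(q v, v) dlam` (`mp_tau`). `psi`: the
integrand is `0`. `inv`: for `γ ∈ Γ` define `θ : Z0 → Z0` by `θ z = z'` if `z.1 ∈ T` and
`γ • φ(inl z) = φ(inl z')`, `θ z = z` if `z.1 ∉ T` (`γ • φ(inl z)` is in the `EE`-class of `inl z`, so it is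
`φ(inl z')` with `R0 z z'`). `θ` is Borel, injective and surjective (inverse: the same for `γ⁻¹`), and
`θ z ∈ {act g z}`; by `piecewise` (family `act`, measure `(dirac t).prod lam`, `act_measure`) it preserves
`(dirac t).prod lam`. The first marginal of `m` is the image of `(dirac t).prod lam` under
`z ↦ φ(inl z)` (defined for `z.1 ∈ T`), and `γ ∘ φ ∘ inl = φ ∘ inl ∘ θ`.

`trans`. `μ = m.map Prod.fst` is `Γ`-invariant. (1) `μ(φ(inr (U × ℕ))) = 0`: the sets
`Y_n = φ(inr (U × {n}))` are disjoint and Borel, the map `θ : φ(inr(u,0)) ↦ φ(inr(u,n))` (identity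
elsewhere) is Borel, injective on `Y_0` and `θ y ∈ Γ y` (`RU u u`), so by `piecewise` `μ(Y_n) = μ(Y_0)` for
all `n`; `μ` is finite. (2) Let `P : Y → Z0` be `P(φ(inl z)) = z`, `P = 0` elsewhere,
`m' = m.map (P × id)`, `h' i z = P(h i (φ(inl z)))` if `z.1 ∈ T`, `z` otherwise, `ψ' l z = ψ l (φ(inl z))`
if `z.1 ∈ T`, `0` otherwise. `h i (φ (inl z)) = γ φ(inl z) = φ(inl z')` with `R0 z z'`, so `h' i z ∈ {act g z}`
(`FreeGroup` contains `1` for the second case). `main`, `psi`: change of variables, a.e. `y` is of the form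
`φ(inl z)`. `inv`: for `g : FreeGroup (Fin 3)` the map `θ : Y → Y`, `φ(inl z) ↦ φ(inl (act g z))`,
identity elsewhere, is a Borel bijection with `θ y ∈ Γ y`, so it preserves `μ` (`piecewise`), and
`act g ∘ P = P ∘ θ` almost everywhere.
-/

open MeasureTheory Topology

namespace Pool.CAR

/-- The homeomorphism given by a group element. -/
def gY {Γ Y : Type} [Group Γ] [TopologicalSpace Y] [MulAction Γ Y]
    (hc : ∀ g : Γ, Continuous (fun y : Y => g • y)) (g : Γ) : Y ≃ₜ Y where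
  toFun y := g • y
  invFun y := g⁻¹ • y
  left_inv y := by simp
  right_inv y := by simp
  continuous_toFun := hc g
  continuous_invFun := hc g⁻¹

theorem piecewise {Z ι : Type} [MeasurableSpace Z] [StandardBorelSpace Z] [Countable ι]
    (g : ι → (Z ≃ᵐ Z)) (μ : Measure Z) [IsFiniteMeasure μ] (hinv : ∀ j, μ.map (g j) = μ)
    {A : Set Z} (hA : MeasurableSet A) (θ : Z → Z) (hθ : Measurable θ) (hinj : Set.InjOn θ A)
    (hin : ∀ z ∈ A, ∃ j, θ z = g j z) : μ (θ '' A) = μ A := by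
  rcases isEmpty_or_nonempty ι with hι | hι
  · have h : A = ∅ := by
      rw [Set.eq_empty_iff_forall_notMem]
      intro z hz
      obtain ⟨j, -⟩ := hin z hz
      exact hι.elim j
    rw [h, Set.image_empty]
  obtain ⟨e, he⟩ := exists_surjective_nat ι
  set B : ℕ → Set Z := fun n => A ∩ {z | θ z = g (e n) z} with hB
  have hBm : ∀ n, MeasurableSet (B n) := fun n =>
    hA.inter (measurableSet_eq_fun hθ (g (e n)).measurable)
  have hBu : ⋃ n, B n = A := by
    apply Set.Subset.antisymm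
    · exact Set.iUnion_subset fun n => Set.inter_subset_left
    · intro z hz
      obtain ⟨j, hj⟩ := hin z hz
      obtain ⟨n, rfl⟩ := he j
      exact Set.mem_iUnion.2 ⟨n, hz, hj⟩
  have hDm : ∀ n, MeasurableSet (disjointed B n) := fun n => MeasurableSet.disjointed hBm n
  have hDu : ⋃ n, disjointed B n = A := iUnion_disjointed.trans hBu
  have hDd : Pairwise (Function.onFun Disjoint (disjointed B)) := disjoint_disjointed B
  have hDB : ∀ n, disjointed B n ⊆ B n := disjointed_subset B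
  have himg : ∀ n, θ '' disjointed B n = g (e n) '' disjointed B n := fun n =>
    Set.image_congr fun z hz => (hDB n hz).2
  have h1 : μ A = ∑' n, μ (disjointed B n) := by
    conv_lhs => rw [← hDu]
    exact measure_iUnion hDd hDm
  have h2 : μ (θ '' A) = ∑' n, μ (θ '' disjointed B n) := by
    conv_lhs => rw [← hDu, Set.image_iUnion]
    refine measure_iUnion ?_ fun n => ?_
    · intro m n hmn
      rw [Function.onFun, Set.disjoint_left]
      rintro _ ⟨z, hz, rfl⟩ ⟨w, hw, hzw⟩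
      have h3 : w = z := hinj (hDB n hw).1 (hDB m hz).1 hzw
      rw [h3] at hw
      exact Set.disjoint_left.1 (hDd hmn) hz hw
    · rw [himg]
      exact (g (e n)).measurableEmbedding.measurableSet_image.2 (hDm n)
  rw [h1, h2]
  congr 1
  funext n
  rw [himg]
  conv_lhs => rw [← hinv (e n)]
  rw [(g (e n)).map_apply, Set.preimage_image_eq _ (g (e n)).injective]

namespace TransAux

theorem bij_inv {Z ι : Type} [MeasurableSpace Z] [StandardBorelSpace Z] [Countable ι]
    (g : ι → (Z ≃ᵐ Z)) (μ : Measure Z) [IsFiniteMeasure μ] (hinv : ∀ j, μ.map (g j) = μ)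
    (θ : Z → Z) (hθ : Measurable θ) (hb : Function.Bijective θ)
    (hin : ∀ z, ∃ j, θ z = g j z) : μ.map θ = μ := by
  ext B hB
  rw [Measure.map_apply hθ hB, ← piecewise g μ hinv (hθ hB) θ hθ hb.1.injOn (fun z _ => hin z),
    Set.image_preimage_eq _ hb.2]

end TransAux

section
variable {T : Set UnitAddCircle} {U : Type} [MeasurableSpace U] [StandardBorelSpace U]
  {RU : U → U → Prop} {Γ Y : Type} [Group Γ] [Countable Γ] [TopologicalSpace Y] [MeasurableSpace Y]
  [BorelSpace Y] [CompactSpace Y] [TopologicalSpace.MetrizableSpace Y] [MulAction Γ Y]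

namespace TransAux

set_option linter.unusedSectionVars false

open scoped Classical in
/-- the point of `Y` of a point of `Z0` -/
noncomputable def J (φ : ({z : Z0 // z.1 ∈ T} ⊕ (U × ℕ)) ≃ᵐ Y) (y₀ : Y) (z : Z0) : Y :=
  if h : z.1 ∈ T then φ (Sum.inl ⟨z, h⟩) else y₀

/-- the point of `Z0` of a point of `Y` -/
noncomputable def P (φ : ({z : Z0 // z.1 ∈ T} ⊕ (U × ℕ)) ≃ᵐ Y) (y : Y) : Z0 :=
  Sum.elim Subtype.val (fun _ => 0) (φ.symm y)

theorem J_meas (hT : MeasurableSet T) (φ : ({z : Z0 // z.1 ∈ T} ⊕ (U × ℕ)) ≃ᵐ Y) (y₀ : Y) :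
    Measurable (J φ y₀) := by
  have hS : MeasurableSet {z : Z0 | z.1 ∈ T} := measurable_fst hT
  classical
  exact Measurable.dite (s := {z : Z0 | z.1 ∈ T})
    (f := fun z : {z : Z0 | z.1 ∈ T} => φ (Sum.inl ⟨z.1, z.2⟩)) (g := fun _ => y₀)
    (φ.measurable.comp measurable_inl) measurable_const hS

theorem P_meas (φ : ({z : Z0 // z.1 ∈ T} ⊕ (U × ℕ)) ≃ᵐ Y) : Measurable (P φ) := by
  unfold P
  exact (measurable_subtype_coe.sumElim measurable_const).comp φ.symm.measurable

theorem J_of (φ : ({z : Z0 // z.1 ∈ T} ⊕ (U × ℕ)) ≃ᵐ Y) (y₀ : Y) (z : {z : Z0 // z.1 ∈ T}) :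
    J φ y₀ z.1 = φ (Sum.inl z) := by
  unfold J
  rw [dif_pos z.2]

theorem P_inl (φ : ({z : Z0 // z.1 ∈ T} ⊕ (U × ℕ)) ≃ᵐ Y) (z : {z : Z0 // z.1 ∈ T}) :
    P φ (φ (Sum.inl z)) = z.1 := by
  unfold P
  rw [φ.symm_apply_apply]
  rfl

theorem orbit (φ : ({z : Z0 // z.1 ∈ T} ⊕ (U × ℕ)) ≃ᵐ Y)
    (hφ : ∀ x y, EE T U RU x y ↔ ∃ g : Γ, g • φ x = φ y) (γ : Γ) (z : {z : Z0 // z.1 ∈ T}) :
    ∃ z' : {z : Z0 // z.1 ∈ T}, γ • φ (Sum.inl z) = φ (Sum.inl z') ∧ R0 z.1 z'.1 := by
  have h1 : EE T U RU (Sum.inl z) (φ.symm (γ • φ (Sum.inl z))) :=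
    (hφ _ _).2 ⟨γ, by rw [φ.apply_symm_apply]⟩
  rcases hx : φ.symm (γ • φ (Sum.inl z)) with z' | p
  · rw [hx] at h1
    refine ⟨z', ?_, h1⟩
    rw [← hx, φ.apply_symm_apply]
  · rw [hx] at h1
    exact h1.elim

theorem polish : StandardBorelSpace Y := by
  let _ := TopologicalSpace.metrizableSpaceMetric Y
  infer_instance

/-- the maps of `Y` given by maps of the part over `T` -/
noncomputable def up (φ : ({z : Z0 // z.1 ∈ T} ⊕ (U × ℕ)) ≃ᵐ Y)
    (s : {z : Z0 // z.1 ∈ T} → {z : Z0 // z.1 ∈ T}) (y : Y) : Y :=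
  φ (Sum.map s id (φ.symm y))

theorem up_meas (φ : ({z : Z0 // z.1 ∈ T} ⊕ (U × ℕ)) ≃ᵐ Y)
    {s : {z : Z0 // z.1 ∈ T} → {z : Z0 // z.1 ∈ T}} (hs : Measurable s) :
    Measurable (up φ s) := by
  unfold up
  refine φ.measurable.comp (Measurable.comp ?_ φ.symm.measurable)
  exact (measurable_inl.comp hs).sumElim (measurable_inr.comp measurable_id)

theorem up_inl (φ : ({z : Z0 // z.1 ∈ T} ⊕ (U × ℕ)) ≃ᵐ Y)
    (s : {z : Z0 // z.1 ∈ T} → {z : Z0 // z.1 ∈ T}) (z : {z : Z0 // z.1 ∈ T}) :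
    up φ s (φ (Sum.inl z)) = φ (Sum.inl (s z)) := by
  unfold up
  rw [φ.symm_apply_apply]
  rfl

theorem up_in (hRU : Equivalence RU) (φ : ({z : Z0 // z.1 ∈ T} ⊕ (U × ℕ)) ≃ᵐ Y)
    (hφ : ∀ x y, EE T U RU x y ↔ ∃ g : Γ, g • φ x = φ y)
    {s : {z : Z0 // z.1 ∈ T} → {z : Z0 // z.1 ∈ T}} (hs : ∀ z, R0 z.1 (s z).1) (y : Y) :
    ∃ g : Γ, up φ s y = g • y := by
  obtain ⟨x, rfl⟩ := φ.surjective y
  have h1 : EE T U RU x (Sum.map s id x) := by
    rcases x with z | p
    · exact hs z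
    · exact hRU.refl _
  obtain ⟨g, hg⟩ := (hφ _ _).1 h1
  refine ⟨g, ?_⟩
  rw [hg]
  unfold up
  rw [φ.symm_apply_apply]

theorem act_sub (g : FreeGroup (Fin 3)) (z : {z : Z0 // z.1 ∈ T}) : (act g z.1).1 ∈ T := by
  rw [act_fst]
  exact z.2

/-- the action on the part over `T` -/
noncomputable def actT (T : Set UnitAddCircle) (g : FreeGroup (Fin 3)) (z : {z : Z0 // z.1 ∈ T}) :
    {z : Z0 // z.1 ∈ T} := ⟨act g z.1, act_sub g z⟩

theorem actT_meas (g : FreeGroup (Fin 3)) : Measurable (actT T g) :=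
  ((act g).continuous.measurable.comp measurable_subtype_coe).subtype_mk

theorem actT_R (g : FreeGroup (Fin 3)) (z : {z : Z0 // z.1 ∈ T}) : R0 z.1 (actT T g z).1 :=
  ⟨g, rfl⟩

theorem act_inv_apply (g : FreeGroup (Fin 3)) (z : Z0) : act g⁻¹ (act g z) = z := by
  rw [map_inv]
  exact (act g).symm_apply_apply z

theorem actT_inv (g : FreeGroup (Fin 3)) (z : {z : Z0 // z.1 ∈ T}) :
    actT T g⁻¹ (actT T g z) = z := Subtype.ext (act_inv_apply g z.1)

theorem up_actT_bij (φ : ({z : Z0 // z.1 ∈ T} ⊕ (U × ℕ)) ≃ᵐ Y) (g : FreeGroup (Fin 3)) :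
    Function.Bijective (up φ (actT T g)) := by
  have h : ∀ g : FreeGroup (Fin 3), ∀ y, up φ (actT T g⁻¹) (up φ (actT T g) y) = y := by
    intro g y
    obtain ⟨x, rfl⟩ := φ.surjective y
    rcases x with z | p
    · rw [up_inl, up_inl, actT_inv]
    · unfold up
      simp
  refine Function.bijective_iff_has_inverse.2 ⟨up φ (actT T g⁻¹), h g, fun y => ?_⟩
  have := h g⁻¹ y
  rwa [inv_inv] at this

theorem continuous_circle : Continuous (fun z : Circle => (z : ℂ)) := by
  fun_prop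

open scoped Classical in
/-- the map of `Z0` given by an element of `Γ` -/
noncomputable def tht (φ : ({z : Z0 // z.1 ∈ T} ⊕ (U × ℕ)) ≃ᵐ Y) (y₀ : Y) (γ : Γ) (z : Z0) : Z0 :=
  if z.1 ∈ T then P φ (γ • J φ y₀ z) else z

theorem tht_meas (hT : MeasurableSet T) (hc : ∀ g : Γ, Continuous (fun y : Y => g • y))
    (φ : ({z : Z0 // z.1 ∈ T} ⊕ (U × ℕ)) ≃ᵐ Y) (y₀ : Y) (γ : Γ) : Measurable (tht φ y₀ γ) := by
  classical
  exact Measurable.ite (measurable_fst hT)
    ((P_meas φ).comp ((hc γ).measurable.comp (J_meas hT φ y₀))) measurable_id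

theorem tht_spec (φ : ({z : Z0 // z.1 ∈ T} ⊕ (U × ℕ)) ≃ᵐ Y)
    (hφ : ∀ x y, EE T U RU x y ↔ ∃ g : Γ, g • φ x = φ y) (y₀ : Y) (γ : Γ)
    (z : {z : Z0 // z.1 ∈ T}) : ∃ z' : {z : Z0 // z.1 ∈ T}, tht φ y₀ γ z.1 = z'.1 ∧
      γ • φ (Sum.inl z) = φ (Sum.inl z') ∧ R0 z.1 z'.1 := by
  obtain ⟨z', h1, h2⟩ := orbit φ hφ γ z
  refine ⟨z', ?_, h1, h2⟩
  unfold tht
  rw [if_pos z.2, J_of, h1, P_inl]

theorem tht_not (φ : ({z : Z0 // z.1 ∈ T} ⊕ (U × ℕ)) ≃ᵐ Y) (y₀ : Y) (γ : Γ) {z : Z0}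
    (h : z.1 ∉ T) : tht φ y₀ γ z = z := by
  unfold tht
  rw [if_neg h]

theorem tht_inv (φ : ({z : Z0 // z.1 ∈ T} ⊕ (U × ℕ)) ≃ᵐ Y)
    (hφ : ∀ x y, EE T U RU x y ↔ ∃ g : Γ, g • φ x = φ y) (y₀ : Y) (γ : Γ) (z : Z0) :
    tht φ y₀ γ⁻¹ (tht φ y₀ γ z) = z := by
  by_cases h : z.1 ∈ T
  · obtain ⟨z', h1, h2, -⟩ := tht_spec φ hφ y₀ γ ⟨z, h⟩
    obtain ⟨z'', h3, h4, -⟩ := tht_spec φ hφ y₀ γ⁻¹ z'
    rw [h1, h3]
    rw [← h2, inv_smul_smul] at h4
    have h5 := φ.injective h4
    rw [Sum.inl.injEq] at h5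
    rw [← h5]
  · rw [tht_not φ y₀ γ h, tht_not φ y₀ γ⁻¹ h]

theorem tht_bij (φ : ({z : Z0 // z.1 ∈ T} ⊕ (U × ℕ)) ≃ᵐ Y)
    (hφ : ∀ x y, EE T U RU x y ↔ ∃ g : Γ, g • φ x = φ y) (y₀ : Y) (γ : Γ) :
    Function.Bijective (tht φ y₀ γ) := by
  refine Function.bijective_iff_has_inverse.2 ⟨tht φ y₀ γ⁻¹, tht_inv φ hφ y₀ γ, fun z => ?_⟩
  have := tht_inv φ hφ y₀ γ⁻¹ z
  rwa [inv_inv] at this

theorem tht_in (φ : ({z : Z0 // z.1 ∈ T} ⊕ (U × ℕ)) ≃ᵐ Y)
    (hφ : ∀ x y, EE T U RU x y ↔ ∃ g : Γ, g • φ x = φ y) (y₀ : Y) (γ : Γ) (z : Z0) :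
    ∃ g : FreeGroup (Fin 3), tht φ y₀ γ z = (act g).toMeasurableEquiv z := by
  by_cases h : z.1 ∈ T
  · obtain ⟨z', h1, -, g, hg⟩ := tht_spec φ hφ y₀ γ ⟨z, h⟩
    exact ⟨g, by rw [h1, ← hg]; rfl⟩
  · refine ⟨1, ?_⟩
    rw [tht_not φ y₀ γ h, map_one]
    rfl

theorem tht_measure (hT : MeasurableSet T) (hc : ∀ g : Γ, Continuous (fun y : Y => g • y))
    (φ : ({z : Z0 // z.1 ∈ T} ⊕ (U × ℕ)) ≃ᵐ Y)
    (hφ : ∀ x y, EE T U RU x y ↔ ∃ g : Γ, g • φ x = φ y) (y₀ : Y) (γ : Γ) (t : UnitAddCircle) :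
    ((Measure.dirac t).prod lam).map (tht φ y₀ γ) = (Measure.dirac t).prod lam :=
  have _ : StandardBorelSpace Z0 := polish
  bij_inv (fun g : FreeGroup (Fin 3) => (act g).toMeasurableEquiv) _
    (fun g => act_measure g t) _ (tht_meas hT hc φ y₀ γ) (tht_bij φ hφ y₀ γ) (tht_in φ hφ y₀ γ)

end TransAux

open TransAux

theorem start (hT : MeasurableSet T) (hRU : Equivalence RU)
    (hc : ∀ g : Γ, Continuous (fun y : Y => g • y))
    (φ : ({z : Z0 // z.1 ∈ T} ⊕ (U × ℕ)) ≃ᵐ Y)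
    (hφ : ∀ x y, EE T U RU x y ↔ ∃ g : Γ, g • φ x = φ y) {t : UnitAddCircle} (ht : t ∈ T) :
    ∃ (h : Fin 3 → Y → Y) (ψ : Fin 2 → Y → ℂ) (m : Measure (Y × T2)),
      IsProbabilityMeasure m ∧ Inn (gY hc) h ψ 0 t m := by
  have hpol : StandardBorelSpace Y := polish
  -- the embedding of the fibre
  set q : T2 → Y := fun v => φ (Sum.inl ⟨(t, v), ht⟩) with hq
  have hqm : Measurable q := by
    refine φ.measurable.comp (measurable_inl.comp ?_)
    exact (measurable_const.prodMk measurable_id).subtype_mk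
  have hqm2 : Measurable (fun v : T2 => (q v, v)) := hqm.prodMk measurable_id
  set m : Measure (Y × T2) := lam.map (fun v => (q v, v)) with hm
  have hmp : IsProbabilityMeasure m := Measure.isProbabilityMeasure_map hqm2.aemeasurable
  -- the maps
  set s : Fin 3 → {z : Z0 // z.1 ∈ T} → {z : Z0 // z.1 ∈ T} := fun i =>
    actT T (FreeGroup.of i) with hs
  have hsi : ∀ i (v : T2), s i ⟨(t, v), ht⟩ = ⟨(t, tau t i v), ht⟩ := by
    intro i v
    apply Subtype.ext
    change act (FreeGroup.of i) (t, v) = _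
    rw [act_of]
    rfl
  have hq1 : ∀ i v, up φ (s i) (q v) = q (tau t i v) := by
    intro i v
    simp only [hq]
    rw [up_inl, hsi]
  set ψ : Fin 2 → Y → ℂ := fun l y =>
    Sum.elim (fun z : {z : Z0 // z.1 ∈ T} => ee l z.1.2) (fun _ => 0) (φ.symm y) with hψ
  have heem : ∀ l, Measurable (ee l) := by
    intro l
    fin_cases l
    · change Measurable fun x : T2 => (x.1.toCircle : ℂ)
      exact (continuous_circle.comp
        (AddCircle.continuous_toCircle.comp continuous_fst)).measurable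
    · change Measurable fun x : T2 => (x.2.toCircle : ℂ)
      exact (continuous_circle.comp
        (AddCircle.continuous_toCircle.comp continuous_snd)).measurable
  have heen : ∀ l x, ‖ee l x‖ = 1 := by
    intro l x
    fin_cases l
    · exact Circle.norm_coe _
    · exact Circle.norm_coe _
  have hψm : ∀ l, Measurable (ψ l) := by
    intro l
    refine Measurable.comp ?_ φ.symm.measurable
    exact ((heem l).comp (measurable_snd.comp measurable_subtype_coe)).sumElim measurable_const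
  have hψq : ∀ l v, ψ l (q v) = ee l v := by
    intro l v
    simp only [hψ, hq, φ.symm_apply_apply]
    rfl
  refine ⟨fun i => up φ (s i), ψ, m, hmp, ⟨?_, ?_, ?_, hψm, ⟨1, ?_⟩, ?_, ?_⟩⟩
  · exact fun i => up_meas φ (actT_meas _)
  · intro i z
    exact up_in hRU φ hφ (actT_R _) z
  · intro i F hF _
    have hF2 : AEStronglyMeasurable F m := hF.aestronglyMeasurable
    have hF3 : Measurable (fun p : Y × T2 => F (up φ (s i) p.1, tau t i p.2)) :=
      hF.comp (((up_meas φ (actT_meas _)).comp measurable_fst).prodMk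
        ((tau t i).continuous.measurable.comp measurable_snd))
    rw [hm, integral_map hqm2.aemeasurable hF.aestronglyMeasurable,
      integral_map hqm2.aemeasurable hF3.aestronglyMeasurable]
    simp only [hq1]
    have h1 := (mp_tau t i).integral_comp (tau t i).measurableEmbedding (fun v => F (q v, v))
    rw [h1, sub_self, abs_zero]
  · intro l y
    simp only [hψ]
    rcases φ.symm y with z | p
    · exact (heen l _).le
    · simp
  · intro l
    have hG : Measurable (fun p : Y × T2 => ‖ψ l p.1 - ee l p.2‖) :=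
      (((hψm l).comp measurable_fst).sub ((heem l).comp measurable_snd)).norm
    rw [hm, integral_map hqm2.aemeasurable hG.aestronglyMeasurable]
    simp [hψq]
  · intro γ
    have hmf : m.map Prod.fst = lam.map q := by
      rw [hm, Measure.map_map measurable_fst hqm2]
      rfl
    have hJq : ∀ v, J φ (q 0) (t, v) = q v := fun v => J_of φ (q 0) ⟨(t, v), ht⟩
    have hJm := J_meas hT φ (q 0)
    have hθm := tht_meas hT hc φ (q 0) γ
    have hν : (Measure.dirac t).prod lam = lam.map (Prod.mk t) := Measure.dirac_prod t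
    have hmk : Measurable (Prod.mk t : T2 → Z0) := measurable_prodMk_left
    have hgm : Measurable (gY hc γ) := (hc γ).measurable
    have h1 : ((Measure.dirac t).prod lam).map (J φ (q 0)) = lam.map q := by
      rw [hν, Measure.map_map hJm hmk]
      congr 1
      funext v
      exact hJq v
    have h2 : (lam.map q).map (gY hc γ) =
        (((Measure.dirac t).prod lam).map (tht φ (q 0) γ)).map (J φ (q 0)) := by
      rw [hν, Measure.map_map hθm hmk, Measure.map_map hJm (hθm.comp hmk),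
        Measure.map_map hgm hqm]
      congr 1
      funext v
      obtain ⟨z', h3, h4, -⟩ := tht_spec φ hφ (q 0) γ ⟨(t, v), ht⟩
      change γ • q v = J φ (q 0) (tht φ (q 0) γ (t, v))
      rw [h3, J_of, ← h4]
    rw [hmf, h2, tht_measure hT hc φ hφ (q 0) γ t, h1]

theorem trans (hT : MeasurableSet T) (hRU : Equivalence RU)
    (hc : ∀ g : Γ, Continuous (fun y : Y => g • y))
    (φ : ({z : Z0 // z.1 ∈ T} ⊕ (U × ℕ)) ≃ᵐ Y)
    (hφ : ∀ x y, EE T U RU x y ↔ ∃ g : Γ, g • φ x = φ y)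
    {h : Fin 3 → Y → Y} {ψ : Fin 2 → Y → ℂ} {ε : ℝ} {c : UnitAddCircle} {m : Measure (Y × T2)}
    [IsProbabilityMeasure m] (H : Inn (gY hc) h ψ ε c m) :
    ∃ (h' : Fin 3 → Z0 → Z0) (ψ' : Fin 2 → Z0 → ℂ) (m' : Measure (Z0 × T2)),
      IsProbabilityMeasure m' ∧ Inn act h' ψ' ε c m' ∧ m' {p | p.1.1 ∉ T} = 0 := by
  classical
  have hpol : StandardBorelSpace Y := polish
  obtain ⟨⟨y₀, -⟩⟩ : Nonempty (Y × T2) := by
    by_contra hne
    rw [not_nonempty_iff] at hne
    have h1 : m Set.univ = 1 := measure_univ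
    have h2 : (Set.univ : Set (Y × T2)) = ∅ := Set.univ_eq_empty_iff.2 hne
    rw [h2, measure_empty] at h1
    exact zero_ne_one h1
  set μ : Measure Y := m.map Prod.fst with hμ
  have hμp : IsProbabilityMeasure μ := Measure.isProbabilityMeasure_map measurable_fst.aemeasurable
  have hμinv : ∀ g : Γ, μ.map ((gY hc g).toMeasurableEquiv) = μ := fun g => H.inv g
  have hPm := P_meas φ
  have hJm := J_meas hT φ y₀
  -- the second part is null
  set Yn : ℕ → Set Y := fun n => {y | ∃ u : U, φ.symm y = Sum.inr (u, n)} with hYn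
  have hYnm : ∀ n, MeasurableSet (Yn n) := by
    intro n
    have h1 : Yn n = φ.symm ⁻¹' (Sum.inr '' (Set.univ ×ˢ {n})) := by
      ext y
      simp only [hYn, Set.mem_ofPred_eq, Set.mem_preimage, Set.mem_image, Set.mem_prod, Set.mem_univ,
        Set.mem_singleton_iff, true_and, Prod.exists]
      constructor
      · rintro ⟨u, hu⟩
        exact ⟨u, n, rfl, hu.symm⟩
      · rintro ⟨u, k, rfl, hu⟩
        exact ⟨u, hu.symm⟩
    rw [h1]
    apply φ.symm.measurable
    exact MeasurableSet.inr_image (MeasurableSet.univ.prod (measurableSet_singleton n))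
  have hYnd : Pairwise (Function.onFun Disjoint Yn) := by
    intro n k hnk
    rw [Function.onFun, Set.disjoint_left]
    rintro y ⟨u, hu⟩ ⟨v, hv⟩
    rw [hu, Sum.inr.injEq, Prod.mk.injEq] at hv
    exact hnk hv.2
  have hYn0 : ∀ n, μ (Yn n) = μ (Yn 0) := by
    intro n
    set θ : Y → Y := fun y => φ (Sum.map id (fun p : U × ℕ => (p.1, n)) (φ.symm y)) with hθ
    have hθm : Measurable θ := by
      refine φ.measurable.comp (Measurable.comp ?_ φ.symm.measurable)
      exact (measurable_inl.comp measurable_id).sumElim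
        (measurable_inr.comp (measurable_fst.prodMk measurable_const))
    have him : θ '' Yn 0 = Yn n := by
      ext y
      constructor
      · rintro ⟨x, ⟨u, hu⟩, rfl⟩
        exact ⟨u, by simp only [hθ, φ.symm_apply_apply, hu]; rfl⟩
      · rintro ⟨u, hu⟩
        refine ⟨φ (Sum.inr (u, 0)), ⟨u, φ.symm_apply_apply _⟩, ?_⟩
        simp only [hθ, φ.symm_apply_apply]
        change φ (Sum.inr (u, n)) = y
        rw [← hu, φ.apply_symm_apply]
    rw [← him]
    refine piecewise (fun g : Γ => (gY hc g).toMeasurableEquiv) μ hμinv (hYnm 0) θ hθm ?_ ?_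
    · rintro x ⟨u, hu⟩ x' ⟨u', hu'⟩ hxx
      have h1 := φ.injective hxx
      rw [hu, hu'] at h1
      change Sum.inr (u, n) = Sum.inr (u', n) at h1
      rw [Sum.inr.injEq, Prod.mk.injEq] at h1
      have h2 : φ.symm x = φ.symm x' := by rw [hu, hu', h1.1]
      exact φ.symm.injective h2
    · rintro y ⟨u, hu⟩
      have h1 : EE T U RU (Sum.inr (u, 0)) (Sum.inr (u, n)) := hRU.refl u
      obtain ⟨g, hg⟩ := (hφ _ _).1 h1
      refine ⟨g, ?_⟩
      rw [← hu, φ.apply_symm_apply] at hg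
      change θ y = g • y
      rw [hg]
      simp only [hθ, hu]
      rfl
  have hYnull : ∀ n, μ (Yn n) = 0 := by
    intro n
    rw [hYn0]
    by_contra hne
    have h1 : μ (⋃ n, Yn n) = ∑' n, μ (Yn n) := measure_iUnion hYnd hYnm
    simp only [hYn0] at h1
    rw [ENNReal.tsum_const_eq_top_of_ne_zero hne] at h1
    exact measure_ne_top μ _ h1
  have hae : ∀ᵐ y ∂μ, ∃ z : {z : Z0 // z.1 ∈ T}, y = φ (Sum.inl z) := by
    rw [ae_iff]
    refine measure_mono_null (t := ⋃ n, Yn n) ?_ (measure_iUnion_null hYnull)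
    intro y hy
    simp only [Set.mem_ofPred_eq, not_exists] at hy
    rcases hx : φ.symm y with z | ⟨u, n⟩
    · exact absurd (by rw [← hx, φ.apply_symm_apply]) (hy z)
    · exact Set.mem_iUnion.2 ⟨n, u, hx⟩
  have haem : ∀ᵐ p ∂m, ∃ z : {z : Z0 // z.1 ∈ T}, p.1 = φ (Sum.inl z) :=
    ae_of_ae_map measurable_fst.aemeasurable hae
  -- the transported objects
  set m' : Measure (Z0 × T2) := m.map (fun p => (P φ p.1, p.2)) with hm'
  have hmm : Measurable (fun p : Y × T2 => (P φ p.1, p.2)) :=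
    (hPm.comp measurable_fst).prodMk measurable_snd
  have hm'p : IsProbabilityMeasure m' := Measure.isProbabilityMeasure_map hmm.aemeasurable
  set h' : Fin 3 → Z0 → Z0 := fun i z => if z.1 ∈ T then P φ (h i (J φ y₀ z)) else z with hh'
  set ψ' : Fin 2 → Z0 → ℂ := fun l z => if z.1 ∈ T then ψ l (J φ y₀ z) else 0 with hψ'
  have hh'm : ∀ i, Measurable (h' i) := fun i =>
    Measurable.ite (measurable_fst hT) (hPm.comp ((H.meas i).comp hJm)) measurable_id
  have hψ'm : ∀ l, Measurable (ψ' l) := fun l =>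
    Measurable.ite (measurable_fst hT) ((H.psim l).comp hJm) measurable_const
  have hh'P : ∀ i (z : {z : Z0 // z.1 ∈ T}), h' i (P φ (φ (Sum.inl z))) =
      P φ (h i (φ (Sum.inl z))) := by
    intro i z
    simp only [hh']
    rw [P_inl, if_pos z.2, J_of]
  have hψ'P : ∀ l (z : {z : Z0 // z.1 ∈ T}), ψ' l (P φ (φ (Sum.inl z))) =
      ψ l (φ (Sum.inl z)) := by
    intro l z
    simp only [hψ']
    rw [P_inl, if_pos z.2, J_of]
  obtain ⟨C, hC⟩ := H.psib
  refine ⟨h', ψ', m', hm'p, ⟨hh'm, ?_, ?_, hψ'm, ⟨max C 0, ?_⟩, ?_, ?_⟩, ?_⟩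
  · intro i z
    by_cases hz : z.1 ∈ T
    · obtain ⟨g, hg⟩ := H.inn i (φ (Sum.inl ⟨z, hz⟩))
      obtain ⟨z', h1, g', hg'⟩ := orbit φ hφ g ⟨z, hz⟩
      refine ⟨g', ?_⟩
      rw [hg']
      simp only [hh']
      rw [if_pos hz]
      have h2 : J φ y₀ z = φ (Sum.inl ⟨z, hz⟩) := J_of φ y₀ ⟨z, hz⟩
      rw [h2, hg]
      change P φ (g • φ (Sum.inl ⟨z, hz⟩)) = z'.1
      rw [h1, P_inl]
    · refine ⟨1, ?_⟩
      rw [map_one]
      simp only [hh']
      rw [if_neg hz]
      rfl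
  · intro i F hF hF1
    have hFm : Measurable (fun p : Y × T2 => F (P φ p.1, p.2)) := hF.comp hmm
    have h1 := H.main i (fun p => F (P φ p.1, p.2)) hFm (fun p => hF1 _)
    have hF3 : Measurable (fun p : Z0 × T2 => F (h' i p.1, tau c i p.2)) :=
      hF.comp (((hh'm i).comp measurable_fst).prodMk
        ((tau c i).continuous.measurable.comp measurable_snd))
    rw [hm', integral_map hmm.aemeasurable hF.aestronglyMeasurable,
      integral_map hmm.aemeasurable hF3.aestronglyMeasurable]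
    have h2 : ∫ p, F (h' i (P φ p.1), tau c i p.2) ∂m = ∫ p, F (P φ (h i p.1), tau c i p.2) ∂m := by
      refine integral_congr_ae ?_
      filter_upwards [haem] with p hp
      obtain ⟨z, hz⟩ := hp
      rw [hz, hh'P]
    rw [h2]
    exact h1
  · intro l z
    simp only [hψ']
    split_ifs
    · exact (hC l _).trans (le_max_left _ _)
    · rw [norm_zero]
      exact le_max_right _ _
  · intro l
    have heem : Measurable (ee l) := by
      fin_cases l
      · change Measurable fun x : T2 => (x.1.toCircle : ℂ)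
        exact (continuous_circle.comp
          (AddCircle.continuous_toCircle.comp continuous_fst)).measurable
      · change Measurable fun x : T2 => (x.2.toCircle : ℂ)
        exact (continuous_circle.comp
          (AddCircle.continuous_toCircle.comp continuous_snd)).measurable
    have hG : Measurable (fun p : Z0 × T2 => ‖ψ' l p.1 - ee l p.2‖) :=
      (((hψ'm l).comp measurable_fst).sub (heem.comp measurable_snd)).norm
    rw [hm', integral_map hmm.aemeasurable hG.aestronglyMeasurable]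
    refine le_trans (le_of_eq ?_) (H.psi l)
    refine integral_congr_ae ?_
    filter_upwards [haem] with p hp
    obtain ⟨z, hz⟩ := hp
    rw [hz, hψ'P]
  · intro g
    have h1 : m'.map Prod.fst = μ.map (P φ) := by
      rw [hm', hμ, Measure.map_map measurable_fst hmm, Measure.map_map hPm measurable_fst]
      rfl
    have hθm : Measurable (up φ (actT T g)) := up_meas φ (actT_meas g)
    have h2 : μ.map (up φ (actT T g)) = μ :=
      bij_inv (fun g : Γ => (gY hc g).toMeasurableEquiv) μ hμinv _ hθm (up_actT_bij φ g)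
        (fun y => up_in hRU φ hφ (actT_R g) y)
    have hgm : Measurable (act g) := (act g).continuous.measurable
    rw [h1, Measure.map_map hgm hPm]
    have h3 : μ.map (act g ∘ P φ) = μ.map (P φ ∘ up φ (actT T g)) := by
      refine Measure.map_congr ?_
      filter_upwards [hae] with y hy
      obtain ⟨z, rfl⟩ := hy
      simp only [Function.comp]
      rw [P_inl, up_inl, P_inl]
      rfl
    rw [h3, ← Measure.map_map hPm hθm, h2]
  · have hS : MeasurableSet {p : Z0 × T2 | p.1.1 ∉ T} :=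
      (measurable_fst.comp measurable_fst hT).compl
    rw [hm', Measure.map_apply hmm hS]
    rw [← nonpos_iff_eq_zero, ← (ae_iff.1 haem)]
    refine measure_mono ?_
    intro p hp hcon
    obtain ⟨z, hz⟩ := hcon
    apply hp
    simp only
    rw [hz, P_inl]
    exact z.2

end

end Pool.CAR
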