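import Pool.Agent.CAR.LN

/-!
# CAR module Univ: Feldman-Moore and the universal countable Borel equivalence relation

PAPER PROOF. `feldman_moore`. Let `F` be a Borel equivalence relation on `Y` with countable classes,
`X = {p : Y × Y | F p.1 p.2}` (standard Borel, `MeasurableSet.standardBorel`), `f = fst` on `X`: countable to
one. By `lusin_novikov` `X = ⋃ G_n`, `fst` injective on `G_n`. Let `G_{nm} = {(y,y') ∈ G_n | (y',y) ∈ G_m}`:
`fst` and `snd` are injective on `G_{nm}` and the `G_{nm}` cover `F`. Let `(A_k)` be a countable family of Borel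
sets separating the points of `Y`, closed under complements (e.g. from
`MeasurableSpace.CountablySeparated`, or an embedding of `Y` in `ℕ → Bool` / `ℝ`).
`G_{nmk} = {(y,y') ∈ G_{nm} | y ∈ A_k, y' ∉ A_k}` is the graph of a Borel injection from a Borel set
`⊆ A_k` onto a Borel set disjoint from it (`MeasurableSet.image_of_measurable_injOn`); so
`σ_{nmk} y = y'` if `(y,y') ∈ G_{nmk}` or `(y',y) ∈ G_{nmk}`, `σ y = y` otherwise, is a well defined Borel
involution of `Y` (Borel: on the image `E` of `G_{nmk}` under `fst` the map is `snd ∘ (fst|)⁻¹`), with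
`F y (σ y)`, and if `F y y'`, `y ≠ y'`, then `σ_{nmk} y = y'` for some `n,m,k`. Enumerate: `σ : ℕ → (Y ≃ᵐ Y)`
(involutions), `F y y' ↔ y = y' ∨ ∃ n, σ n y = y'`.
`exists_universal`. `Γ = FreeGroup ℕ` (countable), `U = Γ → ℕ → Bool` (or `Γ → ℝ`), `(g • x) h = x (g⁻¹ h)`,
`R x y ↔ ∃ g, g • x = y`. `R` is an equivalence relation with countable classes, Borel (countable union
of closed sets). Given `F` on `Y`, let `Γ` act on `Y` through `FreeGroup.lift` of the `σ n` in the group
`Equiv.Perm Y` (all elements act by Borel maps; `F y y' ↔ ∃ g, g • y = y'`: `⇐` by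
`FreeGroup.induction_on`). Let `e : Y → (ℕ → Bool)` (or `Y → ℝ`) be Borel and injective
(`exists_measurableEmbedding_real`, `measurable_mapNatBool`) and `ρ y = (g ↦ e (g⁻¹ • y))`. `ρ` is Borel,
injective and equivariant, so `F y y' ↔ R (ρ y) (ρ y')`.
-/

open MeasureTheory Topology Set

namespace Pool.CAR

open scoped Classical in
/-- the involution exchanging the domain and the range of a partial injection -/
noncomputable def fmMap {Y : Type} (S : Set (Y × Y)) (y : Y) : Y :=
  if h : ∃ z, (y, z) ∈ S then h.choose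
  else if h : ∃ z, (z, y) ∈ S then h.choose else y

theorem fmMap_fst {Y : Type} {S : Set (Y × Y)}
    (h1 : ∀ y z z', (y, z) ∈ S → (y, z') ∈ S → z = z') {y z : Y} (h : (y, z) ∈ S) :
    fmMap S y = z := by
  have hex : ∃ z, (y, z) ∈ S := ⟨z, h⟩
  unfold fmMap
  rw [dif_pos hex]
  exact h1 _ _ _ hex.choose_spec h

theorem fmMap_snd {Y : Type} {S : Set (Y × Y)}
    (h2 : ∀ y y' z, (y, z) ∈ S → (y', z) ∈ S → y = y')
    (h3 : ∀ y z z', (y, z) ∈ S → (z', y) ∈ S → False) {y z : Y} (h : (y, z) ∈ S) :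
    fmMap S z = y := by
  have hex : ∃ y, (y, z) ∈ S := ⟨y, h⟩
  have hne : ¬ ∃ z', (z, z') ∈ S := by
    rintro ⟨z', hz'⟩
    exact h3 _ _ _ hz' h
  unfold fmMap
  rw [dif_neg hne, dif_pos hex]
  exact h2 _ _ _ hex.choose_spec h

theorem fmMap_out {Y : Type} {S : Set (Y × Y)} {y : Y} (h : ¬ ∃ z, (y, z) ∈ S)
    (h' : ¬ ∃ z, (z, y) ∈ S) : fmMap S y = y := by
  unfold fmMap
  rw [dif_neg h, dif_neg h']

theorem fm_invol {Y : Type} [MeasurableSpace Y] [StandardBorelSpace Y] (S : Set (Y × Y))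
    (hS : MeasurableSet S) (h1 : ∀ y z z', (y, z) ∈ S → (y, z') ∈ S → z = z')
    (h2 : ∀ y y' z, (y, z) ∈ S → (y', z) ∈ S → y = y')
    (h3 : ∀ y z z', (y, z) ∈ S → (z', y) ∈ S → False) :
    ∃ σ : Y ≃ᵐ Y, (∀ y, σ y = y ∨ (y, σ y) ∈ S ∨ (σ y, y) ∈ S) ∧ ∀ y z, (y, z) ∈ S → σ y = z := by
  have hinv : ∀ y, fmMap S (fmMap S y) = y := by
    intro y
    by_cases ha : ∃ z, (y, z) ∈ S
    · obtain ⟨z, hz⟩ := ha
      rw [fmMap_fst h1 hz, fmMap_snd h2 h3 hz]
    · by_cases hb : ∃ z, (z, y) ∈ S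
      · obtain ⟨z, hz⟩ := hb
        rw [fmMap_snd h2 h3 hz, fmMap_fst h1 hz]
      · rw [fmMap_out ha hb, fmMap_out ha hb]
  have hi1 : InjOn (Prod.fst : Y × Y → Y) S := by
    rintro ⟨y, z⟩ hp ⟨y', z'⟩ hq h
    have h' : y = y' := h
    subst h'
    rw [h1 _ _ _ hp hq]
  have hi2 : InjOn (Prod.snd : Y × Y → Y) S := by
    rintro ⟨y, z⟩ hp ⟨y', z'⟩ hq h
    have h' : z = z' := h
    subst h'
    rw [h2 _ _ _ hp hq]
  have hD : MeasurableSet (Prod.fst '' S) := hS.image_of_measurable_injOn measurable_fst hi1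
  have hE : MeasurableSet (Prod.snd '' S) := hS.image_of_measurable_injOn measurable_snd hi2
  have hmeas : Measurable (fmMap S) := by
    intro B hB
    have hB1 : MeasurableSet (Prod.fst '' (S ∩ Prod.snd ⁻¹' B)) :=
      (hS.inter (measurable_snd hB)).image_of_measurable_injOn measurable_fst
        (hi1.mono inter_subset_left)
    have hB2 : MeasurableSet (Prod.snd '' (S ∩ Prod.fst ⁻¹' B)) :=
      (hS.inter (measurable_fst hB)).image_of_measurable_injOn measurable_snd
        (hi2.mono inter_subset_left)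
    have heq : fmMap S ⁻¹' B = (Prod.fst '' (S ∩ Prod.snd ⁻¹' B) ∪
        Prod.snd '' (S ∩ Prod.fst ⁻¹' B)) ∪ (B \ (Prod.fst '' S ∪ Prod.snd '' S)) := by
      ext y
      constructor
      · intro hy
        have hy' : fmMap S y ∈ B := hy
        by_cases ha : ∃ z, (y, z) ∈ S
        · obtain ⟨z, hz⟩ := ha
          rw [fmMap_fst h1 hz] at hy'
          exact Or.inl (Or.inl ⟨(y, z), ⟨hz, hy'⟩, rfl⟩)
        · by_cases hb : ∃ z, (z, y) ∈ S
          · obtain ⟨z, hz⟩ := hb
            rw [fmMap_snd h2 h3 hz] at hy'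
            exact Or.inl (Or.inr ⟨(z, y), ⟨hz, hy'⟩, rfl⟩)
          · rw [fmMap_out ha hb] at hy'
            refine Or.inr ⟨hy', ?_⟩
            rintro (⟨⟨u, v⟩, hp, rfl⟩ | ⟨⟨u, v⟩, hp, rfl⟩)
            · exact ha ⟨v, hp⟩
            · exact hb ⟨u, hp⟩
      · rintro ((⟨⟨u, v⟩, ⟨hp, hv⟩, rfl⟩ | ⟨⟨u, v⟩, ⟨hp, hu⟩, rfl⟩) | ⟨hy, hno⟩)
        · change fmMap S u ∈ B
          rw [fmMap_fst h1 hp]
          exact hv
        · change fmMap S v ∈ B
          rw [fmMap_snd h2 h3 hp]
          exact hu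
        · change fmMap S y ∈ B
          rw [fmMap_out]
          · exact hy
          · rintro ⟨z, hz⟩
            exact hno (Or.inl ⟨(y, z), hz, rfl⟩)
          · rintro ⟨z, hz⟩
            exact hno (Or.inr ⟨(z, y), hz, rfl⟩)
    rw [heq]
    exact (hB1.union hB2).union (hB.diff (hD.union hE))
  refine ⟨⟨⟨fmMap S, fmMap S, hinv, hinv⟩, hmeas, hmeas⟩, ?_, ?_⟩
  · intro y
    change fmMap S y = y ∨ (y, fmMap S y) ∈ S ∨ (fmMap S y, y) ∈ S
    by_cases ha : ∃ z, (y, z) ∈ S
    · obtain ⟨z, hz⟩ := ha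
      rw [fmMap_fst h1 hz]
      exact Or.inr (Or.inl hz)
    · by_cases hb : ∃ z, (z, y) ∈ S
      · obtain ⟨z, hz⟩ := hb
        rw [fmMap_snd h2 h3 hz]
        exact Or.inr (Or.inr hz)
      · exact Or.inl (fmMap_out ha hb)
  · intro y z hz
    exact fmMap_fst h1 hz

theorem feldman_moore {Y : Type} [MeasurableSpace Y] [StandardBorelSpace Y] (F : Y → Y → Prop)
    (hF : Equivalence F) (hm : MeasurableSet {p : Y × Y | F p.1 p.2})
    (hc : ∀ y : Y, {y' : Y | F y y'}.Countable) :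
    ∃ σ : ℕ → (Y ≃ᵐ Y), ∀ y y' : Y, F y y' ↔ y = y' ∨ ∃ n, σ n y = y' := by
  have hstd : StandardBorelSpace {p : Y × Y // F p.1 p.2} := hm.standardBorel
  obtain ⟨G, hG1, hG2, hG3⟩ := lusin_novikov (X := {p : Y × Y // F p.1 p.2}) (Y := Y)
    (fun p => p.1.1) (measurable_fst.comp measurable_subtype_coe) (by
      intro y
      refine ((hc y).image (fun z => (y, z))).preimage_of_injOn
        (f := (Subtype.val : {p : Y × Y // F p.1 p.2} → Y × Y))
        Subtype.val_injective.injOn |>.mono ?_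
      rintro ⟨⟨u, v⟩, huv⟩ hp
      have hu : u = y := hp
      subst hu
      exact ⟨v, huv, rfl⟩)
  set H : ℕ → Set (Y × Y) := fun n => Subtype.val '' (G n) with hH
  have hHm : ∀ n, MeasurableSet (H n) := fun n => hm.subtype_image (hG1 n)
  have hHF : ∀ n y z, (y, z) ∈ H n → F y z := by
    rintro n y z ⟨⟨⟨u, v⟩, huv⟩, _, h⟩
    obtain ⟨rfl, rfl⟩ := Prod.mk.inj h
    exact huv
  have hHi : ∀ n y z z', (y, z) ∈ H n → (y, z') ∈ H n → z = z' := by
    rintro n y z z' ⟨p, hp, h⟩ ⟨q, hq, h'⟩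
    have hpq : p = q := by
      apply hG2 n hp hq
      change p.1.1 = q.1.1
      rw [h, h']
    have h4 := h.symm.trans ((congrArg Subtype.val hpq).trans h')
    exact congrArg Prod.snd h4
  have hHc : ∀ y z, F y z → ∃ n, (y, z) ∈ H n := by
    intro y z hyz
    have : (⟨(y, z), hyz⟩ : {p : Y × Y // F p.1 p.2}) ∈ ⋃ n, G n := by rw [hG3]; trivial
    obtain ⟨n, hn⟩ := mem_iUnion.1 this
    exact ⟨n, ⟨_, hn, rfl⟩⟩
  -- a Borel injection to the Cantor space
  have he := MeasurableSpace.measurable_mapNatBool Y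
  have hei := MeasurableSpace.injective_mapNatBool Y
  set e : Y → ℕ → Bool := MeasurableSpace.mapNatBool Y with hedef
  have hek : ∀ k, Measurable (fun y => e y k) := fun k => (measurable_pi_apply k).comp he
  -- the partial injections
  set S : ℕ × ℕ × ℕ × Bool → Set (Y × Y) := fun q =>
    {p | p ∈ H q.1 ∧ p.swap ∈ H q.2.1 ∧ e p.1 q.2.2.1 = q.2.2.2 ∧ e p.2 q.2.2.1 = !q.2.2.2} with hSdef
  have hS : ∀ q, ∃ σ : Y ≃ᵐ Y, (∀ y, σ y = y ∨ (y, σ y) ∈ S q ∨ (σ y, y) ∈ S q) ∧
      ∀ y z, (y, z) ∈ S q → σ y = z := by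
    intro q
    refine fm_invol (S q) ?_ ?_ ?_ ?_
    · have m1 : MeasurableSet {p : Y × Y | p ∈ H q.1} := hHm _
      have m2 : MeasurableSet {p : Y × Y | p.swap ∈ H q.2.1} := measurable_swap (hHm _)
      have m3 : MeasurableSet {p : Y × Y | e p.1 q.2.2.1 = q.2.2.2} :=
        ((hek q.2.2.1).comp measurable_fst) (measurableSet_singleton q.2.2.2)
      have m4 : MeasurableSet {p : Y × Y | e p.2 q.2.2.1 = !q.2.2.2} :=
        ((hek q.2.2.1).comp measurable_snd) (measurableSet_singleton (!q.2.2.2))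
      exact m1.inter (m2.inter (m3.inter m4))
    · intro y z z' hp hq
      exact hHi _ _ _ _ hp.1 hq.1
    · intro y y' z hp hq
      exact hHi _ _ _ _ hp.2.1 hq.2.1
    · intro y z z' hp hq
      have h5 : e y q.2.2.1 = q.2.2.2 := hp.2.2.1
      have h6 : e y q.2.2.1 = !q.2.2.2 := hq.2.2.2
      rw [h5] at h6
      exact absurd h6 (by cases q.2.2.2 <;> decide)
  choose τ hτ1 hτ2 using hS
  obtain ⟨en, hen⟩ := exists_surjective_nat (ℕ × ℕ × ℕ × Bool)
  refine ⟨fun n => τ (en n), fun y y' => ⟨fun h => ?_, ?_⟩⟩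
  · by_cases hyy : y = y'
    · exact Or.inl hyy
    · right
      obtain ⟨n, hn⟩ := hHc y y' h
      obtain ⟨m, hm⟩ := hHc y' y (hF.symm h)
      obtain ⟨k, hk⟩ : ∃ k, e y k ≠ e y' k := by
        by_contra hcon
        push Not at hcon
        exact hyy (hei (funext hcon))
      obtain ⟨i, hi⟩ := hen (n, m, k, e y k)
      refine ⟨i, ?_⟩
      change τ (en i) y = y'
      rw [hi]
      refine hτ2 _ y y' ⟨hn, hm, rfl, ?_⟩
      change e y' k = !(e y k)
      revert hk
      cases e y k <;> cases e y' k <;> simp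
  · rintro (rfl | ⟨n, hn⟩)
    · exact hF.refl y
    · have h7 := hτ1 (en n) y
      change τ (en n) y = y' at hn
      rw [hn] at h7
      rcases h7 with h7 | h7 | h7
      · rw [h7]
        exact hF.refl y
      · exact hHF _ _ _ h7.1
      · exact hF.symm (hHF _ _ _ h7.1)

/-- the shift relation -/
def shR (x y : FreeGroup ℕ → ℕ → Bool) : Prop := ∃ g : FreeGroup ℕ, (fun h => x (g⁻¹ * h)) = y

theorem exists_universal : ∃ (U : Type) (_ : MeasurableSpace U) (_ : StandardBorelSpace U)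
    (R : U → U → Prop), Equivalence R ∧ MeasurableSet {p : U × U | R p.1 p.2} ∧
    (∀ x : U, {y : U | R x y}.Countable) ∧
    (∀ (Y : Type) [MeasurableSpace Y] [StandardBorelSpace Y] (F : Y → Y → Prop),
      Equivalence F → MeasurableSet {p : Y × Y | F p.1 p.2} →
      (∀ y : Y, {y' : Y | F y y'}.Countable) →
      ∃ f : Y → U, Measurable f ∧ ∀ y y' : Y, (F y y' ↔ R (f y) (f y'))) := by
  refine ⟨FreeGroup ℕ → ℕ → Bool, inferInstance, inferInstance, shR, ?_, ?_, ?_, ?_⟩
  · refine ⟨fun x => ⟨1, by simp⟩, ?_, ?_⟩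
    · rintro x y ⟨g, rfl⟩
      refine ⟨g⁻¹, ?_⟩
      funext h
      simp
    · rintro x y z ⟨g, rfl⟩ ⟨g', rfl⟩
      refine ⟨g' * g, ?_⟩
      funext h
      simp only [mul_inv_rev, mul_assoc]
  · have : {p : (FreeGroup ℕ → ℕ → Bool) × (FreeGroup ℕ → ℕ → Bool) | shR p.1 p.2} =
        ⋃ g : FreeGroup ℕ, {p | (fun h => p.1 (g⁻¹ * h)) = p.2} := by
      ext p
      simp [shR]
    rw [this]
    refine MeasurableSet.iUnion fun g => ?_
    refine measurableSet_eq_fun ?_ measurable_snd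
    refine measurable_pi_lambda _ fun h => ?_
    exact (measurable_pi_apply (g⁻¹ * h)).comp measurable_fst
  · intro x
    have : {y | shR x y} = range (fun g : FreeGroup ℕ => fun h => x (g⁻¹ * h)) := rfl
    rw [this]
    exact countable_range _
  · intro Y _ _ F hF hm hc
    obtain ⟨σ, hσ⟩ := feldman_moore F hF hm hc
    set φ : FreeGroup ℕ →* Equiv.Perm Y := FreeGroup.lift (fun n => (σ n).toEquiv) with hφ
    have hof : ∀ n, φ (FreeGroup.of n) = (σ n).toEquiv := fun n => by
      rw [hφ, FreeGroup.lift_apply_of]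
    have hofi : ∀ n y, (φ (FreeGroup.of n)⁻¹) y = (σ n).symm y := fun n y => by
      rw [map_inv, hof]
      rfl
    have hφm : ∀ g, Measurable (φ g) := by
      intro g
      induction g using FreeGroup.induction_on with
      | C1 => rw [map_one]; exact measurable_id
      | of n => rw [hof]; exact (σ n).measurable
      | inv_of n _ =>
        have : ⇑(φ (FreeGroup.of n)⁻¹) = (σ n).symm := funext (hofi n)
        rw [this]
        exact (σ n).symm.measurable
      | mul g h hg hh => rw [map_mul]; exact hg.comp hh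
    have hφF : ∀ g y, F y (φ g y) := by
      intro g
      induction g using FreeGroup.induction_on with
      | C1 => intro y; rw [map_one]; exact hF.refl y
      | of n =>
        intro y
        rw [hof]
        exact (hσ _ _).2 (Or.inr ⟨n, rfl⟩)
      | inv_of n _ =>
        intro y
        rw [hofi]
        refine hF.symm ((hσ _ _).2 (Or.inr ⟨n, ?_⟩))
        exact (σ n).apply_symm_apply y
      | mul g h hg hh =>
        intro y
        rw [map_mul]
        exact hF.trans (hh y) (hg _)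
    have hFφ : ∀ y y', F y y' ↔ ∃ g, φ g y = y' := by
      intro y y'
      constructor
      · intro h
        rcases (hσ y y').1 h with rfl | ⟨n, hn⟩
        · exact ⟨1, by rw [map_one]; rfl⟩
        · exact ⟨FreeGroup.of n, by rw [hof]; exact hn⟩
      · rintro ⟨g, rfl⟩
        exact hφF g y
    have he := MeasurableSpace.measurable_mapNatBool Y
    have hei := MeasurableSpace.injective_mapNatBool Y
    refine ⟨fun y g => MeasurableSpace.mapNatBool Y (φ g⁻¹ y), ?_, ?_⟩
    · exact measurable_pi_lambda _ fun g => he.comp (hφm _)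
    · intro y y'
      rw [hFφ]
      constructor
      · rintro ⟨g, rfl⟩
        refine ⟨g, ?_⟩
        funext h
        change MeasurableSpace.mapNatBool Y (φ (g⁻¹ * h)⁻¹ y) =
          MeasurableSpace.mapNatBool Y (φ h⁻¹ (φ g y))
        rw [mul_inv_rev, inv_inv, map_mul]
        rfl
      · rintro ⟨g, hg⟩
        refine ⟨g, hei ?_⟩
        have h8 : MeasurableSpace.mapNatBool Y (φ (g⁻¹ * 1)⁻¹ y) =
          MeasurableSpace.mapNatBool Y (φ (1 : FreeGroup ℕ)⁻¹ y') := congrFun hg 1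
        rw [mul_one, inv_inv, inv_one, map_one] at h8
        exact h8

end Pool.CAR
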