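import Pool.Agent.CAR.Sets
import Pool.Agent.CAR.Rig
import Pool.Agent.CAR.Clo
import Pool.Agent.CAR.Ex
import Pool.Agent.CAR.Bk
import Pool.Agent.CAR.Dis
import Pool.Agent.CAR.Trans
import Pool.Agent.CAR.Univ

/-!
# CAR: an aperiodic universal countable Borel equivalence relation without compact action
realization
-/

open MeasureTheory Topology Set

namespace Pool.CAR

theorem NW_fun (W : Dat (FreeGroup (Fin 3)) Z0) (t c c' : UnitAddCircle)
    (hc : (c, t) ∈ NW W (1 / 1200)) (hc' : (c', t) ∈ NW W (1 / 1200)) : c = c' := by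
  obtain ⟨m, hm, hA, hf⟩ := hc
  obtain ⟨m', hm', hA', hf'⟩ := hc'
  obtain ⟨h, hh⟩ := exists_Inn act ⟨1, fun z => by rw [map_one]; rfl⟩ W
  have H := hh _ c m hm hA
  have H' := hh _ c' m' hm' hA'
  exact rigidity act (by norm_num) H H' (hf.trans hf'.symm)

section EE
variable {T : Set UnitAddCircle} {U : Type} {RU : U → U → Prop}

theorem EE_equivalence (hRU : Equivalence RU) : Equivalence (EE T U RU) := by
  refine ⟨?_, ?_, ?_⟩
  · rintro (z | p)
    · exact R0_equivalence.refl _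
    · exact hRU.refl _
  · rintro (z | p) (z' | p') h
    · exact R0_equivalence.symm h
    · exact h
    · exact h
    · exact hRU.symm h
  · rintro (z | p) (z' | p') (z'' | p'') h h'
    · exact R0_equivalence.trans h h'
    · exact h'
    · exact h.elim
    · exact h
    · exact h
    · exact h.elim
    · exact h'
    · exact hRU.trans h h'

theorem EE_countable (hRU : ∀ x : U, {y : U | RU x y}.Countable)
    (x : {z : Z0 // z.1 ∈ T} ⊕ (U × ℕ)) : {y | EE T U RU x y}.Countable := by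
  rcases x with z | p
  · have h : {y | EE T U RU (Sum.inl z) y} ⊆
        Sum.inl '' ((fun z' : {z : Z0 // z.1 ∈ T} => z'.1) ⁻¹' {z' | R0 z.1 z'}) := by
      rintro (z' | p') hy
      · exact ⟨z', hy, rfl⟩
      · exact (hy : False).elim
    exact (((R0_countable z.1).preimage Subtype.val_injective).image _).mono h
  · have h : {y | EE T U RU (Sum.inr p) y} ⊆
        Sum.inr '' ({u | RU p.1 u} ×ˢ (univ : Set ℕ)) := by
      rintro (z' | p') hy
      · exact (hy : False).elim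
      · exact ⟨p', ⟨hy, mem_univ _⟩, rfl⟩
    exact (((hRU p.1).prod countable_univ).image _).mono h

theorem EE_infinite (hT : ∀ t ∈ T, addOrderOf t = 0) (hRU : Equivalence RU)
    (x : {z : Z0 // z.1 ∈ T} ⊕ (U × ℕ)) : {y | EE T U RU x y}.Infinite := by
  rcases x with z | p
  · have h1 := R0_infinite z.1 (hT _ z.2)
    have h2 : ∀ z' ∈ {z' | R0 z.1 z'}, z'.1 ∈ T := by
      rintro z' ⟨g, rfl⟩
      rw [act_fst]
      exact z.2
    have h3 : {z' | R0 z.1 z'} ⊆ (fun z' : {z : Z0 // z.1 ∈ T} => z'.1) ''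
        {z' | R0 z.1 z'.1} := fun z' hz' => ⟨⟨z', h2 z' hz'⟩, hz', rfl⟩
    have h4 : {z' : {z : Z0 // z.1 ∈ T} | R0 z.1 z'.1}.Infinite :=
      Set.Infinite.of_image _ (h1.mono h3)
    have h5 := h4.image (f := (Sum.inl : _ → {z : Z0 // z.1 ∈ T} ⊕ (U × ℕ)))
      Sum.inl_injective.injOn
    refine h5.mono ?_
    rintro _ ⟨z', hz', rfl⟩
    exact hz'
  · have h1 : Function.Injective fun n : ℕ =>
        (Sum.inr (p.1, n) : {z : Z0 // z.1 ∈ T} ⊕ (U × ℕ)) := by
      intro a b hab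
      simpa using hab
    refine (Set.infinite_range_of_injective h1).mono ?_
    rintro _ ⟨n, rfl⟩
    exact hRU.refl _

theorem EE_measurable (hT : MeasurableSet T) [MeasurableSpace U] [StandardBorelSpace U]
    (hRU : MeasurableSet {p : U × U | RU p.1 p.2}) :
    MeasurableSet {p : ({z : Z0 // z.1 ∈ T} ⊕ (U × ℕ)) × ({z : Z0 // z.1 ∈ T} ⊕ (U × ℕ)) |
      EE T U RU p.1 p.2} := by
  have e1 : {p : ({z : Z0 // z.1 ∈ T} ⊕ (U × ℕ)) × ({z : Z0 // z.1 ∈ T} ⊕ (U × ℕ)) |
      EE T U RU p.1 p.2} =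
      (Prod.map Sum.inl Sum.inl '' {p : {z : Z0 // z.1 ∈ T} × {z : Z0 // z.1 ∈ T} |
        R0 p.1.1 p.2.1}) ∪
      (Prod.map Sum.inr Sum.inr '' {p : (U × ℕ) × (U × ℕ) | RU p.1.1 p.2.1}) := by
    ext ⟨x, y⟩
    constructor
    · intro h
      rcases x with z | p <;> rcases y with z' | p'
      · exact Or.inl ⟨(z, z'), h, rfl⟩
      · exact (h : False).elim
      · exact (h : False).elim
      · exact Or.inr ⟨(p, p'), h, rfl⟩
    · rintro (⟨⟨z, z'⟩, h, heq⟩ | ⟨⟨p, p'⟩, h, heq⟩)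
      · rw [Prod.map_apply, Prod.mk.injEq] at heq
        obtain ⟨rfl, rfl⟩ := heq
        exact h
      · rw [Prod.map_apply, Prod.mk.injEq] at heq
        obtain ⟨rfl, rfl⟩ := heq
        exact h
  rw [e1]
  have hstd : StandardBorelSpace {z : Z0 // z.1 ∈ T} :=
    (hT.preimage (measurable_fst : Measurable fun z : Z0 => z.1)).standardBorel
  have hstd1 := standardBorel_sum {z : Z0 // z.1 ∈ T} (U × ℕ)
  have hstd2 : StandardBorelSpace ({z : Z0 // z.1 ∈ T} × {z : Z0 // z.1 ∈ T}) :=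
    StandardBorelSpace.prod
  have hstd3 : StandardBorelSpace ((U × ℕ) × (U × ℕ)) := StandardBorelSpace.prod
  refine MeasurableSet.union ?_ ?_
  · refine MeasurableSet.image_of_measurable_injOn ?_ (measurable_inl.prodMap measurable_inl)
      (Sum.inl_injective.prodMap Sum.inl_injective).injOn
    exact R0_measurable.preimage
      ((measurable_subtype_coe.comp measurable_fst).prodMk
        (measurable_subtype_coe.comp measurable_snd))
  · refine MeasurableSet.image_of_measurable_injOn ?_ (measurable_inr.prodMap measurable_inr)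
      (Sum.inr_injective.prodMap Sum.inr_injective).injOn
    exact hRU.preimage
      ((measurable_fst.comp measurable_fst).prodMk (measurable_fst.comp measurable_snd))

end EE

theorem final : ¬ (∀ (X : Type) [MeasurableSpace X] [StandardBorelSpace X] (E : X → X → Prop),
    Equivalence E →
    MeasurableSet {p : X × X | E p.1 p.2} →
    (∀ x : X, {y : X | E x y}.Countable) →
    (∀ x : X, {y : X | E x y}.Infinite) →
    (∀ (Y : Type) [MeasurableSpace Y] [StandardBorelSpace Y] (F : Y → Y → Prop),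
      Equivalence F →
      MeasurableSet {p : Y × Y | F p.1 p.2} →
      (∀ y : Y, {y' : Y | F y y'}.Countable) →
      ∃ f : Y → X, Measurable f ∧ ∀ y y' : Y, (F y y' ↔ E (f y) (f y'))) →
    ∃ (Γ : Type) (_ : Group Γ) (_ : Countable Γ)
      (Z : Type) (_ : TopologicalSpace Z) (_ : MeasurableSpace Z) (_ : BorelSpace Z)
      (_ : CompactSpace Z) (_ : TopologicalSpace.MetrizableSpace Z) (_ : MulAction Γ Z),
      (∀ g : Γ, Continuous (fun z : Z => g • z)) ∧
      ∃ φ : X ≃ᵐ Z, ∀ x y : X, (E x y ↔ ∃ g : Γ, g • φ x = φ y)) := by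
  intro hall
  obtain ⟨U, instU, instU', RU, hRU, hRUm, hRUc, hRUu⟩ := exists_universal
  have hcount : Countable {W : Dat (FreeGroup (Fin 3)) Z0 // W ∈ dats (FreeGroup (Fin 3)) Z0} :=
    (countable_dats (FreeGroup (Fin 3)) Z0).to_subtype
  obtain ⟨D, T, hD, hTm, hTo, hTr, hDT⟩ := exists_sets
    (fun k : {W : Dat (FreeGroup (Fin 3)) Z0 // W ∈ dats (FreeGroup (Fin 3)) Z0} =>
      NW k.1 (1 / 1200))
    (fun k => isClosed_NW _ _) (fun k t c c' h h' => NW_fun k.1 t c c' h h')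
  have hstd : StandardBorelSpace {z : Z0 // z.1 ∈ T} :=
    (hTm.preimage (measurable_fst : Measurable fun z : Z0 => z.1)).standardBorel
  have hstd1 := standardBorel_sum {z : Z0 // z.1 ∈ T} (U × ℕ)
  obtain ⟨Γ, i1, i2, Y, i3, i4, i5, i6, i7, i8, hc, φ, hφ⟩ :=
    hall ({z : Z0 // z.1 ∈ T} ⊕ (U × ℕ)) (EE T U RU) (EE_equivalence hRU)
      (EE_measurable hTm hRUm) (EE_countable hRUc) (EE_infinite hTo hRU) (by
        intro Y _ _ F hF hFm hFc
        obtain ⟨f, hf, hf'⟩ := hRUu Y F hF hFm hFc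
        exact ⟨fun y => Sum.inr (f y, 0), measurable_inr.comp (hf.prodMk measurable_const),
          fun y y' => hf' y y'⟩)
  have hcount' : Countable {W : Dat Γ Y // W ∈ dats Γ Y} := (countable_dats Γ Y).to_subtype
  have hcover : T ⊆ ⋃ k : {W : Dat Γ Y // W ∈ dats Γ Y}, {c : UnitAddCircle |
      ∃ m : Measure (Y × T2), IsProbabilityMeasure m ∧ Adm (gY hc) k.1 (1 / 1000000) c m} := by
    intro t ht
    obtain ⟨h, ψ, m, hm, H⟩ := start hTm hRU hc φ hφ ht
    obtain ⟨W, hW, hA⟩ := exists_Adm (gY hc) (by norm_num : (0 : ℝ) < 1 / 1000000) H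
    exact mem_iUnion.2 ⟨⟨W, hW⟩, m, hm, hA⟩
  obtain ⟨W, d, hd, m, hm, hA⟩ := baire_pick _ (fun k : {W : Dat Γ Y // W ∈ dats Γ Y} =>
    isClosed_CW (gY hc) k.1 (1 / 1000000)) hD hTr hcover
  obtain ⟨h, hh⟩ := exists_Inn (gY hc) ⟨1, fun z => by simp [gY]⟩ W.1
  have H := hh _ d m hm hA
  obtain ⟨h', ψ', m', hm', H', hnull⟩ := trans hTm hRU hc φ hφ H
  obtain ⟨t, ht, m'', hm'', H'', hfst⟩ := disint T hTm hTo (by norm_num) hnull H'
  obtain ⟨W', hW', hA'⟩ := exists_Adm act
    (by norm_num : (10 * (6 * (1 / 1000000)) : ℝ) < 1 / 1200) H''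
  exact hDT ⟨W', hW'⟩ d hd t ht ⟨m'', hm'', hA', hfst⟩

end Pool.CAR
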