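import Pool.Agent.CAR.Defs

/-!
# CAR module Haar: Haar measure of the torus, the relation `R0`

PAPER PROOF. `mp_tau`: Mathlib `measurePreserving_add_prod`, `measurePreserving_prod_add` for
`hA`, `hB` (haarAddCircle is left and right invariant); translation by `(c,0)` for `hS c`.
`act_fst`, `act_measure`: `FreeGroup.induction_on` (or: the set of all `g` with the property is a
subgroup containing the generators), `act (FreeGroup.of i) = sig i` (`FreeGroup.lift_apply_of`),
group law of `Z0 ≃ₜ Z0`: `(f * g) z = f (g z)`, `f⁻¹ = f.symm`. For the measure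
`(dirac t).prod lam` of the fibre over `t`: `sig i` maps it to itself since it equals the image of
`lam` under `v ↦ (t, v)` and `sig i (t, v) = (t, tau t i v)`.
`act_comm`: direct computation with `tau`, `tau.symm`.
`R0_*`: orbit relation of a countable group of homeomorphisms; measurable: countable union of the
closed sets `{p | act g p.1 = p.2}`. `R0_infinite`: the points `(t, v + (n t, 0))`, `n ∈ ℕ`
(`g = (of 2)^n`) are pairwise distinct if `t` has infinite order.
`inv_eq_lam`: let `H` be the set of all `u : T2` such that `∫ F (v + u) dρ = ∫ F dρ` for all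
continuous `F`. `H` is closed (`u ↦ ∫ F (v+u) dρ` is continuous: `F` bounded, dominated
convergence) and closed under addition and negation. It contains `(t,0)` and `(0,t)`, hence
`(n t, 0)`, `(0, n t)` for all integers `n`; the multiples of `t` are dense in the circle
(`AddCircle.dense_zmultiples_iff`-type lemma, or `AddCircle.dense_addSubgroup_iff_ne_zmultiples`, or
a closed infinite subgroup of the circle is everything), so `H = T2`. Hence `ρ` is invariant under
all translations (finite measures agreeing on continuous functions are equal: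
`ext_of_forall_integral_eq_of_IsFiniteMeasure`) and
`Measure.isAddHaarMeasure_eq_of_isProbabilityMeasure` gives `ρ = lam` (or
`Measure.isAddLeftInvariant_eq_smul`).
-/

open MeasureTheory Topology

namespace Pool.CAR

theorem mp_tau (c : UnitAddCircle) (i : Fin 3) : MeasurePreserving (tau c i) lam lam := by
  fin_cases i
  · exact measurePreserving_add_prod (AddCircle.haarAddCircle (T := 1))
      (AddCircle.haarAddCircle (T := 1))
  · exact measurePreserving_prod_add (AddCircle.haarAddCircle (T := 1))
      (AddCircle.haarAddCircle (T := 1))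
  · exact (measurePreserving_add_right (AddCircle.haarAddCircle (T := 1)) c).prod
      (MeasurePreserving.id (AddCircle.haarAddCircle (T := 1)))

theorem act_of (i : Fin 3) : act (FreeGroup.of i) = sig i := by
  unfold act
  exact FreeGroup.lift_apply_of

theorem hz_mul (g h : FreeGroup (Fin 3)) (z : Z0) : act (g * h) z = act g (act h z) := by
  rw [map_mul]
  rfl

theorem hz_one (z : Z0) : act 1 z = z := by
  rw [map_one]
  rfl

theorem hz_inv (g : FreeGroup (Fin 3)) : act g⁻¹ = (act g).symm := by
  rw [map_inv]
  rfl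

theorem hz_inv_apply (g : FreeGroup (Fin 3)) (z : Z0) : act g⁻¹ (act g z) = z := by
  rw [← hz_mul, inv_mul_cancel, hz_one]

theorem act_fst (g : FreeGroup (Fin 3)) (z : Z0) : (act g z).1 = z.1 := by
  induction g using FreeGroup.induction_on generalizing z with
  | C1 => rw [hz_one]
  | of i =>
    show (act (FreeGroup.of i) z).1 = z.1
    rw [act_of]
    rfl
  | inv_of i ih =>
    show (act (FreeGroup.of i)⁻¹ z).1 = z.1
    rw [hz_inv, act_of]
    rfl
  | mul g h hg hh => rw [hz_mul, hg, hh]

theorem act_measure (g : FreeGroup (Fin 3)) (t : UnitAddCircle) :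
    ((Measure.dirac t).prod lam).map (act g) = (Measure.dirac t).prod lam := by
  have hof : ∀ i : Fin 3, ((Measure.dirac t).prod lam).map (act (FreeGroup.of i)) =
      (Measure.dirac t).prod lam := by
    intro i
    have hm : Measurable (Prod.mk t : T2 → Z0) := measurable_prodMk_left
    rw [Measure.dirac_prod, Measure.map_map (act _).continuous.measurable hm]
    have h1 : (act (FreeGroup.of i) : Z0 → Z0) ∘ (Prod.mk t : T2 → Z0) =
        (Prod.mk t : T2 → Z0) ∘ (tau t i : T2 → T2) := by
      funext v
      simp only [Function.comp, act_of]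
      rfl
    rw [h1, ← Measure.map_map hm (tau t i).continuous.measurable, (mp_tau t i).map_eq]
  induction g using FreeGroup.induction_on with
  | C1 =>
    rw [map_one]
    exact Measure.map_id
  | of i => exact hof i
  | inv_of i ih =>
    show ((Measure.dirac t).prod lam).map (act (FreeGroup.of i)⁻¹) = _
    have h1 := hof i
    conv_lhs => rw [← h1]
    rw [Measure.map_map (act _).continuous.measurable (act _).continuous.measurable]
    have h2 : (act (FreeGroup.of i)⁻¹ : Z0 → Z0) ∘ (act (FreeGroup.of i) : Z0 → Z0) = id := by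
      funext z
      exact hz_inv_apply _ z
    rw [h2, Measure.map_id]
  | mul g h hg hh =>
    have h2 : (act (g * h) : Z0 → Z0) = (act g : Z0 → Z0) ∘ (act h : Z0 → Z0) := by
      funext z
      exact hz_mul g h z
    rw [h2, ← Measure.map_map (act _).continuous.measurable (act _).continuous.measurable, hh, hg]

theorem act_s (z : Z0) : act (FreeGroup.of 2) z = (z.1, z.2 + (z.1, 0)) := by
  rw [act_of]
  show (z.1, (z.2.1 + z.1, z.2.2)) = (z.1, z.2 + (z.1, 0))
  rw [Prod.mk.injEq]
  refine ⟨rfl, ?_⟩
  ext1
  · rfl
  · show z.2.2 = z.2.2 + 0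
    rw [add_zero]

theorem act_comm (z : Z0) : act (FreeGroup.of 1 * FreeGroup.of 2 * (FreeGroup.of 1)⁻¹ *
    (FreeGroup.of 2)⁻¹) z = (z.1, z.2 + (0, z.1)) := by
  rw [hz_mul, hz_mul, hz_mul, hz_inv, hz_inv, act_of, act_of]
  show (z.1, ((z.2.1 - z.1) + z.1, ((z.2.1 - z.1) + z.1) + (z.2.2 - (z.2.1 - z.1)))) = _
  rw [Prod.mk.injEq]
  refine ⟨rfl, ?_⟩
  ext1
  · show z.2.1 - z.1 + z.1 = z.2.1 + 0
    abel
  · show ((z.2.1 - z.1) + z.1) + (z.2.2 - (z.2.1 - z.1)) = z.2.2 + z.1
    abel

theorem R0_equivalence : Equivalence R0 := by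
  refine ⟨fun z => ⟨1, hz_one z⟩, ?_, ?_⟩
  · rintro z z' ⟨g, rfl⟩
    exact ⟨g⁻¹, hz_inv_apply g z⟩
  · rintro z z' z'' ⟨g, rfl⟩ ⟨h, rfl⟩
    exact ⟨h * g, hz_mul h g z⟩

theorem R0_measurable : MeasurableSet {p : Z0 × Z0 | R0 p.1 p.2} := by
  have h1 : {p : Z0 × Z0 | R0 p.1 p.2} =
      ⋃ g : FreeGroup (Fin 3), {p : Z0 × Z0 | act g p.1 = p.2} := by
    ext p
    simp only [Set.mem_ofPred_eq, Set.mem_iUnion, R0]
  rw [h1]
  have hc : Countable (FreeGroup (Fin 3)) := inferInstance
  have i1 : SecondCountableTopology UnitAddCircle := inferInstance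
  have i2 : SecondCountableTopology T2 := inferInstance
  have i3 : SecondCountableTopology Z0 := inferInstance
  have i4 : BorelSpace T2 := Prod.borelSpace
  have i5 : BorelSpace Z0 := Prod.borelSpace
  have i6 : BorelSpace (Z0 × Z0) := Prod.borelSpace
  refine MeasurableSet.iUnion fun g => ?_
  have : IsClosed {p : Z0 × Z0 | act g p.1 = p.2} :=
    isClosed_eq ((act g).continuous.comp continuous_fst) continuous_snd
  exact this.measurableSet

theorem R0_countable (z : Z0) : {z' | R0 z z'}.Countable := by
  have hc : Countable (FreeGroup (Fin 3)) := inferInstance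
  exact Set.countable_range (fun g : FreeGroup (Fin 3) => act g z)

theorem hz_pow (n : ℕ) (z : Z0) : act (FreeGroup.of 2 ^ n) z = (z.1, z.2 + (n • z.1, 0)) := by
  induction n with
  | zero =>
    rw [pow_zero, hz_one, zero_smul]
    ext1
    · rfl
    · show z.2 = z.2 + 0
      rw [add_zero]
  | succ n ih =>
    rw [pow_succ', hz_mul, ih, act_s]
    rw [Prod.mk.injEq]
    refine ⟨rfl, ?_⟩
    show z.2 + (n • z.1, 0) + (z.1, 0) = z.2 + ((n + 1) • z.1, 0)
    have h : ((n • z.1, 0) : T2) + (z.1, 0) = ((n + 1) • z.1, 0) := by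
      rw [Prod.mk_add_mk, add_zero, succ_nsmul]
    rw [add_assoc, h]

theorem R0_infinite (z : Z0) (hz : addOrderOf z.1 = 0) : {z' | R0 z z'}.Infinite := by
  apply Set.infinite_of_injective_forall_mem (f := fun n : ℕ => act (FreeGroup.of 2 ^ n) z)
  · intro n m h
    simp only [hz_pow, Prod.mk.injEq, true_and, add_right_inj, and_true] at h
    have h2 : ¬ IsOfFinAddOrder z.1 := by
      rw [← addOrderOf_eq_zero_iff]
      exact hz
    exact (injective_nsmul_iff_not_isOfFinAddOrder.2 h2) h
  · intro n
    exact ⟨_, rfl⟩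

theorem inv_eq_lam (ρ : Measure T2) [IsProbabilityMeasure ρ] (t : UnitAddCircle)
    (ht : addOrderOf t = 0)
    (h1 : ∀ F : C(T2, ℝ), ∫ v, F (v + (t, 0)) ∂ρ = ∫ v, F v ∂ρ)
    (h2 : ∀ F : C(T2, ℝ), ∫ v, F (v + (0, t)) ∂ρ = ∫ v, F v ∂ρ) : ρ = lam := by
  let tr : T2 → C(T2, ℝ) → C(T2, ℝ) := fun u F =>
    ⟨fun v => F (v + u), F.continuous.comp (continuous_id.add continuous_const)⟩
  let H : AddSubgroup T2 :=
    { carrier := {u | ∀ F : C(T2, ℝ), ∫ v, F (v + u) ∂ρ = ∫ v, F v ∂ρ}
      zero_mem' := by
        intro F
        simp only [add_zero]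
      add_mem' := by
        intro a b ha hb F
        have h3 := hb F
        have h4 := ha (tr b F)
        have h5 : ∀ v, (tr b F) (v + a) = F (v + (a + b)) := by
          intro v
          show F (v + a + b) = _
          rw [add_assoc]
        simp only [h5] at h4
        rw [h4]
        exact h3
      neg_mem' := by
        intro a ha F
        have h4 := ha (tr (-a) F)
        have h5 : ∀ v, (tr (-a) F) (v + a) = F v := by
          intro v
          show F (v + a + -a) = _
          rw [add_neg_cancel_right]
        simp only [h5] at h4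
        exact h4.symm }
  have hmem : ∀ u, u ∈ H ↔ ∀ F : C(T2, ℝ), ∫ v, F (v + u) ∂ρ = ∫ v, F v ∂ρ := fun u => Iff.rfl
  have hclosed : IsClosed (H : Set T2) := by
    have : (H : Set T2) = ⋂ F : C(T2, ℝ), {u | ∫ v, F (v + u) ∂ρ = ∫ v, F v ∂ρ} := by
      ext u
      simp only [SetLike.mem_coe, hmem, Set.mem_iInter, Set.mem_ofPred_eq]
    rw [this]
    refine isClosed_iInter fun F => isClosed_eq ?_ continuous_const
    have hc : Continuous (Function.uncurry (fun (u : T2) (v : T2) => F (v + u))) := by
      apply F.continuous.comp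
      exact continuous_snd.add continuous_fst
    have := continuous_parametric_integral_of_continuous (μ := ρ) hc (s := Set.univ)
      isCompact_univ
    simpa using this
  have hd := (AddCircle.denseRange_zsmul_iff (p := 1)).2 ht
  have hdense : Dense (H : Set T2) := by
    have h3 := hd.prodMap hd
    refine Dense.mono ?_ h3
    rintro _ ⟨⟨n, m⟩, rfl⟩
    have h4 : ((t, 0) : T2) ∈ H := h1
    have h5 : ((0, t) : T2) ∈ H := h2
    have h6 := H.add_mem (H.zsmul_mem h4 n) (H.zsmul_mem h5 m)
    have h7 : n • ((t, 0) : T2) + m • ((0, t) : T2) = (n • t, m • t) := by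
      ext1
      · show n • t + m • (0 : UnitAddCircle) = n • t
        rw [smul_zero, add_zero]
      · show n • (0 : UnitAddCircle) + m • t = m • t
        rw [smul_zero, zero_add]
    rw [h7] at h6
    exact h6
  have hall : ∀ u : T2, u ∈ H := by
    intro u
    have : (H : Set T2) = Set.univ := by
      rw [← hclosed.closure_eq]
      exact hdense.closure_eq
    have h8 : u ∈ (H : Set T2) := by
      rw [this]
      exact Set.mem_univ u
    exact h8
  have hinv : ρ.IsAddLeftInvariant := by
    refine ⟨fun u => ?_⟩
    have hm : Measurable (fun v : T2 => u + v) := (continuous_const.add continuous_id).measurable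
    have : IsFiniteMeasure (ρ.map (fun v => u + v)) := inferInstance
    apply ext_of_forall_integral_eq_of_IsFiniteMeasure
    intro f
    rw [integral_map hm.aemeasurable f.continuous.aestronglyMeasurable]
    have h3 := hall u ⟨f, f.continuous⟩
    simp only [ContinuousMap.coe_mk] at h3
    rw [← h3]
    congr 1
    funext v
    rw [add_comm]
  have h5 := Measure.isAddInvariant_eq_smul_of_compactSpace ρ lam
  have h6 : ρ Set.univ = Measure.addHaarScalarFactor ρ lam • lam Set.univ := by
    conv_lhs => rw [h5]
    rfl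
  rw [measure_univ, measure_univ, ENNReal.smul_def, smul_eq_mul, mul_one] at h6
  have h7 : Measure.addHaarScalarFactor ρ lam = 1 := by exact_mod_cast h6.symm
  rw [h5, h7, one_smul]

end Pool.CAR
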