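import Mathlib

/-!
# CAR module LN: the Lusin-Novikov theorem

A countable-to-one Borel map between standard Borel spaces is injective on each of countably many
Borel sets covering the space.

PAPER PROOF (no ordinals). Choose Polish topologies with `f` continuous
(`upgradeStandardBorel`, `Measurable.exists_continuous` or `exists_polishSpace_forall_le`) and a complete
metric on `X`. Call a Borel set small if it is contained in a countable union of Borel sets on which `f` is
injective; let `𝓖` be the set of all Borel `Z ⊆ X` with `X \ Z` covered by countably many Borel sets on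
which `f` is injective. `𝓖` is closed under countable intersections. We show `∅ ∈ 𝓖`.
APPROXIMATIONS: `𝓤_n` = the (countable) set of all `U : (Fin n → Bool) → 𝓑`, `𝓑` a countable basis of the
topology of `X` (with `X` itself as the only approximation of level `0`, or add `univ` to `𝓑`). `V ∈ 𝓤_{n+1}`
extends `U ∈ 𝓤_n` if for all `s`: `closure V(s⌢b) ⊆ U(s)` for `b = 0, 1`, `V(s⌢0)`, `V(s⌢1)` are disjoint, and
`diam V(s⌢b) ≤ 2^{-n}`. For a Borel `Z`: `A(U, Z) = ⋂_s f(U(s) ∩ Z)`, an analytic subset of `Y`. `U` is dead for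
`Z` if `A(U,Z) = ∅`; if `Z' ⊆ Z` dead for `Z` implies dead for `Z'`. For each `U` which is dead for some member of
`𝓖` choose one, `Z_U`, and let `Z = ⋂ Z_U ∈ 𝓖` (`⋃ 𝓤_n` is countable). Then every `U` which is dead for some
member of `𝓖` is dead for `Z`.
CLAIM: if `U ∈ 𝓤_n` is alive (= not dead) for `Z`, then it has an extension `V` alive for `Z`. Suppose not.
`D_s := {f x | x, x' ∈ U(s) ∩ Z, x ≠ x', f x = f x'}` is analytic (image of a Borel subset of `X × X`). If
`y ∈ ⋂_s D_s`, choose `x_s ≠ x'_s` in `U(s) ∩ Z` over `y` and small basic neighbourhoods: an extension `V` with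
`y ∈ A(V,Z)`. So `⋂_s D_s = ∅`. FINITE NOVIKOV: analytic sets `D_s` (`s` in a nonempty finite set) with
empty intersection have Borel supersets `B_s ⊇ D_s` with empty intersection (induction from
`AnalyticSet.measurablySeparable`: separate `D_{s0}` from `⋂_{s ≠ s0} D_s` by `B`, apply the induction
hypothesis to `D_s ∩ B`, `s ≠ s0`, giving `B'_s`, put `B_{s0} = B`, `B_s = B'_s ∪ Bᶜ`). Let
`G_s = U(s) ∩ Z ∩ f⁻¹(B_sᶜ)`: Borel and `f` is injective on `G_s` (otherwise `y ∈ D_s ⊆ B_s`). So
`Z' = Z \ ⋃_s G_s ∈ 𝓖`. If `y ∈ A(U, Z')`, `y = f x_s`, `x_s ∈ U(s) ∩ Z'`, then `x_s ∉ G_s` gives `y ∈ B_s` for all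
`s`, impossible. So `U` is dead for `Z' ∈ 𝓖`, hence for `Z`. Contradiction.
END: if `Z ≠ ∅` then the approximation of level `0` is alive for `Z`, and the claim gives
`U_0, U_1, ...`, each an extension of the one before, all alive. For `β : ℕ → Bool` the sets
`U_n(β|n)` have closures shrinking to a point `x_β` (`CantorScheme`), and `β ↦ x_β` is injective. Choose
`y_n ∈ A(U_n, Z)`, `y_n = f(x)`, `x ∈ U_n(β|n)`, so `y_n → f(x_β)` for every `β` by continuity. So all `f(x_β)`
are equal, and `f⁻¹{y}` is uncountable. Contradiction. So `Z = ∅ ∈ 𝓖`.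
-/

open MeasureTheory Topology Set

set_option linter.unusedSectionVars false

namespace Pool.CAR

section analytic

variable {Y : Type} [TopologicalSpace Y] [PolishSpace Y] [MeasurableSpace Y] [BorelSpace Y]

omit [PolishSpace Y] [MeasurableSpace Y] [BorelSpace Y] in
lemma ln_inter [T2Space Y] {s t : Set Y} (hs : AnalyticSet s) (ht : AnalyticSet t) :
    AnalyticSet (s ∩ t) := by
  rw [inter_eq_iInter]
  refine AnalyticSet.iInter (fun b => ?_)
  cases b
  · exact ht
  · exact hs

lemma ln_finter {ι : Type*} (S : Finset ι) (D : ι → Set Y) (hD : ∀ i, AnalyticSet (D i))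
    {E : Set Y} (hE : MeasurableSet E) : AnalyticSet (E ∩ ⋂ i ∈ S, D i) := by
  classical
  induction S using Finset.induction_on with
  | empty =>
    simpa using hE.analyticSet
  | insert a S ha ih =>
    have h1 : E ∩ ⋂ i ∈ insert a S, D i = D a ∩ (E ∩ ⋂ i ∈ S, D i) := by
      rw [Finset.set_biInter_insert]
      ext x
      simp only [mem_inter_iff]
      tauto
    rw [h1]
    exact ln_inter (hD a) ih

/-- Finitely many analytic sets with empty intersection are contained in Borel sets with empty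
intersection. -/
lemma ln_novikov {ι : Type*} (D : ι → Set Y) (hD : ∀ i, AnalyticSet (D i)) (S : Finset ι) :
    ∀ E : Set Y, MeasurableSet E → E ∩ ⋂ i ∈ S, D i = ∅ →
    ∃ B : ι → Set Y, (∀ i, MeasurableSet (B i)) ∧ (∀ i, D i ⊆ B i) ∧ E ∩ ⋂ i ∈ S, B i = ∅ := by
  classical
  induction S using Finset.induction_on with
  | empty =>
    intro E _ h
    exact ⟨fun _ => univ, fun _ => MeasurableSet.univ, fun _ => subset_univ _, by simpa using h⟩
  | insert a S ha ih =>
    intro E hE h
    have hdis : Disjoint (D a) (E ∩ ⋂ i ∈ S, D i) := by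
      rw [disjoint_iff_inter_eq_empty, ← h, Finset.set_biInter_insert]
      ext x
      simp only [mem_inter_iff]
      tauto
    obtain ⟨u, hu1, hu2, hu3⟩ := (hD a).measurablySeparable (ln_finter S D hD hE) hdis
    obtain ⟨B, hB1, hB2, hB3⟩ := ih (E ∩ u) (hE.inter hu3) (by
      rw [disjoint_iff_inter_eq_empty] at hu2
      rw [← hu2]
      ext x
      simp only [mem_inter_iff]
      tauto)
    refine ⟨fun i => if i = a then u else B i, fun i => ?_, fun i => ?_, ?_⟩
    · dsimp only
      split_ifs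
      · exact hu3
      · exact hB1 i
    · dsimp only
      split_ifs with hi
      · rw [hi]; exact hu1
      · exact hB2 i
    · rw [Finset.set_biInter_insert]
      simp only [if_true]
      rw [eq_empty_iff_forall_notMem] at hB3 ⊢
      rintro x ⟨hxE, hxu, hx⟩
      refine hB3 x ⟨⟨hxE, hxu⟩, ?_⟩
      simp only [mem_iInter] at hx ⊢
      intro i hi
      have h1 := hx i hi
      rwa [if_neg (by rintro rfl; exact ha hi)] at h1

end analytic

section main

variable {X Y : Type} [MetricSpace X] [CompleteSpace X] [SecondCountableTopology X]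
  [MeasurableSpace X] [BorelSpace X] [TopologicalSpace Y] [PolishSpace Y] [MeasurableSpace Y]
  [BorelSpace Y]

variable (X) in
/-- The basic open sets, together with the whole space. -/
def LnB : Set (Set X) := insert univ (TopologicalSpace.countableBasis X)

variable (X) in
/-- The approximations of level `n`. -/
abbrev LnA (n : ℕ) : Type := List.Vector Bool n → LnB X

/-- Alive approximations. -/
def LnAlive (f : X → Y) {n : ℕ} (U : LnA X n) (Z : Set X) : Prop :=
  (⋂ s, f '' ((U s : Set X) ∩ Z)).Nonempty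

/-- Extensions of approximations. -/
def LnExt {n : ℕ} (U : LnA X n) (V : LnA X (n + 1)) : Prop :=
  (∀ s b, closure (V (b ::ᵥ s) : Set X) ⊆ U s) ∧
  (∀ s, Disjoint (V (true ::ᵥ s) : Set X) (V (false ::ᵥ s))) ∧
  (∀ s b, Metric.ediam (V (b ::ᵥ s) : Set X) ≤ ENNReal.ofReal ((1 / 2) ^ n))

/-- Sets with a complement covered by countably many Borel sets of injectivity. -/
def LnG (f : X → Y) (Z : Set X) : Prop :=
  MeasurableSet Z ∧ ∃ S : Set (Set X), S.Countable ∧ (∀ G ∈ S, MeasurableSet G ∧ InjOn f G) ∧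
    Zᶜ ⊆ ⋃₀ S

lemma ln_G_univ (f : X → Y) : LnG f univ :=
  ⟨MeasurableSet.univ, ∅, countable_empty, by simp, by simp⟩

lemma ln_G_iInter (f : X → Y) {ι : Type*} [Countable ι] (Z : ι → Set X) (h : ∀ i, LnG f (Z i)) :
    LnG f (⋂ i, Z i) := by
  choose hm S hS1 hS2 hS3 using h
  refine ⟨MeasurableSet.iInter hm, ⋃ i, S i, countable_iUnion hS1, ?_, ?_⟩
  · intro G hG
    obtain ⟨i, hi⟩ := mem_iUnion.1 hG
    exact hS2 i G hi
  · rw [compl_iInter]
    intro x hx
    obtain ⟨i, hi⟩ := mem_iUnion.1 hx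
    obtain ⟨G, hG, hxG⟩ := hS3 i hi
    exact ⟨G, mem_iUnion.2 ⟨i, hG⟩, hxG⟩

lemma ln_isOpen (U : LnB X) : IsOpen (U : Set X) := by
  rcases U with ⟨U, rfl | hU⟩
  · exact isOpen_univ
  · exact TopologicalSpace.isOpen_of_mem_countableBasis hU

instance ln_countable : Countable (LnB X) :=
  ((TopologicalSpace.countable_countableBasis X).insert univ).to_subtype

lemma ln_alive_mono (f : X → Y) {n : ℕ} (U : LnA X n) {Z Z' : Set X} (h : Z' ⊆ Z)
    (hU : LnAlive f U Z') : LnAlive f U Z := by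
  obtain ⟨y, hy⟩ := hU
  refine ⟨y, ?_⟩
  rw [mem_iInter] at hy ⊢
  intro s
  exact image_mono (inter_subset_inter_right _ h) (hy s)

/-- Small basic neighbourhoods. -/
lemma ln_nhd {O : Set X} (hO : IsOpen O) {x : X} (hx : x ∈ O) {ε : ℝ} (hε : 0 < ε) :
    ∃ V : LnB X, x ∈ (V : Set X) ∧ closure (V : Set X) ⊆ O ∧
      Metric.ediam (V : Set X) ≤ ENNReal.ofReal ε ∧ (V : Set X) ⊆ O ∩ Metric.ball x (ε / 2) := by
  have h1 : O ∩ Metric.ball x (ε / 2) ∈ 𝓝 x :=
    Filter.inter_mem (hO.mem_nhds hx) (Metric.ball_mem_nhds x (by linarith))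
  obtain ⟨W, hW1, hW2, hW3⟩ := exists_mem_nhds_isClosed_subset h1
  obtain ⟨V, hV, hxV, hVW⟩ :=
    (TopologicalSpace.isBasis_countableBasis X).mem_nhds_iff.1 hW1
  refine ⟨⟨V, Or.inr hV⟩, hxV, ?_, ?_, hVW.trans hW3⟩
  · exact (closure_minimal hVW hW2).trans (hW3.trans inter_subset_left)
  · have h2 : V ⊆ Metric.ball x (ε / 2) := hVW.trans (hW3.trans inter_subset_right)
    apply Metric.ediam_le
    intro a ha b hb
    rw [edist_dist]
    apply ENNReal.ofReal_le_ofReal
    have ha' := Metric.mem_ball.1 (h2 ha)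
    have hb' := Metric.mem_ball'.1 (h2 hb)
    linarith [dist_triangle a x b]

/-- The extension step. -/
lemma ln_step (f : X → Y) (hf : Continuous f) {Z : Set X} (hZ : LnG f Z)
    (hdead : ∀ (n : ℕ) (U : LnA X n) (Z' : Set X), LnG f Z' → ¬ LnAlive f U Z' →
      ¬ LnAlive f U Z) {n : ℕ} (U : LnA X n) (hU : LnAlive f U Z) :
    ∃ V : LnA X (n + 1), LnExt U V ∧ LnAlive f V Z := by
  classical
  by_contra hcon
  let P : List.Vector Bool n → Set (X × X) := fun s =>
    {p | p.1 ∈ (U s : Set X) ∩ Z ∧ p.2 ∈ (U s : Set X) ∩ Z ∧ p.1 ≠ p.2 ∧ f p.1 = f p.2}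
  let D : List.Vector Bool n → Set Y := fun s => (fun p : X × X => f p.1) '' P s
  have hmP : ∀ s, MeasurableSet (P s) := by
    intro s
    have h1 : MeasurableSet ((U s : Set X) ∩ Z) := (ln_isOpen (U s)).measurableSet.inter hZ.1
    have h2 : MeasurableSet {p : X × X | p.1 = p.2} :=
      (isClosed_eq continuous_fst continuous_snd).measurableSet
    have h3 : MeasurableSet {p : X × X | f p.1 = f p.2} :=
      (isClosed_eq (hf.comp continuous_fst) (hf.comp continuous_snd)).measurableSet
    exact (measurable_fst h1).inter ((measurable_snd h1).inter (h2.compl.inter h3))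
  have hD : ∀ s, AnalyticSet (D s) := fun s =>
    (hmP s).analyticSet_image (hf.measurable.comp measurable_fst)
  have hempty : univ ∩ ⋂ s ∈ (Finset.univ : Finset (List.Vector Bool n)), D s = ∅ := by
    rw [univ_inter, eq_empty_iff_forall_notMem]
    intro y hy
    simp only [Finset.mem_univ, iInter_true, mem_iInter] at hy
    choose p hp hpy using hy
    -- separated neighbourhoods
    have hsep : ∀ s, ∃ V W : LnB X, (p s).1 ∈ (V : Set X) ∧ (p s).2 ∈ (W : Set X) ∧
        closure (V : Set X) ⊆ U s ∧ closure (W : Set X) ⊆ U s ∧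
        Metric.ediam (V : Set X) ≤ ENNReal.ofReal ((1 / 2) ^ n) ∧
        Metric.ediam (W : Set X) ≤ ENNReal.ofReal ((1 / 2) ^ n) ∧
        Disjoint (V : Set X) (W : Set X) := by
      intro s
      obtain ⟨h1, h2, h3, h4⟩ := hp s
      have hd : 0 < dist (p s).1 (p s).2 := dist_pos.2 h3
      have hε : 0 < min ((1 / 2 : ℝ) ^ n) (dist (p s).1 (p s).2) := lt_min (by positivity) hd
      obtain ⟨V, hV1, hV2, hV3, hV4⟩ := ln_nhd (ln_isOpen (U s)) h1.1 hε
      obtain ⟨W, hW1, hW2, hW3, hW4⟩ := ln_nhd (ln_isOpen (U s)) h2.1 hε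
      refine ⟨V, W, hV1, hW1, hV2, hW2,
        hV3.trans (ENNReal.ofReal_le_ofReal (min_le_left _ _)),
        hW3.trans (ENNReal.ofReal_le_ofReal (min_le_left _ _)), ?_⟩
      rw [Set.disjoint_left]
      intro z hz hz'
      have ha := Metric.mem_ball'.1 (hV4 hz).2
      have hb := Metric.mem_ball.1 (hW4 hz').2
      have hc := dist_triangle (p s).1 z (p s).2
      have hm := min_le_right ((1 / 2 : ℝ) ^ n) (dist (p s).1 (p s).2)
      linarith
    choose V W hV hW hVU hWU hVd hWd hVW using hsep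
    apply hcon
    refine ⟨fun t => if t.head then V t.tail else W t.tail, ⟨?_, ?_, ?_⟩, y, ?_⟩
    · intro s b
      cases b
      · simpa using hWU s
      · simpa using hVU s
    · intro s
      simpa using hVW s
    · intro s b
      cases b
      · simpa using hWd s
      · simpa using hVd s
    · rw [mem_iInter]
      intro t
      obtain ⟨h1, h2, h3, h4⟩ := hp t.tail
      have hy' : f (p t.tail).1 = y := hpy t.tail
      dsimp only
      split_ifs with hb
      · exact ⟨_, ⟨hV _, h1.2⟩, hy'⟩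
      · exact ⟨_, ⟨hW _, h2.2⟩, by rw [← h4]; exact hy'⟩
  obtain ⟨B, hB1, hB2, hB3⟩ := ln_novikov D hD Finset.univ univ MeasurableSet.univ hempty
  let G : List.Vector Bool n → Set X := fun s => (U s : Set X) ∩ Z ∩ f ⁻¹' (B s)ᶜ
  have hGm : ∀ s, MeasurableSet (G s) := fun s =>
    ((ln_isOpen (U s)).measurableSet.inter hZ.1).inter (hf.measurable (hB1 s).compl)
  have hGi : ∀ s, InjOn f (G s) := by
    intro s x hx x' hx' hxx'
    by_contra hne
    exact hx.2 (hB2 s ⟨(x, x'), ⟨hx.1, hx'.1, hne, hxx'⟩, rfl⟩)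
  have hZ' : LnG f (Z \ ⋃ s, G s) := by
    obtain ⟨hm, S, hS1, hS2, hS3⟩ := hZ
    refine ⟨hm.diff (MeasurableSet.iUnion hGm), S ∪ range G, hS1.union (countable_range G), ?_, ?_⟩
    · rintro A (hA | ⟨s, rfl⟩)
      · exact hS2 A hA
      · exact ⟨hGm s, hGi s⟩
    · intro x hx
      by_cases hxZ : x ∈ Z
      · have : x ∈ ⋃ s, G s := by
          by_contra h
          exact hx ⟨hxZ, h⟩
        obtain ⟨s, hs⟩ := mem_iUnion.1 this
        exact ⟨G s, Or.inr ⟨s, rfl⟩, hs⟩
      · obtain ⟨A, hA, hxA⟩ := hS3 hxZ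
        exact ⟨A, Or.inl hA, hxA⟩
  refine hdead n U _ hZ' ?_ hU
  rintro ⟨y, hy⟩
  rw [mem_iInter] at hy
  have : y ∈ univ ∩ ⋂ i ∈ (Finset.univ : Finset (List.Vector Bool n)), B i := by
    refine ⟨mem_univ _, ?_⟩
    simp only [Finset.mem_univ, iInter_true, mem_iInter]
    intro s
    obtain ⟨x, ⟨hxU, hxZ, hxG⟩, hxy⟩ := hy s
    by_contra hyB
    apply hxG
    refine mem_iUnion.2 ⟨s, ⟨hxU, hxZ⟩, ?_⟩
    rw [mem_preimage, hxy]
    exact hyB
  rw [hB3] at this
  exact this

theorem ln_metric (f : X → Y) (hf : Continuous f) (hc : ∀ y, (f ⁻¹' {y}).Countable) :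
    LnG f ∅ := by
  classical
  -- the universal set
  let ch : (Σ n : ℕ, LnA X n) → Set X := fun U =>
    if h : ∃ Z' : Set X, LnG f Z' ∧ ¬ LnAlive f U.2 Z' then h.choose else univ
  have hch : ∀ U, LnG f (ch U) := by
    intro U
    by_cases h : ∃ Z' : Set X, LnG f Z' ∧ ¬ LnAlive f U.2 Z'
    · simp only [ch, dif_pos h]
      exact h.choose_spec.1
    · simp only [ch, dif_neg h]
      exact ln_G_univ f
  have hZ : LnG f (⋂ U, ch U) := ln_G_iInter f ch hch
  have hdead : ∀ (n : ℕ) (U : LnA X n) (Z' : Set X), LnG f Z' → ¬ LnAlive f U Z' →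
      ¬ LnAlive f U (⋂ U, ch U) := by
    intro n U Z' hZ' hU hU'
    have h : ∃ Z' : Set X, LnG f Z' ∧ ¬ LnAlive f (⟨n, U⟩ : Σ n : ℕ, LnA X n).2 Z' := ⟨Z', hZ', hU⟩
    have h1 := ln_alive_mono f U (iInter_subset ch ⟨n, U⟩) hU'
    have h2 : ch ⟨n, U⟩ = h.choose := by simp only [ch, dif_pos h]
    rw [h2] at h1
    exact h.choose_spec.2 h1
  generalize (⋂ U, ch U) = Z at hZ hdead
  by_cases hne : Z = ∅
  · rw [← hne]; exact hZ
  exfalso
  obtain ⟨x₀, hx₀⟩ := nonempty_iff_ne_empty.2 hne
  -- the sequence of approximations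
  have hstep := fun (n : ℕ) (U : {U : LnA X n // LnAlive f U Z}) =>
    ln_step f hf hZ hdead U.1 U.2
  choose nx hnx1 hnx2 using hstep
  let sq : (n : ℕ) → {U : LnA X n // LnAlive f U Z} := fun n =>
    Nat.rec (motive := fun n => {U : LnA X n // LnAlive f U Z})
      ⟨fun _ => ⟨univ, Or.inl rfl⟩, f x₀, by
        rw [mem_iInter]
        intro s
        exact ⟨x₀, ⟨mem_univ _, hx₀⟩, rfl⟩⟩
      (fun n U => ⟨nx n U, hnx2 n U⟩) n
  have hsq : ∀ n, LnExt (sq n).1 (sq (n + 1)).1 := fun n => hnx1 n (sq n)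
  let A : List Bool → Set X := fun l => ((sq l.length).1 ⟨l, rfl⟩ : Set X)
  have hanti : CantorScheme.ClosureAntitone A := fun l a => (hsq l.length).1 ⟨l, rfl⟩ a
  have hdis : CantorScheme.Disjoint A := by
    intro l a b hab
    have h1 := (hsq l.length).2.1 ⟨l, rfl⟩
    cases a <;> cases b
    · exact absurd rfl hab
    · exact h1.symm
    · exact h1
    · exact absurd rfl hab
  choose y hy using fun n => (sq n).2
  have hy' : ∀ l : List Bool, y l.length ∈ f '' (A l ∩ Z) := by
    intro l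
    have := hy l.length
    rw [mem_iInter] at this
    exact this ⟨l, rfl⟩
  have hnonempty : ∀ l, (A l).Nonempty := by
    intro l
    obtain ⟨x, hx, -⟩ := hy' l
    exact ⟨x, hx.1⟩
  have hdiam : CantorScheme.VanishingDiam A := by
    intro β
    rw [← Filter.tendsto_add_atTop_iff_nat 1]
    have h0 : Filter.Tendsto (fun n : ℕ => ENNReal.ofReal ((1 / 2 : ℝ) ^ n)) Filter.atTop (𝓝 0) := by
      rw [← ENNReal.ofReal_zero]
      exact ENNReal.tendsto_ofReal (tendsto_pow_atTop_nhds_zero_of_lt_one (by norm_num) (by norm_num))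
    refine tendsto_of_tendsto_of_tendsto_of_le_of_le tendsto_const_nhds h0 (fun _ => zero_le) ?_
    intro n
    have h2 : ∀ (l : List Bool) (b : Bool),
        Metric.ediam (A (b :: l)) ≤ ENNReal.ofReal ((1 / 2) ^ l.length) :=
      fun l b => (hsq l.length).2.2 ⟨l, rfl⟩ b
    have h1 := h2 (PiNat.res β n) (β n)
    rw [PiNat.res_length] at h1
    exact h1
  have hall : (CantorScheme.inducedMap A).1 = univ := hanti.map_of_vanishingDiam hdiam hnonempty
  have hinj := hdis.map_injective
  have hmem := CantorScheme.map_mem (A := A)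
  -- all values agree
  have hlim : ∀ β : (CantorScheme.inducedMap A).1,
      Filter.Tendsto y Filter.atTop (𝓝 (f ((CantorScheme.inducedMap A).2 β))) := by
    intro β
    have hy2 : ∀ n, ∃ x, x ∈ A (PiNat.res β.1 n) ∧ f x = y n := by
      intro n
      obtain ⟨x, hx, hxy⟩ := hy' (PiNat.res β.1 n)
      rw [PiNat.res_length] at hxy
      exact ⟨x, hx.1, hxy⟩
    choose ξ hξ1 hξ2 using hy2
    have h1 : Filter.Tendsto ξ Filter.atTop (𝓝 ((CantorScheme.inducedMap A).2 β)) := by
      rw [tendsto_iff_edist_tendsto_0]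
      refine tendsto_of_tendsto_of_tendsto_of_le_of_le tendsto_const_nhds (hdiam β.1)
        (fun _ => zero_le) (fun n => ?_)
      exact Metric.edist_le_ediam_of_mem (hξ1 n) (hmem β n)
    have h2 := (hf.tendsto _).comp h1
    have h3 : f ∘ ξ = y := funext hξ2
    rwa [h3] at h2
  have heq : ∀ β β' : (CantorScheme.inducedMap A).1,
      f ((CantorScheme.inducedMap A).2 β) = f ((CantorScheme.inducedMap A).2 β') :=
    fun β β' => tendsto_nhds_unique (hlim β) (hlim β')
  have β₀ : (CantorScheme.inducedMap A).1 := ⟨fun _ => true, by rw [hall]; exact mem_univ _⟩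
  have hcount := hc (f ((CantorScheme.inducedMap A).2 β₀))
  have hr : range (CantorScheme.inducedMap A).2 ⊆ f ⁻¹' {f ((CantorScheme.inducedMap A).2 β₀)} := by
    rintro _ ⟨β, rfl⟩
    exact heq β β₀
  have hcr := hcount.mono hr
  have hcβ : (univ : Set (CantorScheme.inducedMap A).1).Countable := by
    have := hcr.preimage_of_injOn (f := (CantorScheme.inducedMap A).2) (hinj.injOn)
    rwa [preimage_range] at this
  have hcc : Countable (CantorScheme.inducedMap A).1 := countable_univ_iff.1 hcβ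
  rw [hall] at hcc
  have hc2 : Countable (ℕ → Bool) := (Equiv.Set.univ (ℕ → Bool)).countable_iff.1 hcc
  obtain ⟨g, hg⟩ := hc2.exists_injective_nat
  refine Function.cantor_injective (fun s : Set ℕ => g (fun n => decide (n ∈ s))) ?_
  intro s t hst
  have h3 := hg hst
  ext n
  have h4 := congrFun h3 n
  simpa using h4

end main

lemma ln_top {X Y : Type} [TopologicalSpace X] [PolishSpace X] [MeasurableSpace X] [BorelSpace X]
    [TopologicalSpace Y] [PolishSpace Y] [MeasurableSpace Y] [BorelSpace Y] (f : X → Y)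
    (hf : Continuous f) (hc : ∀ y, (f ⁻¹' {y}).Countable) : LnG f ∅ := by
  let _ := TopologicalSpace.upgradeIsCompletelyMetrizable X
  exact ln_metric f hf hc

theorem lusin_novikov {X Y : Type} [MeasurableSpace X] [StandardBorelSpace X] [MeasurableSpace Y]
    [StandardBorelSpace Y] (f : X → Y) (hf : Measurable f) (hc : ∀ y, (f ⁻¹' {y}).Countable) :
    ∃ G : ℕ → Set X, (∀ n, MeasurableSet (G n)) ∧ (∀ n, InjOn f (G n)) ∧ ⋃ n, G n = univ := by
  let uX := upgradeStandardBorel X
  let uY := upgradeStandardBorel Y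
  obtain ⟨t', ht', hfc, hp⟩ := hf.exists_continuous
  have hbX : @BorelSpace X t' _ := by
    constructor
    rw [borel_eq_borel_of_le hp uX.toPolishSpace ht']
    exact uX.toBorelSpace.measurable_eq
  obtain ⟨-, S, hS1, hS2, hS3⟩ : LnG f ∅ :=
    @ln_top X Y t' hp _ hbX _ _ _ _ f hfc hc
  obtain ⟨G, hG⟩ := (hS1.insert ∅).exists_eq_range ⟨∅, mem_insert _ _⟩
  have hG' : ∀ n, MeasurableSet (G n) ∧ InjOn f (G n) := by
    intro n
    have h1 : G n ∈ insert ∅ S := by rw [hG]; exact mem_range_self n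
    rcases h1 with h1 | h1
    · rw [h1]
      exact ⟨MeasurableSet.empty, injOn_empty f⟩
    · exact hS2 _ h1
  refine ⟨G, fun n => (hG' n).1, fun n => (hG' n).2, ?_⟩
  rw [eq_univ_iff_forall]
  intro x
  have hx : x ∈ ⋃₀ S := hS3 (by simp)
  obtain ⟨A, hA, hxA⟩ := hx
  have h2 : A ∈ range G := by rw [← hG]; exact Or.inr hA
  obtain ⟨n, rfl⟩ := h2
  exact mem_iUnion.2 ⟨n, hxA⟩

end Pool.CAR
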