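import Pool.Agent.CAR.Defs

/-!
# CAR: the Baire category part
-/

open MeasureTheory Topology Set

namespace Pool.CAR

theorem borelSpace_sum (A B : Type) [TopologicalSpace A] [MeasurableSpace A] [BorelSpace A]
    [TopologicalSpace B] [MeasurableSpace B] [BorelSpace B] : BorelSpace (A ⊕ B) := by
  refine ⟨le_antisymm ?_ ?_⟩
  · intro s hs
    have h1 : MeasurableSet (Sum.inl ⁻¹' s : Set A) := measurable_inl hs
    have h2 : MeasurableSet (Sum.inr ⁻¹' s : Set B) := measurable_inr hs
    have e : s = Sum.inl '' (Sum.inl ⁻¹' s : Set A) ∪ Sum.inr '' (Sum.inr ⁻¹' s : Set B) := by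
      ext x
      rcases x with a | b <;> simp
    let _ : MeasurableSpace (A ⊕ B) := borel _
    have : BorelSpace (A ⊕ B) := ⟨rfl⟩
    rw [e]
    exact (IsOpenEmbedding.inl.measurableEmbedding.measurableSet_image.2 h1).union
      (IsOpenEmbedding.inr.measurableEmbedding.measurableSet_image.2 h2)
  · refine MeasurableSpace.generateFrom_le fun s hs => ?_
    have h1 : IsOpen (Sum.inl ⁻¹' s : Set A) := hs.preimage continuous_inl
    have h2 : IsOpen (Sum.inr ⁻¹' s : Set B) := hs.preimage continuous_inr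
    exact measurableSet_sum_iff.2 ⟨h1.measurableSet, h2.measurableSet⟩

theorem standardBorel_sum (A B : Type) [MeasurableSpace A] [StandardBorelSpace A]
    [MeasurableSpace B] [StandardBorelSpace B] : StandardBorelSpace (A ⊕ B) := by
  let _ := upgradeStandardBorel A
  let _ := upgradeStandardBorel B
  have := borelSpace_sum A B
  exact standardBorel_of_polish

theorem circle_residual_compl_singleton (x : UnitAddCircle) :
    ({x}ᶜ : Set UnitAddCircle) ∈ residual UnitAddCircle := by
  refine residual_of_dense_open isOpen_compl_singleton ?_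
  rw [dense_compl_singleton_iff_not_open]
  intro hopen
  have h1 : IsClopen ({x} : Set UnitAddCircle) := ⟨isClosed_singleton, hopen⟩
  have h2 := h1.eq_univ (singleton_nonempty x)
  have h3 : ((1 / 2 : ℝ) : UnitAddCircle) ≠ 0 := by
    rw [Ne, AddCircle.coe_eq_zero_iff]
    rintro ⟨n, hn⟩
    have : (n : ℝ) = 1 / 2 := by simpa using hn
    have h4 : (2 * n : ℝ) = 1 := by linarith
    have h5 : (2 * n : ℤ) = 1 := by exact_mod_cast h4
    omega
  have h4 : (0 : UnitAddCircle) ∈ ({x} : Set UnitAddCircle) := h2 ▸ mem_univ _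
  have h5 : ((1 / 2 : ℝ) : UnitAddCircle) ∈ ({x} : Set UnitAddCircle) := h2 ▸ mem_univ _
  rw [mem_singleton_iff] at h4 h5
  exact h3 (h5.trans h4.symm)

theorem countable_torsion : {t : UnitAddCircle | addOrderOf t ≠ 0}.Countable := by
  refine (Set.countable_range (fun q : ℚ => ((q : ℝ) : UnitAddCircle))).mono ?_
  intro t ht
  rw [mem_ofPred_eq, Ne, addOrderOf_eq_zero_iff, not_not, isOfFinAddOrder_iff_nsmul_eq_zero] at ht
  obtain ⟨n, hn, h⟩ := ht
  obtain ⟨x, rfl⟩ := QuotientAddGroup.mk_surjective t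
  have h1 : ((n * x : ℝ) : UnitAddCircle) = 0 := by
    rw [← h, ← nsmul_eq_mul]
    rfl
  rw [AddCircle.coe_eq_zero_iff] at h1
  obtain ⟨m, hm⟩ := h1
  refine ⟨(m : ℚ) / n, ?_⟩
  have hn' : (n : ℝ) ≠ 0 := by exact_mod_cast hn.ne'
  have h2 : (((m : ℚ) / n : ℚ) : ℝ) = x := by
    push_cast
    rw [div_eq_iff hn']
    have : (m : ℝ) = n * x := by simpa using hm
    linarith
  simp only [h2]

theorem residual_compl_countable {s : Set UnitAddCircle} (hs : s.Countable) :
    sᶜ ∈ residual UnitAddCircle := by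
  have h : sᶜ = ⋂ x ∈ s, {x}ᶜ := by
    ext y
    simp only [mem_compl_iff, mem_iInter, mem_singleton_iff]
    exact ⟨fun h x hx hxy => h (hxy ▸ hx), fun h hy => h y hy rfl⟩
  rw [h]
  exact (countable_bInter_mem hs).2 fun x _ => circle_residual_compl_singleton x

theorem exists_sets {κ : Type} [Countable κ] (N : κ → Set (UnitAddCircle × UnitAddCircle))
    (hcl : ∀ k, IsClosed (N k))
    (hfun : ∀ k t c c', (c, t) ∈ N k → (c', t) ∈ N k → c = c') :
    ∃ D T : Set UnitAddCircle, Dense D ∧ MeasurableSet T ∧ (∀ t ∈ T, addOrderOf t = 0) ∧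
      T ∈ residual UnitAddCircle ∧ ∀ k, ∀ d ∈ D, ∀ t ∈ T, (d, t) ∉ N k := by
  -- the sections
  set S : κ → UnitAddCircle → Set UnitAddCircle := fun k d => {t | (d, t) ∈ N k} with hS
  have hScl : ∀ k d, IsClosed (S k d) := fun k d =>
    (hcl k).preimage (by fun_prop : Continuous fun t : UnitAddCircle => (d, t))
  have hB : ∀ k, {d | (interior (S k d)).Nonempty}.Countable := by
    intro k
    refine Set.PairwiseDisjoint.countable_of_isOpen (s := fun d => interior (S k d)) ?_
      (fun _ _ => isOpen_interior) (fun _ h => h)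
    intro d _ d' _ hdd
    refine Set.disjoint_left.2 fun t ht ht' => hdd ?_
    have h1 : t ∈ S k d := interior_subset ht
    have h2 : t ∈ S k d' := interior_subset ht'
    exact hfun k t d d' h1 h2
  set B : Set UnitAddCircle := ⋃ k, {d | (interior (S k d)).Nonempty} with hBdef
  have hBc : B.Countable := Set.countable_iUnion hB
  have hBd : Dense Bᶜ := dense_of_mem_residual (residual_compl_countable hBc)
  obtain ⟨D, hDB, hDc, hDd⟩ := hBd.exists_countable_dense_subset
  refine ⟨D, (⋃ k, ⋃ d ∈ D, S k d)ᶜ ∩ {t | addOrderOf t ≠ 0}ᶜ, hDd, ?_, ?_, ?_, ?_⟩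
  · refine MeasurableSet.inter (MeasurableSet.compl ?_) countable_torsion.measurableSet.compl
    exact MeasurableSet.iUnion fun k => MeasurableSet.biUnion hDc fun d _ =>
      (hScl k d).measurableSet
  · intro t ht
    have := ht.2
    simpa using this
  · refine Filter.inter_mem ?_ (residual_compl_countable countable_torsion)
    simp only [compl_iUnion]
    refine (countable_iInter_mem).2 fun k => (countable_bInter_mem hDc).2 fun d hd => ?_
    refine residual_of_dense_open (hScl k d).isOpen_compl ?_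
    rw [← interior_eq_empty_iff_dense_compl]
    by_contra hne
    exact hDB hd (mem_iUnion.2 ⟨k, Set.nonempty_iff_ne_empty.2 hne⟩)
  · intro k d hd t ht h
    exact ht.1 (mem_iUnion.2 ⟨k, mem_iUnion₂.2 ⟨d, hd, h⟩⟩)

theorem baire_pick {κ : Type} [Countable κ] (C : κ → Set UnitAddCircle)
    (hcl : ∀ k, IsClosed (C k)) {D T : Set UnitAddCircle} (hD : Dense D)
    (hT : T ∈ residual UnitAddCircle) (hTC : T ⊆ ⋃ k, C k) : ∃ k, ∃ d ∈ D, d ∈ C k := by
  by_contra hcon
  push Not at hcon
  have h1 : ∀ k, Dense (C k)ᶜ := by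
    intro k
    rw [← interior_eq_empty_iff_dense_compl]
    by_contra hne
    obtain ⟨d, hd1, hd2⟩ := hD.inter_open_nonempty _ isOpen_interior
      (Set.nonempty_iff_ne_empty.2 hne)
    exact hcon k d hd2 (interior_subset hd1)
  have h2 : T ∩ ⋂ k, (C k)ᶜ ∈ residual UnitAddCircle :=
    Filter.inter_mem hT (countable_iInter_mem.2 fun k =>
      residual_of_dense_open (hcl k).isOpen_compl (h1 k))
  obtain ⟨x, hx1, hx2⟩ := (dense_of_mem_residual h2).nonempty
  obtain ⟨k, hk⟩ := mem_iUnion.1 (hTC hx1)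
  exact (mem_iInter.1 hx2 k) hk

end Pool.CAR
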